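import Mathlib

set_option autoImplicit false

namespace Run7.h321

/-- A plane of `ℂ³` is the kernel of a functional. -/
theorem exists_functional {ℓ : Submodule ℂ (Fin 3 → ℂ)} (h : Module.finrank ℂ ℓ = 2) :
    ∃ f : Module.Dual ℂ (Fin 3 → ℂ), f ≠ 0 ∧ ∀ y, y ∈ ℓ ↔ f y = 0 := by
  have hne : ℓ ≠ ⊤ := by
    rintro rfl
    simp at h
  obtain ⟨y₀, hy₀⟩ : ∃ y, y ∉ ℓ := by
    by_contra hcon
    push Not at hcon
    exact hne (eq_top_iff.mpr fun y _ => hcon y)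
  obtain ⟨f, hf, hle⟩ := Submodule.exists_le_ker_of_notMem hy₀
  have hf0 : f ≠ 0 := by
    rintro rfl
    simp at hf
  refine ⟨f, hf0, ?_⟩
  have hrk : Module.finrank ℂ (LinearMap.ker f) = 2 := by
    have h1 := LinearMap.finrank_range_add_finrank_ker f
    have h2 : Module.finrank ℂ (LinearMap.range f) = 1 := by
      rw [LinearMap.range_eq_top.mpr (LinearMap.surjective hf0)]
      simp
    rw [h2] at h1
    simp at h1
    omega
  have heq : ℓ = LinearMap.ker f := Submodule.eq_of_le_of_finrank_eq hle (by rw [h, hrk])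
  intro y
  conv_lhs => rw [heq]
  rw [LinearMap.mem_ker]

/-- Coordinates adapted to a nonzero vector and a finite set of planes. -/
theorem exists_chart (A : Set (Submodule ℂ (Fin 3 → ℂ))) (hfin : A.Finite)
    (hline : ∀ ℓ ∈ A, Module.finrank ℂ ℓ = 2) {v : Fin 3 → ℂ} (hv : v ≠ 0) :
    ∃ (M : (Fin 3 → ℂ) ≃ₗ[ℂ] (Fin 3 → ℂ)) (a : Submodule ℂ (Fin 3 → ℂ) → Fin 3 → ℂ),
      M v 0 = 1 ∧ M v 1 = 0 ∧ M v 2 = 0 ∧
      (∀ ℓ ∈ A, (∀ y, y ∈ ℓ ↔ a ℓ 0 * M y 0 + a ℓ 1 * M y 1 + a ℓ 2 * M y 2 = 0)) ∧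
      (∀ ℓ ∈ A, v ∈ ℓ → a ℓ 0 = 0 ∧ a ℓ 1 = 1) ∧
      (∀ ℓ ∈ A, v ∉ ℓ → a ℓ 0 = 1) ∧
      (∀ ℓ ∈ A, ∀ ℓ' ∈ A, v ∉ ℓ → v ∉ ℓ' → a ℓ 1 = a ℓ' 1 → ℓ = ℓ') := by
  classical
  have hφ : ∀ ℓ : Submodule ℂ (Fin 3 → ℂ), ∃ f : Module.Dual ℂ (Fin 3 → ℂ),
      ℓ ∈ A → f ≠ 0 ∧ ∀ y, y ∈ ℓ ↔ f y = 0 := by
    intro ℓ
    by_cases hℓ : ℓ ∈ A
    · obtain ⟨f, hf⟩ := exists_functional (hline ℓ hℓ)
      exact ⟨f, fun _ => hf⟩
    · exact ⟨0, fun h => absurd h hℓ⟩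
  choose φ hφ using hφ
  -- a functional killing `v`
  obtain ⟨f₀, hf₀0, hf₀v⟩ : ∃ f : Module.Dual ℂ (Fin 3 → ℂ), f ≠ 0 ∧ f v = 0 := by
    have hlt : Submodule.span ℂ {v} < ⊤ := by
      rw [lt_top_iff_ne_top]
      intro h
      have h1 := finrank_span_singleton (K := ℂ) hv
      rw [h] at h1
      simp at h1
    obtain ⟨f, hf, hf'⟩ := Submodule.exists_dual_map_eq_bot_of_lt_top hlt inferInstance
    refine ⟨f, hf, ?_⟩
    have : f v ∈ Submodule.map f (Submodule.span ℂ {v}) :=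
      Submodule.mem_map_of_mem (Submodule.mem_span_singleton_self v)
    rw [hf', Submodule.mem_bot] at this
    exact this
  have hAf : Finite A := hfin
  let ψ : A × A → Module.Dual ℂ (Fin 3 → ℂ) := fun q =>
    if v ∈ q.1.1 then φ q.1.1 else (φ q.2.1 v) • φ q.1.1 - (φ q.1.1 v) • φ q.2.1
  let Ψ : Option (A × A) → Module.Dual ℂ (Fin 3 → ℂ) := fun o =>
    match o with
    | none => f₀
    | some q => if ψ q = 0 then f₀ else ψ q
  have hΨ : ∀ o, ∃ x, Ψ o x ≠ 0 := by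
    intro o
    have h0 : Ψ o ≠ 0 := by
      cases o with
      | none => exact hf₀0
      | some q =>
        by_cases h : ψ q = 0
        · simp only [Ψ, h, if_true]; exact hf₀0
        · simp only [Ψ, h, if_false]; exact h
    by_contra hcon
    push Not at hcon
    exact h0 (LinearMap.ext hcon)
  obtain ⟨w, hw⟩ := Module.Dual.exists_forall_ne_zero_of_forall_exists Ψ hΨ
  have hw0 : f₀ w ≠ 0 := hw none
  have hwψ : ∀ q, ψ q ≠ 0 → ψ q w ≠ 0 := by
    intro q hq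
    have h1 := hw (some q)
    simp only [Ψ, hq, if_false] at h1
    exact h1
  have hli : LinearIndependent ℂ ![v, w] := by
    rw [LinearIndependent.pair_iff]
    intro s t hst
    have h1 := congrArg f₀ hst
    rw [map_add, map_smul, map_smul, hf₀v, map_zero, smul_zero, zero_add, smul_eq_mul] at h1
    have ht : t = 0 := (mul_eq_zero.mp h1).resolve_right hw0
    rw [ht, zero_smul, add_zero] at hst
    exact ⟨(smul_eq_zero.mp hst).resolve_right hv, ht⟩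
  obtain ⟨x, hx⟩ := exists_linearIndependent_snoc_of_lt_finrank hli (by simp)
  let bs : Module.Basis (Fin 3) ℂ (Fin 3 → ℂ) :=
    basisOfLinearIndependentOfCardEqFinrank hx (by simp)
  have hb0 : bs 0 = v := by
    simp only [bs, coe_basisOfLinearIndependentOfCardEqFinrank]
    rfl
  have hb1 : bs 1 = w := by
    simp only [bs, coe_basisOfLinearIndependentOfCardEqFinrank]
    rfl
  let M : (Fin 3 → ℂ) ≃ₗ[ℂ] (Fin 3 → ℂ) := bs.equivFun
  have hMv : ∀ i, M v i = if i = 0 then 1 else 0 := by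
    intro i
    simp only [M]
    rw [← hb0, Module.Basis.equivFun_apply, Module.Basis.repr_self, Finsupp.single_apply]
    simp [eq_comm]
  have hexp : ∀ (f : Module.Dual ℂ (Fin 3 → ℂ)) (y : Fin 3 → ℂ),
      f y = f v * M y 0 + f w * M y 1 + f (bs 2) * M y 2 := by
    intro f y
    have h1 := bs.sum_equivFun y
    conv_lhs => rw [← h1]
    rw [Fin.sum_univ_three, map_add, map_add, map_smul, map_smul, map_smul, hb0, hb1]
    simp only [smul_eq_mul, M]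
    ring
  let a : Submodule ℂ (Fin 3 → ℂ) → Fin 3 → ℂ := fun ℓ =>
    if v ∈ ℓ then ![0, 1, φ ℓ (bs 2) / φ ℓ w] else ![1, φ ℓ w / φ ℓ v, φ ℓ (bs 2) / φ ℓ v]
  have hin : ∀ ℓ ∈ A, v ∈ ℓ → φ ℓ v = 0 ∧ φ ℓ w ≠ 0 := by
    intro ℓ hℓ hvℓ
    refine ⟨((hφ ℓ hℓ).2 v).mp hvℓ, ?_⟩
    have h1 : ψ (⟨ℓ, hℓ⟩, ⟨ℓ, hℓ⟩) = φ ℓ := by simp [ψ, hvℓ]
    have h2 := hwψ (⟨ℓ, hℓ⟩, ⟨ℓ, hℓ⟩) (by rw [h1]; exact (hφ ℓ hℓ).1)
    rwa [h1] at h2
  have hout : ∀ ℓ ∈ A, v ∉ ℓ → φ ℓ v ≠ 0 := by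
    intro ℓ hℓ hvℓ h0
    exact hvℓ (((hφ ℓ hℓ).2 v).mpr h0)
  refine ⟨M, a, by rw [hMv]; simp, by rw [hMv]; simp, by rw [hMv]; simp, ?_, ?_, ?_, ?_⟩
  · intro ℓ hℓ y
    rw [(hφ ℓ hℓ).2 y, hexp]
    by_cases hvℓ : v ∈ ℓ
    · obtain ⟨h1, h2⟩ := hin ℓ hℓ hvℓ
      simp only [a, hvℓ, if_true, h1]
      simp only [Matrix.cons_val_zero, Matrix.cons_val_one, Matrix.cons_val]
      constructor
      · intro h
        field_simp
        linear_combination h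
      · intro h
        field_simp at h
        linear_combination h
    · have h1 := hout ℓ hℓ hvℓ
      simp only [a, hvℓ, if_false]
      simp only [Matrix.cons_val_zero, Matrix.cons_val_one, Matrix.cons_val]
      constructor
      · intro h
        field_simp
        linear_combination h
      · intro h
        field_simp at h
        linear_combination h
  · intro ℓ hℓ hvℓ
    simp [a, hvℓ]
  · intro ℓ hℓ hvℓ
    simp [a, hvℓ]
  · intro ℓ hℓ ℓ' hℓ' h1 h2 he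
    by_contra hne
    have k1 := hout ℓ hℓ h1
    have k2 := hout ℓ' hℓ' h2
    have e1 : ψ (⟨ℓ, hℓ⟩, ⟨ℓ', hℓ'⟩) = (φ ℓ' v) • φ ℓ - (φ ℓ v) • φ ℓ' := by simp [ψ, h1]
    have e2 : ψ (⟨ℓ, hℓ⟩, ⟨ℓ', hℓ'⟩) ≠ 0 := by
      rw [e1]
      intro h0
      apply hne
      ext y
      rw [(hφ ℓ hℓ).2 y, (hφ ℓ' hℓ').2 y]
      have h3 := congrArg (fun f => f y) h0
      simp only [LinearMap.sub_apply, LinearMap.smul_apply, smul_eq_mul,
        LinearMap.zero_apply] at h3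
      constructor
      · intro h4
        rw [h4, mul_zero, zero_sub, neg_eq_zero] at h3
        exact (mul_eq_zero.mp h3).resolve_left k1
      · intro h4
        rw [h4, mul_zero, sub_zero] at h3
        exact (mul_eq_zero.mp h3).resolve_left k2
    have e3 := hwψ _ e2
    apply e3
    rw [e1]
    simp only [a, h1, h2, if_false] at he
    simp only [Matrix.cons_val_one, Matrix.cons_val_zero] at he
    simp only [LinearMap.sub_apply, LinearMap.smul_apply, smul_eq_mul]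
    rw [div_eq_div_iff k1 k2] at he
    linear_combination he

end Run7.h321
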