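import Pool.Agent.Run7.h321.Cover

set_option autoImplicit false

namespace Run7.h321

open Finset

/-- A collinear class lies on the graph of an affine function. -/
theorem exists_slope {C : Finset (ℂ × ℂ)} (hC : 2 ≤ C.card)
    (hx : ∀ b ∈ C, ∀ b' ∈ C, b.1 = b'.1 → b = b')
    (hcol : ∀ a ∈ C, ∀ b ∈ C, ∀ c ∈ C, a ≠ b → a ≠ c → b ≠ c → col a b c) :
    ∃ α k : ℂ, (∀ c ∈ C, c.2 = α * c.1 + k) := by
  obtain ⟨a, ha, b, hb, hne⟩ := one_lt_card.mp (show 1 < C.card by omega)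
  have hx' : b.1 - a.1 ≠ 0 := fun h0 => hne (hx a ha b hb (sub_eq_zero.mp h0).symm)
  refine ⟨(b.2 - a.2) / (b.1 - a.1), a.2 - (b.2 - a.2) / (b.1 - a.1) * a.1, ?_⟩
  intro c hc
  have h1 : col a b c := by
    by_cases h2 : a = c
    · rw [← h2]; exact col_self_left a b
    by_cases h3 : b = c
    · rw [← h3]; exact col_self_right a b
    exact hcol a ha b hb c hc hne h2 h3
  unfold col at h1
  field_simp
  linear_combination h1

theorem Net.classify {Θ : Finset ℂ} {B₁ B₂ : Finset (ℂ × ℂ)} (N : Net Θ B₁ B₂)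
    (hn : 2 ≤ Θ.card)
    (hx1 : ∀ b ∈ B₁, ∀ b' ∈ B₁, b.1 = b'.1 → b = b')
    (hx2 : ∀ b ∈ B₂, ∀ b' ∈ B₂, b.1 = b'.1 → b = b')
    (hx12 : ∀ b ∈ B₁, ∀ b' ∈ B₂, b.1 ≠ b'.1)
    (hcol1 : ∀ a ∈ B₁, ∀ b ∈ B₁, ∀ c ∈ B₁, a ≠ b → a ≠ c → b ≠ c → col a b c)
    (hcol2 : ∀ a ∈ B₂, ∀ b ∈ B₂, ∀ c ∈ B₂, a ≠ b → a ≠ c → b ≠ c → col a b c) :
    ∃ x₀ y₀ α γ s₀ t₀ : ℂ, s₀ ≠ 0 ∧ t₀ ≠ 0 ∧ α ≠ γ ∧
      (∀ b : ℂ × ℂ, b ∈ B₁ ↔ ∃ ζ : ℂ, ζ ^ Θ.card = 1 ∧ b = (x₀ + s₀ * ζ, y₀ + α * (s₀ * ζ))) ∧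
      (∀ b : ℂ × ℂ, b ∈ B₂ ↔ ∃ ζ : ℂ, ζ ^ Θ.card = 1 ∧ b = (x₀ + t₀ * ζ, y₀ + γ * (t₀ * ζ))) ∧
      (∀ θ : ℂ, θ ∈ Θ ↔ ∃ ζ : ℂ, ζ ^ Θ.card = 1 ∧ s₀ ≠ t₀ * ζ ∧
        θ * (s₀ - t₀ * ζ) = α * s₀ - γ * (t₀ * ζ)) := by
  classical
  obtain ⟨α, k₁, h1⟩ := exists_slope (C := B₁) (by rw [N.card1]; exact hn) hx1 hcol1
  obtain ⟨γ, k₂, h2⟩ := exists_slope (C := B₂) (by rw [N.card2]; exact hn) hx2 hcol2
  obtain ⟨a, ha, a', ha', hane⟩ := one_lt_card.mp (show 1 < B₁.card by rw [N.card1]; omega)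
  obtain ⟨b, hb, b', hb', hbne⟩ := one_lt_card.mp (show 1 < B₂.card by rw [N.card2]; omega)
  have hαΘ : α ∉ Θ := by
    intro hα
    apply N.in1 a ha a' ha' hane α hα
    unfold fib
    rw [h1 a ha, h1 a' ha']; ring
  have hγΘ : γ ∉ Θ := by
    intro hγ
    apply N.in2 b hb b' hb' hbne γ hγ
    unfold fib
    rw [h2 b hb, h2 b' hb']; ring
  have hcr : ∀ c ∈ B₁, ∀ d ∈ B₂, ∃ θ ∈ Θ, (α - θ) * c.1 + k₁ = (γ - θ) * d.1 + k₂ := by
    intro c hc d hd
    obtain ⟨θ, hθ, hf⟩ := N.cross c hc d hd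
    refine ⟨θ, hθ, ?_⟩
    unfold fib at hf
    rw [h1 c hc, h2 d hd] at hf
    linear_combination hf
  have hcard0 : (Θ.card : ℂ) ≠ 0 := by
    have : Θ.card ≠ 0 := by omega
    exact_mod_cast this
  by_cases hαγ : α = γ
  · exfalso
    subst hαγ
    -- differences of abscissas
    set Δ : Finset ℂ := Θ.image fun θ => (k₁ - k₂) / (θ - α) with hΔ
    have hθα : ∀ θ ∈ Θ, θ - α ≠ 0 := fun θ hθ h0 => hαΘ ((sub_eq_zero.mp h0) ▸ hθ)
    have hdiff : ∀ d ∈ B₂, B₁.image (fun c => c.1 - d.1) = Δ := by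
      intro d hd
      apply eq_of_subset_of_card_le
      · intro v hv
        obtain ⟨c, hc, rfl⟩ := mem_image.mp hv
        obtain ⟨θ, hθ, he⟩ := hcr c hc d hd
        rw [hΔ, mem_image]
        refine ⟨θ, hθ, ?_⟩
        rw [div_eq_iff (hθα θ hθ)]
        linear_combination he
      · have e1 : (B₁.image (fun c => c.1 - d.1)).card = B₁.card := by
          apply card_image_of_injOn
          intro c hc c' hc' he
          exact hx1 c hc c' hc' (by simpa using he)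
        rw [e1, N.card1]
        exact card_image_le
    have hsum : ∀ d ∈ B₂, ∑ c ∈ B₁, c.1 - Θ.card * d.1 = ∑ v ∈ Δ, v := by
      intro d hd
      rw [← hdiff d hd, sum_image, sum_sub_distrib, sum_const, N.card1, nsmul_eq_mul]
      intro c hc c' hc' he
      exact hx1 c hc c' hc' (by simpa using he)
    have e1 := hsum b hb
    have e2 := hsum b' hb'
    have e3 : (Θ.card : ℂ) * b.1 = Θ.card * b'.1 := by linear_combination e2 - e1
    exact hbne (hx2 b hb b' hb' (mul_left_cancel₀ hcard0 e3))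
  · have hag : α - γ ≠ 0 := sub_ne_zero.mpr hαγ
    set x₀ : ℂ := (k₂ - k₁) / (α - γ) with hx₀
    set y₀ : ℂ := α * x₀ + k₁ with hy₀
    have hk : (α - γ) * x₀ = k₂ - k₁ := by rw [hx₀]; field_simp
    have hcr' : ∀ c ∈ B₁, ∀ d ∈ B₂, ∃ θ ∈ Θ, (θ - α) * (c.1 - x₀) = (θ - γ) * (d.1 - x₀) := by
      intro c hc d hd
      obtain ⟨θ, hθ, he⟩ := hcr c hc d hd
      refine ⟨θ, hθ, ?_⟩
      linear_combination (-1) * he + hk
    -- no point at the crossing
    have hs0 : ∀ c ∈ B₁, c.1 - x₀ ≠ 0 := by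
      intro c hc h0
      obtain ⟨d, hd, hd0⟩ : ∃ d ∈ B₂, d.1 - x₀ ≠ 0 := by
        by_contra hcon
        push Not at hcon
        have e1 := hcon b hb
        have e2 := hcon b' hb'
        exact hbne (hx2 b hb b' hb' (by linear_combination e1 - e2))
      obtain ⟨θ, hθ, he⟩ := hcr' c hc d hd
      rw [h0, mul_zero] at he
      rcases mul_eq_zero.mp he.symm with h3 | h3
      · exact hγΘ ((sub_eq_zero.mp h3) ▸ hθ)
      · exact hd0 h3
    have ht0 : ∀ d ∈ B₂, d.1 - x₀ ≠ 0 := by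
      intro d hd h0
      obtain ⟨c, hc, hc0⟩ : ∃ c ∈ B₁, c.1 - x₀ ≠ 0 := ⟨a, ha, hs0 a ha⟩
      obtain ⟨θ, hθ, he⟩ := hcr' c hc d hd
      rw [h0, mul_zero] at he
      rcases mul_eq_zero.mp he with h3 | h3
      · exact hαΘ ((sub_eq_zero.mp h3) ▸ hθ)
      · exact hc0 h3
    have hθα : ∀ θ ∈ Θ, θ - α ≠ 0 := fun θ hθ h0 => hαΘ ((sub_eq_zero.mp h0) ▸ hθ)
    set P : Finset ℂ := Θ.image fun θ => (θ - γ) / (θ - α) with hP
    have hPc : P.card ≤ Θ.card := card_image_le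
    have hmemP : ∀ c ∈ B₁, ∀ d ∈ B₂, (c.1 - x₀) / (d.1 - x₀) ∈ P := by
      intro c hc d hd
      obtain ⟨θ, hθ, he⟩ := hcr' c hc d hd
      rw [hP, mem_image]
      refine ⟨θ, hθ, ?_⟩
      rw [div_eq_div_iff (hθα θ hθ) (ht0 d hd)]
      linear_combination -he
    have hinj1 : ∀ d ∈ B₂, Set.InjOn (fun c : ℂ × ℂ => (c.1 - x₀) / (d.1 - x₀)) (B₁ : Set (ℂ × ℂ)) := by
      intro d hd c hc c' hc' he
      have hd0 := ht0 d hd
      simp only at he
      rw [div_left_inj' hd0] at he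
      exact hx1 c hc c' hc' (by linear_combination he)
    have hinj2 : ∀ c ∈ B₁, Set.InjOn (fun d : ℂ × ℂ => (c.1 - x₀) / (d.1 - x₀)) (B₂ : Set (ℂ × ℂ)) := by
      intro c hc d hd d' hd' he
      have hc0 := hs0 c hc
      simp only at he
      have e1 := ht0 d hd
      have e2 := ht0 d' hd'
      rw [div_eq_div_iff e1 e2] at he
      have := mul_left_cancel₀ hc0 he
      exact hx2 d hd d' hd' (by linear_combination -this)
    have himg1 : ∀ d ∈ B₂, B₁.image (fun c => (c.1 - x₀) / (d.1 - x₀)) = P := by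
      intro d hd
      apply eq_of_subset_of_card_le
      · intro v hv
        obtain ⟨c, hc, rfl⟩ := mem_image.mp hv
        exact hmemP c hc d hd
      · rw [card_image_of_injOn (hinj1 d hd), N.card1]; exact hPc
    have himg2 : ∀ c ∈ B₁, B₂.image (fun d => (c.1 - x₀) / (d.1 - x₀)) = P := by
      intro c hc
      apply eq_of_subset_of_card_le
      · intro v hv
        obtain ⟨d, hd, rfl⟩ := mem_image.mp hv
        exact hmemP c hc d hd
      · rw [card_image_of_injOn (hinj2 c hc), N.card2]; exact hPc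
    have hprod1 : ∀ d ∈ B₂, (∏ c ∈ B₁, (c.1 - x₀)) / (d.1 - x₀) ^ Θ.card = ∏ v ∈ P, v := by
      intro d hd
      rw [← himg1 d hd, prod_image (hinj1 d hd), prod_div_distrib, prod_const, N.card1]
    have hprod2 : ∀ c ∈ B₁, (c.1 - x₀) ^ Θ.card / (∏ d ∈ B₂, (d.1 - x₀)) = ∏ v ∈ P, v := by
      intro c hc
      rw [← himg2 c hc, prod_image (hinj2 c hc), prod_div_distrib, prod_const, N.card2]
    set s₀ := a.1 - x₀ with hs₀
    set t₀ := b.1 - x₀ with ht₀
    have hs₀0 : s₀ ≠ 0 := hs0 a ha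
    have ht₀0 : t₀ ≠ 0 := ht0 b hb
    have hpd2 : (∏ d ∈ B₂, (d.1 - x₀)) ≠ 0 := prod_ne_zero_iff.mpr ht0
    have hpd1 : (∏ c ∈ B₁, (c.1 - x₀)) ≠ 0 := prod_ne_zero_iff.mpr hs0
    have hpow1 : ∀ c ∈ B₁, ((c.1 - x₀) / s₀) ^ Θ.card = 1 := by
      intro c hc
      have e1 := hprod2 c hc
      have e2 := hprod2 a ha
      rw [← e2, div_left_inj' hpd2] at e1
      rw [div_pow, e1]
      exact div_self (pow_ne_zero _ hs₀0)
    have hpow2 : ∀ d ∈ B₂, ((d.1 - x₀) / t₀) ^ Θ.card = 1 := by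
      intro d hd
      have e1 := hprod1 d hd
      have e2 := hprod1 b hb
      rw [← e2, div_eq_div_iff (pow_ne_zero _ (ht0 d hd)) (pow_ne_zero _ ht₀0)] at e1
      have e3 := mul_left_cancel₀ hpd1 e1
      rw [div_pow, ← e3]
      exact div_self (pow_ne_zero _ ht₀0)
    have hpos : 0 < Θ.card := by omega
    set U := Polynomial.nthRootsFinset Θ.card (1 : ℂ) with hU
    have hUc : U.card ≤ Θ.card := by
      rw [hU, Polynomial.nthRootsFinset]
      exact (Multiset.toFinset_card_le _).trans (Polynomial.card_nthRoots _ _)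
    have hU1 : B₁.image (fun c => (c.1 - x₀) / s₀) = U := by
      apply eq_of_subset_of_card_le
      · intro v hv
        obtain ⟨c, hc, rfl⟩ := mem_image.mp hv
        rw [hU, Polynomial.mem_nthRootsFinset hpos]
        exact hpow1 c hc
      · rw [card_image_of_injOn, N.card1]
        · exact hUc
        · intro c hc c' hc' he
          simp only at he
          rw [div_left_inj' hs₀0] at he
          exact hx1 c hc c' hc' (by linear_combination he)
    have hU2 : B₂.image (fun c => (c.1 - x₀) / t₀) = U := by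
      apply eq_of_subset_of_card_le
      · intro v hv
        obtain ⟨c, hc, rfl⟩ := mem_image.mp hv
        rw [hU, Polynomial.mem_nthRootsFinset hpos]
        exact hpow2 c hc
      · rw [card_image_of_injOn, N.card2]
        · exact hUc
        · intro c hc c' hc' he
          simp only at he
          rw [div_left_inj' ht₀0] at he
          exact hx2 c hc c' hc' (by linear_combination he)
    have hf1 : ∀ c ∈ B₁, c.2 = y₀ + α * (c.1 - x₀) := by
      intro c hc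
      rw [h1 c hc, hy₀]; ring
    have hf2 : ∀ d ∈ B₂, d.2 = y₀ + γ * (d.1 - x₀) := by
      intro c hc
      rw [h2 c hc, hy₀]
      linear_combination -hk
    have hB1 : ∀ c : ℂ × ℂ, c ∈ B₁ ↔
        ∃ ζ : ℂ, ζ ^ Θ.card = 1 ∧ c = (x₀ + s₀ * ζ, y₀ + α * (s₀ * ζ)) := by
      intro c
      constructor
      · intro hc
        refine ⟨(c.1 - x₀) / s₀, hpow1 c hc, ?_⟩
        have e1 : s₀ * ((c.1 - x₀) / s₀) = c.1 - x₀ := by field_simp
        rw [e1]
        refine Prod.ext ?_ ?_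
        · simp
        · simp only
          exact hf1 c hc
      · rintro ⟨ζ, hζ, rfl⟩
        have : ζ ∈ U := by rw [hU, Polynomial.mem_nthRootsFinset hpos]; exact hζ
        rw [← hU1, mem_image] at this
        obtain ⟨c, hc, rfl⟩ := this
        have e1 : s₀ * ((c.1 - x₀) / s₀) = c.1 - x₀ := by field_simp
        rw [e1, ← hf1 c hc, add_sub_cancel]
        exact hc
    have hB2 : ∀ c : ℂ × ℂ, c ∈ B₂ ↔
        ∃ ζ : ℂ, ζ ^ Θ.card = 1 ∧ c = (x₀ + t₀ * ζ, y₀ + γ * (t₀ * ζ)) := by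
      intro c
      constructor
      · intro hc
        refine ⟨(c.1 - x₀) / t₀, hpow2 c hc, ?_⟩
        have e1 : t₀ * ((c.1 - x₀) / t₀) = c.1 - x₀ := by field_simp
        rw [e1]
        refine Prod.ext ?_ ?_
        · simp
        · simp only
          exact hf2 c hc
      · rintro ⟨ζ, hζ, rfl⟩
        have : ζ ∈ U := by rw [hU, Polynomial.mem_nthRootsFinset hpos]; exact hζ
        rw [← hU2, mem_image] at this
        obtain ⟨c, hc, rfl⟩ := this
        have e1 : t₀ * ((c.1 - x₀) / t₀) = c.1 - x₀ := by field_simp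
        rw [e1, ← hf2 c hc, add_sub_cancel]
        exact hc
    refine ⟨x₀, y₀, α, γ, s₀, t₀, hs₀0, ht₀0, hαγ, hB1, hB2, ?_⟩
    intro θ
    have ha1 : a.1 = x₀ + s₀ := by rw [hs₀]; ring
    constructor
    · intro hθ
      obtain ⟨d, hd, hf⟩ := N.part1 a ha θ hθ
      obtain ⟨ζ, hζ, rfl⟩ := (hB2 d).mp hd
      refine ⟨ζ, hζ, ?_, ?_⟩
      · intro he
        apply hx12 a ha _ hd
        rw [ha1, he]
      · unfold fib at hf
        rw [hf1 a ha] at hf
        simp only at hf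
        rw [ha1] at hf
        linear_combination hf
    · rintro ⟨ζ, hζ, hne, he⟩
      have hd : ((x₀ + t₀ * ζ, y₀ + γ * (t₀ * ζ)) : ℂ × ℂ) ∈ B₂ := (hB2 _).mpr ⟨ζ, hζ, rfl⟩
      obtain ⟨θ', hθ', hf⟩ := N.cross a ha _ hd
      unfold fib at hf
      rw [hf1 a ha] at hf
      simp only at hf
      rw [ha1] at hf
      have : θ = θ' := by
        apply mul_right_cancel₀ (sub_ne_zero.mpr hne)
        linear_combination he + hf
      rw [this]; exact hθ'

end Run7.h321
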