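import Pool.Agent.Run7.h321.Cols
import Pool.Agent.Run7.h321.Classify

set_option autoImplicit false

namespace Run7.h321

open Finset

theorem card_fibres_ge (B : Finset (ℂ × ℂ)) (Θ : Finset ℂ) (hB : B.Nonempty)
    (H1 : ∀ θ ∈ Θ, ∀ b ∈ B, ∃ b' ∈ B, b' ≠ b ∧ fib θ b' = fib θ b) {θ₀ : ℂ} (hθ₀ : θ₀ ∈ Θ) :
    Θ.card ≤ (B.image (fib θ₀)).card := by
  classical
  let T : ℂ × ℂ → ℂ × ℂ := fun b => (fib θ₀ b, b.1)
  have hT : Function.Injective T := by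
    intro b b' he
    simp only [T, Prod.mk.injEq] at he
    obtain ⟨h1, h2⟩ := he
    unfold fib at h1
    refine Prod.ext h2 ?_
    rw [h2] at h1
    linear_combination h1
  have hne : ∀ θ ∈ Θ.erase θ₀, θ - θ₀ ≠ 0 := fun θ hθ =>
    sub_ne_zero.mpr (mem_erase.mp hθ).1
  have key := card_slopes_lt_cols (B.image T) (hB.image T)
    ((Θ.erase θ₀).image fun θ => 1 / (θ - θ₀)) (by
      intro θ' hθ' c hc
      obtain ⟨θ, hθ, rfl⟩ := mem_image.mp hθ'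
      obtain ⟨b, hb, rfl⟩ := mem_image.mp hc
      obtain ⟨b', hb', h1, h2⟩ := H1 θ (mem_of_mem_erase hθ) b hb
      refine ⟨T b', mem_image_of_mem _ hb', fun h0 => h1 (hT h0), ?_⟩
      have h3 := hne θ hθ
      unfold fib at h2
      simp only [T, fib]
      field_simp
      linear_combination -h2)
  have h1 : ((Θ.erase θ₀).image fun θ => 1 / (θ - θ₀)).card = Θ.card - 1 := by
    rw [card_image_of_injOn, card_erase_of_mem hθ₀]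
    intro θ hθ θ' hθ' he
    have h1 := hne θ hθ
    have h2 := hne θ' hθ'
    simp only at he
    rw [div_eq_div_iff h1 h2] at he
    linear_combination -he
  have h2 : (B.image T).image Prod.fst = B.image (fib θ₀) := by
    rw [image_image]
    rfl
  rw [h1, h2] at key
  have : 0 < Θ.card := card_pos.mpr ⟨θ₀, hθ₀⟩
  omega

/-- The conclusion in the extremal case. -/
def Ferm (n : ℕ) (Θ : Finset ℂ) (B : Finset (ℂ × ℂ)) : Prop :=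
  ∃ x₀ y₀ α γ s₀ t₀ : ℂ, s₀ ≠ 0 ∧ t₀ ≠ 0 ∧ α ≠ γ ∧
    (∀ b : ℂ × ℂ, b ∈ B ↔ ∃ ζ : ℂ, ζ ^ n = 1 ∧
      (b = (x₀ + s₀ * ζ, y₀ + α * (s₀ * ζ)) ∨ b = (x₀ + t₀ * ζ, y₀ + γ * (t₀ * ζ)))) ∧
    (∀ θ : ℂ, θ ∈ Θ ↔ ∃ ζ : ℂ, ζ ^ n = 1 ∧ s₀ ≠ t₀ * ζ ∧
        θ * (s₀ - t₀ * ζ) = α * s₀ - γ * (t₀ * ζ))

theorem affine_main (B : Finset (ℂ × ℂ)) (Θ : Finset ℂ) (hB : B.Nonempty)
    (hx : ∀ b ∈ B, ∀ b' ∈ B, b.1 = b'.1 → b = b')
    (H1 : ∀ θ ∈ Θ, ∀ b ∈ B, ∃ b' ∈ B, b' ≠ b ∧ fib θ b' = fib θ b)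
    (H2 : ∀ b ∈ B, ∀ b' ∈ B, b ≠ b' → (∃ θ ∈ Θ, fib θ b = fib θ b') ∨
      ∃ b'' ∈ B, b'' ≠ b ∧ b'' ≠ b' ∧ col b b' b'') :
    2 * Θ.card ≤ B.card ∧ (B.card = 2 * Θ.card → 2 ≤ Θ.card → Ferm Θ.card Θ B) := by
  classical
  have hfib2 : ∀ θ ∈ Θ, ∀ b ∈ B, 2 ≤ (B.filter fun b' => fib θ b' = fib θ b).card := by
    intro θ hθ b hb
    obtain ⟨b', hb', h1, h2⟩ := H1 θ hθ b hb
    have : 1 < (B.filter fun b' => fib θ b' = fib θ b).card :=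
      one_lt_card.mpr ⟨b, mem_filter.mpr ⟨hb, rfl⟩, b', mem_filter.mpr ⟨hb', h2⟩, h1.symm⟩
    omega
  have hsum : ∀ θ : ℂ, B.card = ∑ v ∈ B.image (fib θ), (B.filter fun b' => fib θ b' = v).card :=
    fun θ => card_eq_sum_card_image (fib θ) B
  have hfibv : ∀ θ ∈ Θ, ∀ v ∈ B.image (fib θ), 2 ≤ (B.filter fun b' => fib θ b' = v).card := by
    intro θ hθ v hv
    obtain ⟨b, hb, rfl⟩ := mem_image.mp hv
    exact hfib2 θ hθ b hb
  refine ⟨?_, ?_⟩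
  · rcases Θ.eq_empty_or_nonempty with h0 | ⟨θ₀, hθ₀⟩
    · rw [h0]; simp
    · have h1 := card_fibres_ge B Θ hB H1 hθ₀
      have h2 : 2 * (B.image (fib θ₀)).card ≤ B.card := by
        rw [hsum θ₀, mul_comm, ← smul_eq_mul]
        exact card_nsmul_le_sum _ _ _ (hfibv θ₀ hθ₀)
      omega
  · intro heq hn
    have hfib : ∀ θ ∈ Θ, ∀ b ∈ B, (B.filter fun b' => fib θ b' = fib θ b).card = 2 := by
      intro θ hθ b hb
      by_contra hne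
      have h1 := card_fibres_ge B Θ hB H1 hθ
      have h2 : ∑ v ∈ B.image (fib θ), 2 < B.card := by
        rw [hsum θ]
        apply sum_lt_sum (hfibv θ hθ)
        refine ⟨fib θ b, mem_image_of_mem _ hb, ?_⟩
        have := hfib2 θ hθ b hb
        omega
      rw [sum_const, smul_eq_mul] at h2
      omega
    obtain ⟨B₁, B₂, hmem, N⟩ := exists_net B Θ (by omega) heq hfib hx
    have hm1 : ∀ b ∈ B₁, b ∈ B := fun b hb => (hmem b).mpr (Or.inl hb)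
    have hm2 : ∀ b ∈ B₂, b ∈ B := fun b hb => (hmem b).mpr (Or.inr hb)
    -- three collinear points in each class
    have hthree : ∀ {C₁ C₂ : Finset (ℂ × ℂ)}, Net Θ C₁ C₂ → (∀ b, b ∈ B → b ∈ C₁ ∨ b ∈ C₂) →
        (∀ b ∈ C₁, b ∈ B) →
        ∃ a ∈ C₁, ∃ a' ∈ C₁, ∃ a'' ∈ C₁, a ≠ a' ∧ a ≠ a'' ∧ a' ≠ a'' ∧ col a a' a'' := by
      intro C₁ C₂ M hmem' hmC
      obtain ⟨a, ha, a', ha', hne⟩ := one_lt_card.mp (show 1 < C₁.card by rw [M.card1]; omega)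
      rcases H2 a (hmC a ha) a' (hmC a' ha') hne with ⟨θ, hθ, hf⟩ | ⟨a'', ha'', h1, h2, h3⟩
      · exact absurd hf (M.in1 a ha a' ha' hne θ hθ)
      · rcases hmem' a'' ha'' with h4 | h4
        · exact ⟨a, ha, a', ha', a'', h4, hne, h1.symm, h2.symm, h3⟩
        · exfalso
          obtain ⟨θ, hθ, hf⟩ := M.cross a ha a'' h4
          have hc : col a a'' a' := by
            unfold col at h3 ⊢
            linear_combination (-1) * h3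
          exact M.in1 a ha a' ha' hne θ hθ (fib_of_col hc hf h1.symm)
    obtain ⟨a, ha, a', ha', a'', ha'', g1, g2, g3, g4⟩ :=
      hthree N (fun b hb => (hmem b).mp hb) hm1
    obtain ⟨c, hc, c', hc', c'', hc'', k1, k2, k3, k4⟩ :=
      hthree N.symm (fun b hb => ((hmem b).mp hb).symm) hm2
    have hcol2 : ∀ x ∈ B₂, ∀ y ∈ B₂, ∀ z ∈ B₂, x ≠ y → x ≠ z → y ≠ z → col x y z :=
      fun x hx y hy z hz e1 e2 e3 =>
        N.col_of_three ha ha' ha'' g1 g2 g3 g4 hx hy hz e1 e2 e3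
    have hcol1 : ∀ x ∈ B₁, ∀ y ∈ B₁, ∀ z ∈ B₁, x ≠ y → x ≠ z → y ≠ z → col x y z :=
      fun x hx y hy z hz e1 e2 e3 =>
        N.symm.col_of_three hc hc' hc'' k1 k2 k3 k4 hx hy hz e1 e2 e3
    obtain ⟨x₀, y₀, α, γ, s₀, t₀, q1, q2, q3, q4, q5, q6⟩ := N.classify hn
      (fun b hb b' hb' => hx b (hm1 b hb) b' (hm1 b' hb'))
      (fun b hb b' hb' => hx b (hm2 b hb) b' (hm2 b' hb'))
      (fun b hb b' hb' he => N.ne b hb b' hb' (hx b (hm1 b hb) b' (hm2 b' hb') he))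
      hcol1 hcol2
    refine ⟨x₀, y₀, α, γ, s₀, t₀, q1, q2, q3, ?_, q6⟩
    intro b
    rw [hmem b, q4 b, q5 b]
    constructor
    · rintro (⟨ζ, hζ, h⟩ | ⟨ζ, hζ, h⟩)
      · exact ⟨ζ, hζ, Or.inl h⟩
      · exact ⟨ζ, hζ, Or.inr h⟩
    · rintro ⟨ζ, hζ, h | h⟩
      · exact Or.inl ⟨ζ, hζ, h⟩
      · exact Or.inr ⟨ζ, hζ, h⟩

end Run7.h321
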