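import Pool.Agent.Run7.h321.Kin2

set_option autoImplicit false

namespace Run7.h321

open Finset

theorem exists_generic (Z : Finset ℂ) (hZ : ∀ z ∈ Z, z ≠ 0) :
    ∃ c : ℂ, c ≠ 0 ∧ ∀ z ∈ Z, (c * z).re ≠ 0 := by
  classical
  obtain ⟨t, ht⟩ := Infinite.exists_notMem_finset (Z.image fun z => z.re / z.im)
  refine ⟨⟨1, t⟩, ?_, ?_⟩
  · intro h
    have := congrArg Complex.re h
    simp at this
  · intro z hz h
    rw [Complex.mul_re] at h
    simp only [one_mul] at h
    by_cases him : z.im = 0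
    · rw [him, mul_zero, sub_zero] at h
      exact hZ z hz (Complex.ext h him)
    · apply ht
      rw [mem_image]
      refine ⟨z, hz, ?_⟩
      field_simp
      linarith

/-- If through every point of `B`, in each of the finitely many directions of slope in `Θ`,
there passes a line with a second point of `B`, then `B` has more than `Θ.card` columns. -/
theorem card_slopes_lt_cols (B : Finset (ℂ × ℂ)) (hB : B.Nonempty) (Θ : Finset ℂ)
    (hp : ∀ θ ∈ Θ, ∀ b ∈ B, ∃ b' ∈ B, b' ≠ b ∧ b'.2 - θ * b'.1 = b.2 - θ * b.1) :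
    Θ.card + 1 ≤ (B.image Prod.fst).card := by
  classical
  -- generic `c`
  let V : Finset ℂ := (B.image Prod.snd) ∪ ((Θ ×ˢ B).image fun q => q.2.2 - q.1 * q.2.1)
  obtain ⟨c, hc0, hc⟩ := exists_generic (((V ×ˢ V).image fun q => q.1 - q.2).filter fun z => z ≠ 0)
    (by intro z hz; exact (mem_filter.mp hz).2)
  have hcV : ∀ v ∈ V, ∀ w ∈ V, (c * v).re = (c * w).re → v = w := by
    intro v hv w hw he
    by_contra hne
    apply hc (v - w)
    · rw [mem_filter, mem_image]
      exact ⟨⟨(v, w), mem_product.mpr ⟨hv, hw⟩, rfl⟩, sub_ne_zero.mpr hne⟩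
    · rw [mul_sub, Complex.sub_re, he, sub_self]
  let X : Finset ℂ := B.image Prod.fst
  obtain ⟨μ, hμ0, hμ⟩ := exists_generic
    ((((X ×ˢ X).image fun q => q.1 - q.2) ∪
      ((Θ ×ˢ Θ).image fun q => Complex.I * (starRingEnd ℂ) (c * (q.1 - q.2)))).filter
        fun z => z ≠ 0)
    (by intro z hz; exact (mem_filter.mp hz).2)
  have hμX : ∀ v ∈ X, ∀ w ∈ X, (μ * v).re = (μ * w).re → v = w := by
    intro v hv w hw he
    by_contra hne
    apply hμ (v - w)
    · rw [mem_filter, mem_union, mem_image]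
      exact ⟨Or.inl ⟨(v, w), mem_product.mpr ⟨hv, hw⟩, rfl⟩, sub_ne_zero.mpr hne⟩
    · rw [mul_sub, Complex.sub_re, he, sub_self]
  have hμΘ : ∀ v ∈ Θ, ∀ w ∈ Θ, (c * v / μ).im = (c * w / μ).im → v = w := by
    intro v hv w hw he
    by_contra hne
    apply hμ (Complex.I * (starRingEnd ℂ) (c * (v - w)))
    · rw [mem_filter, mem_union]
      refine ⟨Or.inr (mem_image.mpr ⟨(v, w), mem_product.mpr ⟨hv, hw⟩, rfl⟩), ?_⟩
      apply mul_ne_zero Complex.I_ne_zero
      rw [Ne, map_eq_zero]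
      exact mul_ne_zero hc0 (sub_ne_zero.mpr hne)
    · have h1 : (c * (v - w) / μ).im = 0 := by
        rw [mul_sub, sub_div, Complex.sub_im, he, sub_self]
      rw [Complex.div_im] at h1
      have hn : Complex.normSq μ ≠ 0 := by rwa [Ne, Complex.normSq_eq_zero]
      rw [← sub_div, div_eq_zero_iff] at h1
      rcases h1 with h1 | h1
      · rw [Complex.mul_re, Complex.mul_re, Complex.mul_im]
        simp only [Complex.I_re, Complex.I_im, Complex.conj_re, Complex.conj_im]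
        linarith
      · exact absurd h1 hn
  -- the columns sorted by real part
  let R : Finset ℝ := X.image fun x => (μ * x).re
  have hRX : R.card = X.card := by
    apply card_image_of_injOn
    intro v hv w hw he
    exact hμX v hv w hw he
  set m := R.card with hm
  have hRX' : X.card = m := hRX.symm
  have hXm : (B.image Prod.fst).card = m := hRX'
  let e : Fin m ↪o ℝ := R.orderEmbOfFin rfl
  have hmpos : 0 < m := by
    rw [← hXm, card_pos]
    exact hB.image _
  -- top point in each column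
  have htop : ∀ l : ℕ, ∃ b ∈ B, ∀ hl : l < m, (μ * b.1).re = e ⟨l, hl⟩ ∧
      ∀ b' ∈ B, (μ * b'.1).re = e ⟨l, hl⟩ → (c * b'.2).re ≤ (c * b.2).re := by
    intro l
    by_cases hl : l < m
    · have h1 : e ⟨l, hl⟩ ∈ R := Finset.orderEmbOfFin_mem _ _ _
      simp only [R, X, mem_image] at h1
      obtain ⟨x, ⟨b0, hb0, rfl⟩, hx⟩ := h1
      obtain ⟨b, hb, hmax⟩ := exists_max_image (B.filter fun b => (μ * b.1).re = e ⟨l, hl⟩)
        (fun b => (c * b.2).re) ⟨b0, by rw [mem_filter]; exact ⟨hb0, hx⟩⟩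
      simp only [mem_filter] at hb hmax
      exact ⟨b, hb.1, fun _ => ⟨hb.2, fun b' hb' hb'' => hmax b' ⟨hb', hb''⟩⟩⟩
    · obtain ⟨b, hb⟩ := hB
      exact ⟨b, hb, fun h => absurd h hl⟩
  choose T hTB hT using htop
  -- top points are determined
  have hcol : ∀ b ∈ B, ∃ l, ∃ hl : l < m, (μ * b.1).re = e ⟨l, hl⟩ := by
    intro b hb
    have h1 : (μ * b.1).re ∈ R := by
      simp only [R, X, mem_image]
      exact ⟨b.1, ⟨b, hb, rfl⟩, rfl⟩
    have h2 : (μ * b.1).re ∈ Set.range (R.orderEmbOfFin rfl) := by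
      rw [Finset.range_orderEmbOfFin]; exact_mod_cast h1
    obtain ⟨l, hl⟩ := h2
    exact ⟨l.1, l.2, hl.symm⟩
  have hVB : ∀ b ∈ B, b.2 ∈ V := fun b hb =>
    mem_union.mpr (Or.inl (mem_image.mpr ⟨b, hb, rfl⟩))
  have hVΘ : ∀ θ ∈ Θ, ∀ b ∈ B, b.2 - θ * b.1 ∈ V := fun θ hθ b hb =>
    mem_union.mpr (Or.inr (mem_image.mpr ⟨(θ, b), mem_product.mpr ⟨hθ, hb⟩, rfl⟩))
  have hXB : ∀ b ∈ B, b.1 ∈ X := fun b hb => mem_image.mpr ⟨b, hb, rfl⟩
  -- for each slope, the extremal line
  have hext : ∀ θ : {θ // θ ∈ Θ}, ∃ i j : ℕ, i < j ∧ j < m ∧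
      (∀ b ∈ B, (c * (b.2 - θ.1 * b.1)).re ≤ (c * ((T i).2 - θ.1 * (T i).1)).re) ∧
      (T i).2 - θ.1 * (T i).1 = (T j).2 - θ.1 * (T j).1 := by
    rintro ⟨θ, hθ⟩
    obtain ⟨b, hb, hmax⟩ := exists_max_image B (fun b => (c * (b.2 - θ * b.1)).re) hB
    obtain ⟨b', hb', hne, hline⟩ := hp θ hθ b hb
    have hmax' : ∀ a ∈ B, (c * (a.2 - θ * a.1)).re ≤ (c * (b'.2 - θ * b'.1)).re := by
      rw [hline]; exact hmax
    have htopeq : ∀ a ∈ B, (∀ a' ∈ B, (c * (a'.2 - θ * a'.1)).re ≤ (c * (a.2 - θ * a.1)).re) →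
        ∃ l, l < m ∧ T l = a := by
      intro a ha hamax
      obtain ⟨l, hl, hal⟩ := hcol a ha
      have h1 := (hT l hl).1
      have h2 := (hT l hl).2 a ha hal
      have h3 : (T l).1 = a.1 := hμX _ (hXB _ (hTB l)) _ (hXB _ ha) (h1.trans hal.symm)
      have h4 := hamax (T l) (hTB l)
      rw [h3] at h4
      have h5 : (c * (T l).2).re = (c * a.2).re := by
        rw [mul_sub, mul_sub, Complex.sub_re, Complex.sub_re] at h4
        linarith
      exact ⟨l, hl, Prod.ext h3 (hcV _ (hVB _ (hTB l)) _ (hVB _ ha) h5)⟩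
    obtain ⟨l, hl, hTl⟩ := htopeq b hb hmax
    obtain ⟨l', hl', hTl'⟩ := htopeq b' hb' hmax'
    have hll : l ≠ l' := by
      rintro rfl
      exact hne (hTl'.symm.trans hTl)
    rcases lt_or_gt_of_ne hll with h | h
    · refine ⟨l, l', h, hl', ?_, ?_⟩
      · rw [hTl]; exact hmax
      · rw [hTl, hTl']; exact hline.symm
    · refine ⟨l', l, h, hl, ?_, ?_⟩
      · rw [hTl']; exact hmax'
      · rw [hTl, hTl']; exact hline
  choose I J hIJ hJm hImax hIJeq using hext
  -- formulas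
  have hre : ∀ (θ : ℂ) (b : ℂ × ℂ), (c * (b.2 - θ * b.1)).re
      = (c * b.2).re + (c * θ / μ).im * (μ * b.1).im - (c * θ / μ).re * (μ * b.1).re := by
    intro θ b
    have : c * (b.2 - θ * b.1) = c * b.2 - (c * θ / μ) * (μ * b.1) := by field_simp
    rw [this, Complex.sub_re, Complex.mul_re (c * θ / μ)]
    ring
  have him : ∀ (θ : ℂ) (b : ℂ × ℂ), (c * (b.2 - θ * b.1)).im
      = (c * b.2).im - (c * θ / μ).im * (μ * b.1).re - (c * θ / μ).re * (μ * b.1).im := by
    intro θ b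
    have : c * (b.2 - θ * b.1) = c * b.2 - (c * θ / μ) * (μ * b.1) := by field_simp
    rw [this, Complex.sub_im, Complex.mul_im (c * θ / μ)]
    ring
  have K : Kin m (fun l => (μ * (T l).1).re) (fun l => (μ * (T l).1).im)
      (fun l => (c * (T l).2).re) (fun l => (c * (T l).2).im) {θ // θ ∈ Θ}
      (fun θ => (c * θ.1 / μ).re) (fun θ => (c * θ.1 / μ).im)
      (fun θ => (c * ((T (I θ)).2 - θ.1 * (T (I θ)).1)).re)
      (fun θ => (c * ((T (I θ)).2 - θ.1 * (T (I θ)).1)).im) I J := by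
    constructor
    · intro a b hab hb
      rw [(hT a (hab.trans hb)).1, (hT b hb).1]
      exact e.strictMono (by simpa using hab)
    · exact hIJ
    · exact hJm
    · intro θ l hl
      have h1 := hImax θ (T l) (hTB l)
      have h2 := hre θ.1 (T l)
      linarith
    · intro θ
      have h2 := hre θ.1 (T (I θ))
      linarith
    · intro θ
      have h2 := hre θ.1 (T (J θ))
      rw [hIJeq θ]
      linarith
    · intro θ l hl heq
      have h2 := hre θ.1 (T l)
      have h3 : (c * ((T l).2 - θ.1 * (T l).1)).re = (c * ((T (I θ)).2 - θ.1 * (T (I θ)).1)).re := by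
        linarith
      have h4 := hcV _ (hVΘ θ.1 θ.2 _ (hTB l)) _ (hVΘ θ.1 θ.2 _ (hTB (I θ))) h3
      rw [← h4]
      have h5 := him θ.1 (T l)
      linarith
    · intro θ θ' he
      exact Subtype.ext (hμΘ _ θ.2 _ θ'.2 he)
  have hfin := K.card_le
  rw [Fintype.card_coe] at hfin
  rw [hXm]
  omega

end Run7.h321
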