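import Mathlib

set_option autoImplicit false

namespace Run7.h321

/-- Condition in direction `θ` on a subset `T` of the affine plane over `ZMod 3`. -/
def dirOK (T : ZMod 3 × ZMod 3 → Bool) (θ : ZMod 3) : Bool :=
  (decide (∀ u : ZMod 3 × ZMod 3, T u = true → T (u.1 + 1, u.2 + θ) = true →
      T (u.1 + 2, u.2 + 2 * θ) = true)) ||
  (decide (∀ u : ZMod 3 × ZMod 3, T u = true →
      (T (u.1 + 1, u.2 + θ) = true ∨ T (u.1 + 2, u.2 + 2 * θ) = true)))

def condT (T : ZMod 3 × ZMod 3 → Bool) : Bool :=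
  T (0, 0) && T (1, 0) && (T (0, 1) || T (1, 1) || T (2, 1)) &&
    dirOK T 0 && dirOK T 1 && dirOK T 2

def conclT (T : ZMod 3 × ZMod 3 → Bool) : Bool :=
  decide (∀ t, T t = true) ||
  decide (∃ m : ZMod 3 × ZMod 3, T m = false ∧
    ((∀ t : ZMod 3 × ZMod 3, t.1 ≠ m.1 → T t = true) ∨
      ∃ s : ZMod 3, ∀ t : ZMod 3 × ZMod 3, t.2 ≠ m.2 + s * (t.1 - m.1) → T t = true))

/-- Decode nine bits to a subset. -/
def tb (b0 b1 b2 b3 b4 b5 b6 b7 b8 : Bool) (t : ZMod 3 × ZMod 3) : Bool :=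
  if t.1 = 0 then (if t.2 = 0 then b0 else if t.2 = 1 then b1 else b2)
  else if t.1 = 1 then (if t.2 = 0 then b3 else if t.2 = 1 then b4 else b5)
  else (if t.2 = 0 then b6 else if t.2 = 1 then b7 else b8)

theorem comb_code : ∀ b0 b1 b2 b3 b4 b5 b6 b7 b8 : Bool,
    condT (tb b0 b1 b2 b3 b4 b5 b6 b7 b8) = true →
    conclT (tb b0 b1 b2 b3 b4 b5 b6 b7 b8) = true := by
  decide +kernel

theorem tb_eq (T : ZMod 3 × ZMod 3 → Bool) :
    tb (T (0, 0)) (T (0, 1)) (T (0, 2)) (T (1, 0)) (T (1, 1)) (T (1, 2))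
      (T (2, 0)) (T (2, 1)) (T (2, 2)) = T := by
  funext t
  obtain ⟨i, j⟩ := t
  fin_cases i <;> fin_cases j <;> rfl

theorem comb_bool (T : ZMod 3 × ZMod 3 → Bool) (h : condT T = true) : conclT T = true := by
  have := comb_code (T (0, 0)) (T (0, 1)) (T (0, 2)) (T (1, 0)) (T (1, 1)) (T (1, 2))
      (T (2, 0)) (T (2, 1)) (T (2, 2))
  rw [tb_eq] at this
  exact this h

/-- Classification of the admissible subsets of the affine plane of order three. -/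
theorem comb_prop (T : ZMod 3 × ZMod 3 → Prop)
    (h0 : T (0, 0)) (h1 : T (1, 0)) (h2 : ∃ x, T (x, 1))
    (hdir : ∀ θ : ZMod 3,
      (∀ u : ZMod 3 × ZMod 3, T u → T (u.1 + 1, u.2 + θ) → T (u.1 + 2, u.2 + 2 * θ)) ∨
      (∀ u : ZMod 3 × ZMod 3, T u →
        (T (u.1 + 1, u.2 + θ) ∨ T (u.1 + 2, u.2 + 2 * θ)))) :
    (∀ t, T t) ∨ ∃ m : ZMod 3 × ZMod 3, ¬ T m ∧
      ((∀ t : ZMod 3 × ZMod 3, t.1 ≠ m.1 → T t) ∨
        ∃ s : ZMod 3, ∀ t : ZMod 3 × ZMod 3, t.2 ≠ m.2 + s * (t.1 - m.1) → T t) := by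
  classical
  let T' : ZMod 3 × ZMod 3 → Bool := fun t => decide (T t)
  have hT' : ∀ t, T' t = true ↔ T t := fun t => by simp [T']
  have hT'' : ∀ t, T' t = false ↔ ¬ T t := fun t => by simp [T']
  have hc : condT T' = true := by
    have hd : ∀ θ, dirOK T' θ = true := by
      intro θ
      unfold dirOK
      rw [Bool.or_eq_true, decide_eq_true_iff, decide_eq_true_iff]
      simpa only [hT'] using hdir θ
    unfold condT
    simp only [Bool.and_eq_true, Bool.or_eq_true, hT']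
    refine ⟨⟨⟨⟨⟨h0, h1⟩, ?_⟩, hd 0⟩, hd 1⟩, hd 2⟩
    obtain ⟨x, hx⟩ := h2
    fin_cases x
    · exact Or.inl (Or.inl hx)
    · exact Or.inl (Or.inr hx)
    · exact Or.inr hx
  have := comb_bool T' hc
  unfold conclT at this
  rw [Bool.or_eq_true, decide_eq_true_iff, decide_eq_true_iff] at this
  simpa only [hT', hT''] using this

end Run7.h321
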