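import Mathlib

set_option autoImplicit false

namespace Run7.h321.Two

open Finset

/-- The parity relation on a line with three points. -/
def ln (p q r : ZMod 2) : Prop := (p = 1 → q = r) ∧ (q = 1 → p = r) ∧ (r = 1 → p = q)

instance (p q r : ZMod 2) : Decidable (ln p q r) := by unfold ln; infer_instance

/-- The parity relations on the seven lines of the Fano plane. -/
def Fano (e100 e010 e001 e110 e101 e011 e111 : ZMod 2) : Prop :=
  ln e100 e010 e110 ∧ ln e100 e001 e101 ∧ ln e010 e001 e011 ∧ ln e100 e011 e111 ∧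
    ln e010 e101 e111 ∧ ln e001 e110 e111 ∧ ln e110 e101 e011

instance (a b c d e f g : ZMod 2) : Decidable (Fano a b c d e f g) := by
  unfold Fano; infer_instance

theorem fano1 : ∀ b c d e f g : ZMod 2, Fano 1 b c d e f g → 1 + d + e + g = 1 →
    b = 0 ∧ c = 0 ∧ d = 0 ∧ e = 0 ∧ f = 0 ∧ g = 0 := by decide

theorem fano2 : ∀ b d e f g : ZMod 2, Fano 1 b 0 d e f g → 1 + e = 1 → d + g = 0 → b + f = 0 →
    b = 0 ∧ d = 0 ∧ e = 0 ∧ f = 0 ∧ g = 0 := by decide

theorem fano3 : ∀ c d e f g : ZMod 2, Fano 1 1 c d e f g → d = 1 := by decide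

section

variable {ι : Type} [Fintype ι]

/-- Parity of the number of indices with a property. -/
noncomputable def par (P : ι → Prop) : ZMod 2 := by
  classical exact ((univ.filter P).card : ZMod 2)

theorem par_congr {P Q : ι → Prop} (h : ∀ t, P t ↔ Q t) : par P = par Q := by
  have : P = Q := funext fun t => propext (h t)
  rw [this]

theorem par_add {P Q R : ι → Prop} (h : ∀ t, P t ↔ Q t ∨ R t) (hd : ∀ t, Q t → ¬ R t) :
    par P = par Q + par R := by
  classical
  have : P = fun t => Q t ∨ R t := funext fun t => propext (h t)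
  rw [this]
  unfold par
  rw [← Nat.cast_add, ← card_union_of_disjoint]
  · congr 2
    ext t
    simp
  · rw [disjoint_left]
    intro t h1 h2
    simp only [mem_filter, mem_univ, true_and] at h1 h2
    exact hd t h1 h2

theorem par_single {P : ι → Prop} (h : ι) (hP : ∀ t, P t ↔ t = h) : par P = 1 := by
  classical
  unfold par
  have : univ.filter P = {h} := by
    ext t
    simp [hP t]
  rw [this]
  simp

theorem par_exists {P : ι → Prop} (hP : par P = 1) : ∃ t, P t := by
  classical
  by_contra hcon
  push Not at hcon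
  unfold par at hP
  rw [filter_false_of_mem (fun t _ => hcon t)] at hP
  simp at hP

variable (A B C : ι → ℤ)

/-- The seven classes at the vertex `(i, j)`. -/
def k100 (i j : ℤ) (t : ι) : Prop := A t < B t - i ∧ A t < C t - j
def k010 (i j : ℤ) (t : ι) : Prop := B t - i < A t ∧ B t - i < C t - j
def k001 (i j : ℤ) (t : ι) : Prop := C t - j < A t ∧ C t - j < B t - i
def k110 (i j : ℤ) (t : ι) : Prop := A t = B t - i ∧ A t < C t - j
def k101 (i j : ℤ) (t : ι) : Prop := A t = C t - j ∧ A t < B t - i
def k011 (i j : ℤ) (t : ι) : Prop := B t - i = C t - j ∧ B t - i < A t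
def k111 (i j : ℤ) (t : ι) : Prop := A t = B t - i ∧ A t = C t - j

/-- The parity relations at the vertex `(i, j)`. -/
def FanoAt (i j : ℤ) : Prop :=
  Fano (par (k100 A B C i j)) (par (k010 A B C i j)) (par (k001 A B C i j))
    (par (k110 A B C i j)) (par (k101 A B C i j)) (par (k011 A B C i j)) (par (k111 A B C i j))

/-- Only the class of the base point is odd. -/
def Only (i j : ℤ) : Prop :=
  par (k100 A B C i j) = 1 ∧ par (k010 A B C i j) = 0 ∧ par (k001 A B C i j) = 0 ∧
    par (k110 A B C i j) = 0 ∧ par (k101 A B C i j) = 0 ∧ par (k011 A B C i j) = 0 ∧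
    par (k111 A B C i j) = 0

variable {A B C}

theorem only_diag (i : ℤ) (hf : FanoAt A B C i i)
    (h1 : par (fun t => A t + i ≤ B t ∧ A t + i ≤ C t) = 1)
    (h2 : par (fun t => A t + (i + 1) ≤ B t ∧ A t + (i + 1) ≤ C t) = 1) :
    Only A B C i i := by
  have e100 : par (k100 A B C i i) = 1 := by
    rw [← h2]
    apply par_congr
    intro t; unfold k100; constructor <;> rintro ⟨_, _⟩ <;> constructor <;> omega
  have esum : par (k100 A B C i i) + par (k110 A B C i i) + par (k101 A B C i i)
      + par (k111 A B C i i) = 1 := by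
    rw [← h1]
    symm
    rw [par_add (Q := fun t => k100 A B C i i t ∨ k110 A B C i i t ∨ k101 A B C i i t)
      (R := k111 A B C i i), par_add (Q := fun t => k100 A B C i i t ∨ k110 A B C i i t)
      (R := k101 A B C i i), par_add (Q := k100 A B C i i) (R := k110 A B C i i)]
    · intro t; exact Iff.rfl
    · intro t; unfold k100 k110; omega
    · intro t; tauto
    · intro t; unfold k100 k110 k101; omega
    · intro t; unfold k100 k110 k101 k111; omega
    · intro t; unfold k100 k110 k101 k111; omega
  unfold FanoAt at hf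
  rw [e100] at hf esum
  obtain ⟨a, b, c, d, e, f⟩ := fano1 _ _ _ _ _ _ hf esum
  exact ⟨e100, a, b, c, d, e, f⟩

theorem only_step (i j : ℤ) (hf : FanoAt A B C i (j + 1)) (h1 : Only A B C i j)
    (h2 : Only A B C (i + 1) (j + 1)) : Only A B C i (j + 1) := by
  obtain ⟨a1, a2, a3, a4, a5, a6, a7⟩ := h1
  obtain ⟨b1, b2, b3, b4, b5, b6, b7⟩ := h2
  have e001 : par (k001 A B C i (j + 1)) = 0 := by
    have : par (k001 A B C i (j + 1)) = par (k001 A B C i j) + par (k101 A B C i j)
        + par (k011 A B C i j) + par (k111 A B C i j) := by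
      rw [par_add (P := k001 A B C i (j + 1))
        (Q := fun t => k001 A B C i j t ∨ k101 A B C i j t ∨ k011 A B C i j t)
        (R := k111 A B C i j), par_add (Q := fun t => k001 A B C i j t ∨ k101 A B C i j t)
        (R := k011 A B C i j), par_add (Q := k001 A B C i j) (R := k101 A B C i j)]
      · intro t; exact Iff.rfl
      · intro t; unfold k001 k101; omega
      · intro t; tauto
      · intro t; unfold k001 k101 k011; omega
      · intro t; unfold k001 k101 k011 k111; omega
      · intro t; unfold k001 k101 k011 k111; omega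
    rw [this, a3, a5, a6, a7]; rfl
  have s1 : par (k100 A B C i (j + 1)) + par (k101 A B C i (j + 1)) = 1 := by
    rw [← a1]
    symm
    apply par_add
    · intro t; unfold k100 k101; omega
    · intro t; unfold k100 k101; omega
  have s2 : par (k110 A B C i (j + 1)) + par (k111 A B C i (j + 1)) = 0 := by
    rw [← a4]
    symm
    apply par_add
    · intro t; unfold k110 k111; omega
    · intro t; unfold k110 k111; omega
  have s3 : par (k010 A B C i (j + 1)) + par (k011 A B C i (j + 1)) = 0 := by
    rw [← a2]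
    symm
    apply par_add
    · intro t; unfold k010 k011; omega
    · intro t; unfold k010 k011; omega
  have e100 : par (k100 A B C i (j + 1)) = 1 := by
    have : par (k100 A B C i (j + 1)) = par (k100 A B C (i + 1) (j + 1))
        + par (k110 A B C (i + 1) (j + 1)) := by
      apply par_add
      · intro t; unfold k100 k110; omega
      · intro t; unfold k100 k110; omega
    rw [this, b1, b4]; rfl
  unfold FanoAt at hf
  rw [e100] at s1
  rw [e100, e001] at hf
  obtain ⟨a, b, c, d, e⟩ := fano2 _ _ _ _ _ hf s1 s2 s3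
  exact ⟨e100, a, e001, b, c, d, e⟩

theorem only_all (J : ℕ) (hfl : ∀ i j : ℕ, i ≤ j → j ≤ J → FanoAt A B C i j)
    (hball : ∀ k : ℕ, 1 ≤ k → k ≤ J + 1 → par (fun t => A t + k ≤ B t ∧ A t + k ≤ C t) = 1)
    (d : ℕ) : ∀ i : ℕ, 1 ≤ i → i + d ≤ J → Only A B C (i : ℤ) ((i + d : ℕ) : ℤ) := by
  induction d with
  | zero =>
    intro i h1 h2
    rw [add_zero] at h2 ⊢
    apply only_diag _ (hfl i i le_rfl h2) (hball i h1 (by omega))
    have := hball (i + 1) (by omega) (by omega)
    push_cast at this
    exact this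
  | succ d ih =>
    intro i h1 h2
    have q1 := ih i h1 (by omega)
    have q2 := ih (i + 1) (by omega) (by omega)
    have q3 := hfl i (i + d + 1) (by omega) (by omega)
    have e1 : ((i + (d + 1) : ℕ) : ℤ) = ((i + d : ℕ) : ℤ) + 1 := by push_cast; ring
    have e2 : ((i + 1 + d : ℕ) : ℤ) = ((i + d : ℕ) : ℤ) + 1 := by push_cast; ring
    have e3 : ((i + 1 : ℕ) : ℤ) = (i : ℤ) + 1 := by push_cast; ring
    have e4 : ((i + d + 1 : ℕ) : ℤ) = ((i + d : ℕ) : ℤ) + 1 := by push_cast; ring
    rw [e1]
    rw [e3, e2] at q2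
    rw [e4] at q3
    exact only_step _ _ q3 q1 q2

/-- The second point of a pair lies very close to the line. -/
theorem close_of_fano (J : ℕ) (hJ : 1 ≤ J)
    (hfl : ∀ i j : ℕ, i ≤ j → j ≤ J → FanoAt A B C i j)
    (hball : ∀ k : ℕ, 1 ≤ k → k ≤ J + 1 → par (fun t => A t + k ≤ B t ∧ A t + k ≤ C t) = 1)
    {h h' : ι} (hh1 : B h < A h) (hh2 : B h + J < C h)
    (hcl : ∀ t, B t < A t → B t < C t → t = h)
    (hcl' : ∀ t, A t = B t → A t < C t → t = h') : A h' + J < C h' := by
  have Q := only_all J hfl hball (J - 1) 1 le_rfl (by omega)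
  rw [show 1 + (J - 1) = J by omega] at Q
  obtain ⟨b1, b2, b3, b4, b5, b6, b7⟩ := Q
  have e100 : par (k100 A B C 0 J) = 1 := by
    have : par (k100 A B C 0 J) = par (k100 A B C ((1 : ℕ) : ℤ) J)
        + par (k110 A B C ((1 : ℕ) : ℤ) J) := by
      apply par_add
      · intro t; unfold k100 k110; push_cast; omega
      · intro t; unfold k100 k110; push_cast; omega
    rw [this, b1, b4]; rfl
  have e010 : par (k010 A B C 0 J) = 1 := by
    apply par_single h
    intro t
    unfold k010
    constructor
    · rintro ⟨h1, h2⟩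
      exact hcl t (by omega) (by omega)
    · rintro rfl
      constructor <;> omega
  have hf := hfl 0 J (by omega) le_rfl
  unfold FanoAt at hf
  push_cast at hf
  rw [e100, e010] at hf
  obtain ⟨t, ht⟩ := par_exists (fano3 _ _ _ _ _ hf)
  unfold k110 at ht
  have := hcl' t (by omega) (by omega)
  rw [this] at ht
  omega

end

end Run7.h321.Two
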