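import Pool.Agent.Run7.h321.Flat
import Pool.Agent.Run7.h321.Steps

set_option autoImplicit false

namespace Run7.h321.Two

open Finset
open Run7.h321 (det3)

section

variable {K : Type*} [Field K] {Γ : Type*} [LinearOrderedCommGroupWithZero Γ]

/-- A discrete valuation with residue field of two elements. -/
structure DV (v : Valuation K Γ) (w : K) : Prop where
  ne : w ≠ 0
  lt : v w < 1
  pow : ∀ x : K, x ≠ 0 → ∃ n : ℤ, v x = v w ^ n
  two : ∀ x y : K, x ≠ 0 → v x = v y → v (x + y) < v x

variable {v : Valuation K Γ} {w : K}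

theorem DV.pos (D : DV v w) : 0 < v w := zero_lt_iff.mpr ((Valuation.ne_zero_iff v).mpr D.ne)

theorem DV.zpow_le (D : DV v w) (m n : ℤ) : v w ^ m ≤ v w ^ n ↔ n ≤ m := by
  constructor
  · intro h
    by_contra hlt
    push Not at hlt
    have : v w ^ n < v w ^ m := zpow_lt_zpow_right_of_lt_one₀ D.pos D.lt hlt
    exact absurd h (not_le.mpr this)
  · intro h
    exact zpow_le_zpow_right_of_le_one₀ D.pos D.lt.le h

variable {ι : Type} [Fintype ι] [DecidableEq ι] [DecidableEq K] {X : ι → Fin 3 → K}

/-- Integer levels of the coordinates. -/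
theorem exists_levels (D : DV v w) (X : ι → Fin 3 → K) (J : ℕ) :
    ∃ E : ι → Fin 3 → ℤ, ∀ t, ∀ k m : Fin 3, ∀ r : ℤ, |r| ≤ J + 1 → (X t k ≠ 0 ∨ X t m ≠ 0) →
      (v (X t k) ≤ v w ^ r * v (X t m) ↔ E t m + r ≤ E t k) := by
  have hord : ∀ t k, ∃ n : ℤ, X t k ≠ 0 → v (X t k) = v w ^ n := by
    intro t k
    by_cases h : X t k = 0
    · exact ⟨0, fun h' => absurd h h'⟩
    · obtain ⟨n, hn⟩ := D.pow _ h
      exact ⟨n, fun _ => hn⟩
  choose o ho using hord
  obtain ⟨M, hM⟩ : ∃ M : ℤ, ∀ t k, |o t k| ≤ M := by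
    obtain ⟨M, hM⟩ := (Set.finite_range fun q : ι × Fin 3 => |o q.1 q.2|).bddAbove
    exact ⟨M, fun t k => hM ⟨(t, k), rfl⟩⟩
  let L : ℤ := M + J + 2
  refine ⟨fun t k => if X t k = 0 then L else o t k, ?_⟩
  intro t k m r hr hne
  have hk := hM t k
  have hm := hM t m
  rw [abs_le] at hk hm hr
  simp only
  by_cases h1 : X t k = 0
  · have h2 : X t m ≠ 0 := by
      rcases hne with h | h
      · exact absurd h1 h
      · exact h
    rw [if_pos h1, if_neg h2, h1, map_zero]
    constructor
    · intro _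
      simp only [L]
      omega
    · intro _
      exact zero_le
  · rw [if_neg h1]
    by_cases h2 : X t m = 0
    · rw [if_pos h2, h2, map_zero, mul_zero]
      constructor
      · intro h
        have := le_antisymm h zero_le
        exact absurd ((Valuation.zero_iff v).mp this) h1
      · intro h
        simp only [L] at h
        omega
    · rw [if_neg h2, ho t k h1, ho t m h2, ← zpow_add₀ D.pos.ne', D.zpow_le]
      constructor <;> intro h <;> omega

/-- Rescaling the coordinates. -/
theorem Sys.scale (S : Sys X) {b c : K} (hb : b ≠ 0) (hc : c ≠ 0) :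
    Sys (fun t => ![X t 0, X t 1 / b, X t 2 / c]) := by
  constructor
  · intro i
    obtain ⟨k, hk⟩ := S.nz i
    refine ⟨k, ?_⟩
    fin_cases k
    · exact hk
    · exact div_ne_zero hk hb
    · exact div_ne_zero hk hc
  · intro i j hij h
    apply S.nc i j hij
    obtain ⟨h0, h1, h2⟩ := h
    simp only [Matrix.cons_val_zero, Matrix.cons_val_one, Matrix.cons_val] at h0 h1 h2
    refine ⟨?_, ?_, ?_⟩
    · have : X i 1 * X j 2 - X i 2 * X j 1
          = (b * c) * (X i 1 / b * (X j 2 / c) - X i 2 / c * (X j 1 / b)) := by field_simp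
      rw [this, h0, mul_zero]
    · have : X i 2 * X j 0 - X i 0 * X j 2
          = c * (X i 2 / c * X j 0 - X i 0 * (X j 2 / c)) := by field_simp
      rw [this, h1, mul_zero]
    · have : X i 0 * X j 1 - X i 1 * X j 0
          = b * (X i 0 * (X j 1 / b) - X i 1 / b * X j 0) := by field_simp
      rw [this, h2, mul_zero]
  · intro i j hij
    have h := S.odd i j hij
    have e : (univ.filter fun k => det3 ![X i 0, X i 1 / b, X i 2 / c]
        ![X j 0, X j 1 / b, X j 2 / c] ![X k 0, X k 1 / b, X k 2 / c] = 0)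
        = univ.filter fun k => det3 (X i) (X j) (X k) = 0 := by
      ext k
      simp only [mem_filter, mem_univ, true_and]
      have : det3 ![X i 0, X i 1 / b, X i 2 / c] ![X j 0, X j 1 / b, X j 2 / c]
          ![X k 0, X k 1 / b, X k 2 / c] = det3 (X i) (X j) (X k) / (b * c) := by
        unfold det3
        simp only [Matrix.cons_val_zero, Matrix.cons_val_one, Matrix.cons_val]
        field_simp
      rw [this, div_eq_zero_iff]
      constructor
      · rintro (h | h)
        · exact h
        · exact absurd h (mul_ne_zero hb hc)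
      · intro h; exact Or.inl h
    rw [e]
    exact h

theorem ln_of_flat (D : DV v w) (S : Sys X) {P Q R : Fin 3 → Bool} (hR : R = px P Q)
    (hPQ : P ≠ Q) (hP : ∃ i, P i = true) (hQ : ∃ i, Q i = true) (hPR : P ≠ R) (hQR : Q ≠ R) :
    ln ((cls v X P).card : ZMod 2) ((cls v X Q).card : ZMod 2) ((cls v X R).card : ZMod 2) := by
  have e1 : ∀ a b : ZMod 2, a + b = 0 → a = b := by decide
  have key : ∀ {a b : ℕ}, Even (a + b) → (a : ZMod 2) = b := by
    intro a b h
    apply e1
    rw [← Nat.cast_add, ZMod.natCast_eq_zero_iff_even]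
    exact h
  have hodd : ∀ {a : ℕ}, (a : ZMod 2) = 1 → Odd a := by
    intro a h
    rwa [ZMod.natCast_eq_one_iff_odd] at h
  refine ⟨?_, ?_, ?_⟩
  · intro h
    have := S.flat D.two (p := Q) (q := P) hPQ.symm hQ (hodd h)
    rw [px_comm, ← hR] at this
    exact key this
  · intro h
    have := S.flat D.two (p := P) (q := Q) hPQ hP (hodd h)
    rw [← hR] at this
    exact key this
  · intro h
    have := S.flat D.two (p := P) (q := R) hPR hP (hodd h)
    rw [hR, px_comm P Q, px_px] at this
    exact key this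

omit [Fintype ι] [DecidableEq ι] [DecidableEq K] in
/-- Patterns in terms of levels. -/
theorem pat_levels (D : DV v w) {J : ℕ} {E : ι → Fin 3 → ℤ}
    (hE : ∀ t, ∀ k m : Fin 3, ∀ r : ℤ, |r| ≤ J + 1 → (X t k ≠ 0 ∨ X t m ≠ 0) →
      (v (X t k) ≤ v w ^ r * v (X t m) ↔ E t m + r ≤ E t k))
    {t : ι} (hnz : ∃ k, X t k ≠ 0) {i j : ℕ} (hij : i ≤ j) (hj : j ≤ J) (m : Fin 3) :
    pat v ![X t 0, X t 1 / w ^ i, X t 2 / w ^ j] m = true ↔
      ∀ k, E t m - ![(0 : ℤ), i, j] m ≤ E t k - ![(0 : ℤ), i, j] k := by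
  have hval : ∀ k, v (![X t 0, X t 1 / w ^ i, X t 2 / w ^ j] k)
      = v (X t k) * v w ^ (- ![(0 : ℤ), i, j] k) := by
    intro k
    fin_cases k
    · simp
    · simp [div_eq_mul_inv]
    · simp [div_eq_mul_inv]
  have hs : ∀ k m : Fin 3, |![(0 : ℤ), i, j] k - ![(0 : ℤ), i, j] m| ≤ J + 1 := by
    intro k m
    rw [abs_le]
    fin_cases k <;> fin_cases m <;> simp <;> omega
  have hcmp : ∀ k m : Fin 3, (X t k ≠ 0 ∨ X t m ≠ 0) →
      (v (![X t 0, X t 1 / w ^ i, X t 2 / w ^ j] k) ≤ v (![X t 0, X t 1 / w ^ i, X t 2 / w ^ j] m)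
        ↔ E t m - ![(0 : ℤ), i, j] m ≤ E t k - ![(0 : ℤ), i, j] k) := by
    intro k m hne
    rw [hval, hval]
    have h1 := hE t k m _ (hs k m) hne
    have hp : 0 < v w ^ (![(0 : ℤ), i, j] k) := zpow_pos D.pos _
    have e : v (X t k) * v w ^ (-![(0 : ℤ), i, j] k) ≤ v (X t m) * v w ^ (-![(0 : ℤ), i, j] m) ↔
        v (X t k) ≤ v w ^ (![(0 : ℤ), i, j] k - ![(0 : ℤ), i, j] m) * v (X t m) := by
      rw [zpow_neg, ← div_eq_mul_inv, div_le_iff₀ hp, sub_eq_add_neg, zpow_add₀ D.pos.ne']
      rw [mul_assoc (v (X t m)), mul_comm (v (X t m)), mul_comm (v w ^ (-![(0 : ℤ), i, j] m))]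
    rw [e, h1]
    constructor <;> intro h <;> omega
  rw [pat_true]
  by_cases hm : X t m = 0
  · obtain ⟨k, hk⟩ := hnz
    have h1 := hcmp k m (Or.inl hk)
    constructor
    · intro h
      exfalso
      have h2 := h k
      have h3 : v (![X t 0, X t 1 / w ^ i, X t 2 / w ^ j] m) = 0 := by
        rw [hval, hm, map_zero, zero_mul]
      rw [h3, hval] at h2
      have h4 := le_antisymm h2 zero_le
      rcases mul_eq_zero.mp h4 with h5 | h5
      · exact hk ((Valuation.zero_iff v).mp h5)
      · exact (zpow_pos D.pos _).ne' h5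
    · intro h
      exfalso
      have h2 := h1.mpr (h k)
      have h3 : v (![X t 0, X t 1 / w ^ i, X t 2 / w ^ j] m) = 0 := by
        rw [hval, hm, map_zero, zero_mul]
      rw [h3, hval] at h2
      have h4 := le_antisymm h2 zero_le
      rcases mul_eq_zero.mp h4 with h5 | h5
      · exact hk ((Valuation.zero_iff v).mp h5)
      · exact (zpow_pos D.pos _).ne' h5
  · constructor
    · intro h k
      exact (hcmp k m (Or.inr hm)).mp (h k)
    · intro h k
      exact (hcmp k m (Or.inr hm)).mpr (h k)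

theorem fanoAt (D : DV v w) (S : Sys X) {J : ℕ} {E : ι → Fin 3 → ℤ}
    (hE : ∀ t, ∀ k m : Fin 3, ∀ r : ℤ, |r| ≤ J + 1 → (X t k ≠ 0 ∨ X t m ≠ 0) →
      (v (X t k) ≤ v w ^ r * v (X t m) ↔ E t m + r ≤ E t k))
    {i j : ℕ} (hij : i ≤ j) (hj : j ≤ J) :
    FanoAt (fun t => E t 0) (fun t => E t 1) (fun t => E t 2) i j := by
  set Y : ι → Fin 3 → K := fun t => ![X t 0, X t 1 / w ^ i, X t 2 / w ^ j] with hY
  have SY : Sys Y := S.scale (pow_ne_zero i D.ne) (pow_ne_zero j D.ne)
  have hp : ∀ t m, pat v (Y t) m = true ↔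
      ∀ k, E t m - ![(0 : ℤ), i, j] m ≤ E t k - ![(0 : ℤ), i, j] k :=
    fun t m => pat_levels D hE (S.nz t) hij hj m
  have hp0 : ∀ t, pat v (Y t) 0 = true ↔ (E t 0 ≤ E t 1 - i ∧ E t 0 ≤ E t 2 - j) := by
    intro t
    rw [hp]
    constructor
    · intro h
      have h1 := h 1
      have h2 := h 2
      simp at h1 h2
      exact ⟨h1, h2⟩
    · rintro ⟨h1, h2⟩ k
      fin_cases k <;> simp <;> assumption
  have hp1 : ∀ t, pat v (Y t) 1 = true ↔ (E t 1 - i ≤ E t 0 ∧ E t 1 - i ≤ E t 2 - j) := by
    intro t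
    rw [hp]
    constructor
    · intro h
      have h1 := h 0
      have h2 := h 2
      simp at h1 h2
      constructor <;> omega
    · rintro ⟨h1, h2⟩ k
      fin_cases k <;> simp <;> omega
  have hp2 : ∀ t, pat v (Y t) 2 = true ↔ (E t 2 - j ≤ E t 0 ∧ E t 2 - j ≤ E t 1 - i) := by
    intro t
    rw [hp]
    constructor
    · intro h
      have h1 := h 0
      have h2 := h 1
      simp at h1 h2
      constructor <;> omega
    · rintro ⟨h1, h2⟩ k
      fin_cases k <;> simp <;> omega
  have hpat : ∀ t (x y z : Bool), pat v (Y t) = ![x, y, z] ↔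
      (pat v (Y t) 0 = x ∧ pat v (Y t) 1 = y ∧ pat v (Y t) 2 = z) := by
    intro t x y z
    constructor
    · intro h; rw [h]; simp
    · rintro ⟨h1, h2, h3⟩
      funext m
      fin_cases m <;> simpa
  have hpf : ∀ t m, pat v (Y t) m = false ↔ ¬ (pat v (Y t) m = true) := by
    intro t m; rw [Bool.not_eq_true]
  have c100 : ((cls v Y ![true, false, false]).card : ZMod 2)
      = par (k100 (fun t => E t 0) (fun t => E t 1) (fun t => E t 2) i j) := by
    unfold cls par
    congr 2
    ext t
    simp only [mem_filter, mem_univ, true_and]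
    rw [hpat, hpf t 1, hpf t 2, hp0, hp1, hp2]
    unfold k100
    beta_reduce
    omega
  have c010 : ((cls v Y ![false, true, false]).card : ZMod 2)
      = par (k010 (fun t => E t 0) (fun t => E t 1) (fun t => E t 2) i j) := by
    unfold cls par
    congr 2
    ext t
    simp only [mem_filter, mem_univ, true_and]
    rw [hpat, hpf t 0, hpf t 2, hp0, hp1, hp2]
    unfold k010
    beta_reduce
    omega
  have c001 : ((cls v Y ![false, false, true]).card : ZMod 2)
      = par (k001 (fun t => E t 0) (fun t => E t 1) (fun t => E t 2) i j) := by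
    unfold cls par
    congr 2
    ext t
    simp only [mem_filter, mem_univ, true_and]
    rw [hpat, hpf t 0, hpf t 1, hp0, hp1, hp2]
    unfold k001
    beta_reduce
    omega
  have c110 : ((cls v Y ![true, true, false]).card : ZMod 2)
      = par (k110 (fun t => E t 0) (fun t => E t 1) (fun t => E t 2) i j) := by
    unfold cls par
    congr 2
    ext t
    simp only [mem_filter, mem_univ, true_and]
    rw [hpat, hpf t 2, hp0, hp1, hp2]
    unfold k110
    beta_reduce
    omega
  have c101 : ((cls v Y ![true, false, true]).card : ZMod 2)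
      = par (k101 (fun t => E t 0) (fun t => E t 1) (fun t => E t 2) i j) := by
    unfold cls par
    congr 2
    ext t
    simp only [mem_filter, mem_univ, true_and]
    rw [hpat, hpf t 1, hp0, hp1, hp2]
    unfold k101
    beta_reduce
    omega
  have c011 : ((cls v Y ![false, true, true]).card : ZMod 2)
      = par (k011 (fun t => E t 0) (fun t => E t 1) (fun t => E t 2) i j) := by
    unfold cls par
    congr 2
    ext t
    simp only [mem_filter, mem_univ, true_and]
    rw [hpat, hpf t 0, hp0, hp1, hp2]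
    unfold k011
    beta_reduce
    omega
  have c111 : ((cls v Y ![true, true, true]).card : ZMod 2)
      = par (k111 (fun t => E t 0) (fun t => E t 1) (fun t => E t 2) i j) := by
    unfold cls par
    congr 2
    ext t
    simp only [mem_filter, mem_univ, true_and]
    rw [hpat, hp0, hp1, hp2]
    unfold k111
    beta_reduce
    omega
  unfold FanoAt Fano
  rw [← c100, ← c010, ← c001, ← c110, ← c101, ← c011, ← c111]
  refine ⟨?_, ?_, ?_, ?_, ?_, ?_, ?_⟩
  · exact ln_of_flat D SY (by decide) (by decide) (by decide) (by decide) (by decide) (by decide)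
  · exact ln_of_flat D SY (by decide) (by decide) (by decide) (by decide) (by decide) (by decide)
  · exact ln_of_flat D SY (by decide) (by decide) (by decide) (by decide) (by decide) (by decide)
  · exact ln_of_flat D SY (by decide) (by decide) (by decide) (by decide) (by decide) (by decide)
  · exact ln_of_flat D SY (by decide) (by decide) (by decide) (by decide) (by decide) (by decide)
  · exact ln_of_flat D SY (by decide) (by decide) (by decide) (by decide) (by decide) (by decide)
  · exact ln_of_flat D SY (by decide) (by decide) (by decide) (by decide) (by decide) (by decide)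

/-- The pair theorem in adapted coordinates. -/
theorem pair_zero (D : DV v w) (S : Sys X)
    (hball : ∀ k : ℕ, 1 ≤ k → Odd (univ.filter fun t => v (X t 1) ≤ v w ^ k * v (X t 0) ∧
      v (X t 2) ≤ v w ^ k * v (X t 0)).card)
    {h h' : ι} (hh0 : X h 0 = 0) (hh2 : X h 2 = 0)
    (hcl : ∀ t, v (X t 0) < v (X t 1) → v (X t 2) < v (X t 1) → t = h)
    (hcl' : ∀ t, v (X t 0) = v (X t 1) → v (X t 2) < v (X t 0) → t = h') :
    X h' 2 = 0 := by
  by_contra h2
  -- a level beyond the one of `h'`
  obtain ⟨J, hJ1, hJ⟩ : ∃ J : ℕ, 1 ≤ J ∧ v w ^ J * v (X h' 0) < v (X h' 2) := by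
    by_cases h0 : X h' 0 = 0
    · refine ⟨1, le_rfl, ?_⟩
      rw [h0, map_zero, mul_zero]
      exact zero_lt_iff.mpr ((Valuation.ne_zero_iff v).mpr h2)
    · obtain ⟨a, ha⟩ := D.pow _ h0
      obtain ⟨c, hc⟩ := D.pow _ h2
      refine ⟨(c - a).toNat + 1, by omega, ?_⟩
      rw [ha, hc, ← zpow_natCast, ← zpow_add₀ D.pos.ne']
      apply zpow_lt_zpow_right_of_lt_one₀ D.pos D.lt
      push_cast
      have := Int.self_le_toNat (c - a)
      omega
  obtain ⟨E, hE⟩ := exists_levels D X J
  have h1ne : X h 1 ≠ 0 := by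
    obtain ⟨k, hk⟩ := S.nz h
    fin_cases k
    · exact absurd hh0 hk
    · exact hk
    · exact absurd hh2 hk
  have hr0 : |(0 : ℤ)| ≤ J + 1 := by rw [abs_zero]; omega
  -- comparison at level zero
  have c0 : ∀ t k m, (X t k ≠ 0 ∨ X t m ≠ 0) → (v (X t k) ≤ v (X t m) ↔ E t m ≤ E t k) := by
    intro t k m hne
    have := hE t k m 0 hr0 hne
    rwa [zpow_zero, one_mul, add_zero] at this
  have key := close_of_fano (A := fun t => E t 0) (B := fun t => E t 1) (C := fun t => E t 2)
    J hJ1 (fun i j hij hj => fanoAt D S hE hij hj) ?_ (h := h) (h' := h') ?_ ?_ ?_ ?_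
  · -- conclusion
    have h3 : ¬ (v (X h' 2) ≤ v w ^ (J : ℤ) * v (X h' 0)) := by
      rw [zpow_natCast]; exact not_le.mpr hJ
    apply h3
    rw [hE h' 2 0 J (by rw [abs_of_nonneg (by omega)]; omega) (Or.inl h2)]
    beta_reduce at key
    omega
  · intro k hk1 hk2
    have ho := hball k hk1
    rw [← ZMod.natCast_eq_one_iff_odd] at ho
    rw [← ho]
    unfold par
    congr 2
    ext t
    simp only [mem_filter, mem_univ, true_and]
    have hk' : |(k : ℤ)| ≤ J + 1 := by rw [abs_of_nonneg (by omega)]; omega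
    by_cases h0 : X t 0 = 0
    · constructor
      · rintro ⟨q1, q2⟩
        exfalso
        obtain ⟨m, hm⟩ := S.nz t
        have q3 := (c0 t m 0 (Or.inl hm)).not
        rw [h0, map_zero] at q3
        have q4 : ¬ (v (X t m) ≤ 0) := by
          rw [not_le]; exact zero_lt_iff.mpr ((Valuation.ne_zero_iff v).mpr hm)
        have q5 := q3.mp q4
        fin_cases m
        · exact hm h0
        · simp only [Fin.mk_one] at q5; omega
        · simp only [Fin.reduceFinMk] at q5; omega
      · rintro ⟨q1, q2⟩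
        exfalso
        rw [h0, map_zero, mul_zero] at q1 q2
        obtain ⟨m, hm⟩ := S.nz t
        fin_cases m
        · exact hm h0
        · exact hm ((Valuation.zero_iff v).mp (le_antisymm q1 zero_le))
        · exact hm ((Valuation.zero_iff v).mp (le_antisymm q2 zero_le))
    · have q1 := hE t 1 0 k hk' (Or.inr h0)
      have q2 := hE t 2 0 k hk' (Or.inr h0)
      rw [zpow_natCast] at q1 q2
      rw [q1, q2]
  · have := (c0 h 1 0 (Or.inl h1ne)).not
    rw [hh0, map_zero] at this
    have q4 : ¬ (v (X h 1) ≤ 0) := by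
      rw [not_le]; exact zero_lt_iff.mpr ((Valuation.ne_zero_iff v).mpr h1ne)
    have := this.mp q4
    beta_reduce
    omega
  · have := (hE h 1 2 (-(J : ℤ)) (by rw [abs_neg, abs_of_nonneg (by omega)]; omega)
      (Or.inl h1ne)).not
    rw [hh2, map_zero, mul_zero] at this
    have q4 : ¬ (v (X h 1) ≤ 0) := by
      rw [not_le]; exact zero_lt_iff.mpr ((Valuation.ne_zero_iff v).mpr h1ne)
    have := this.mp q4
    beta_reduce
    omega
  · intro t q1 q2
    beta_reduce at q1 q2
    have hne1 : X t 1 ≠ 0 := by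
      intro h1
      obtain ⟨m, hm⟩ := S.nz t
      have q3 := (c0 t m 1 (Or.inl hm)).not
      rw [h1, map_zero] at q3
      have q4 : ¬ (v (X t m) ≤ 0) := by
        rw [not_le]; exact zero_lt_iff.mpr ((Valuation.ne_zero_iff v).mpr hm)
      have q5 := q3.mp q4
      fin_cases m
      · simp only [Fin.zero_eta] at q5; omega
      · exact hm h1
      · simp only [Fin.reduceFinMk] at q5; omega
    apply hcl t
    · have := (c0 t 1 0 (Or.inl hne1)).not
      rw [not_le, not_le] at this
      exact this.mpr q1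
    · have := (c0 t 1 2 (Or.inl hne1)).not
      rw [not_le, not_le] at this
      exact this.mpr q2
  · intro t q1 q2
    beta_reduce at q1 q2
    have hne0 : X t 0 ≠ 0 := by
      intro h1
      obtain ⟨m, hm⟩ := S.nz t
      have q3 := (c0 t m 0 (Or.inl hm)).not
      rw [h1, map_zero] at q3
      have q4 : ¬ (v (X t m) ≤ 0) := by
        rw [not_le]; exact zero_lt_iff.mpr ((Valuation.ne_zero_iff v).mpr hm)
      have q5 := q3.mp q4
      fin_cases m
      · exact hm h1
      · simp only [Fin.mk_one] at q5; omega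
      · simp only [Fin.reduceFinMk] at q5; omega
    apply hcl' t
    · apply le_antisymm
      · exact (c0 t 0 1 (Or.inl hne0)).mpr q1.symm.le
      · exact (c0 t 1 0 (Or.inr hne0)).mpr q1.le
    · have := (c0 t 0 2 (Or.inl hne0)).not
      rw [not_le, not_le] at this
      exact this.mpr q2

end

end Run7.h321.Two
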