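import Pool.Agent.Run7.h321.MK
import Pool.Agent.Run7.h321.Comb

set_option autoImplicit false

namespace Run7.h321

/-- A reduction map onto `ZMod 3` attached to a valuation. -/
structure Red {K : Type*} [Field K] {Γ : Type*} [LinearOrderedCommGroupWithZero Γ]
    (v : Valuation K Γ) where
  rd : K → ZMod 3
  add' : ∀ x y, v x ≤ 1 → v y ≤ 1 → rd (x + y) = rd x + rd y
  mul' : ∀ x y, v x ≤ 1 → v y ≤ 1 → rd (x * y) = rd x * rd y
  one' : rd 1 = 1
  zero_iff' : ∀ x, v x ≤ 1 → (rd x = 0 ↔ v x < 1)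

namespace Red

variable {K : Type*} [Field K] {Γ : Type*} [LinearOrderedCommGroupWithZero Γ]
  {v : Valuation K Γ} (R : Red v)

theorem zero : R.rd 0 = 0 := by
  rw [R.zero_iff' 0 (by simp)]
  simp

theorem neg (x : K) (hx : v x ≤ 1) : R.rd (-x) = - R.rd x := by
  have h := R.add' x (-x) hx (by rwa [Valuation.map_neg])
  rw [add_neg_cancel, R.zero] at h
  exact (neg_eq_of_add_eq_zero_right h.symm).symm

theorem sub (x y : K) (hx : v x ≤ 1) (hy : v y ≤ 1) : R.rd (x - y) = R.rd x - R.rd y := by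
  rw [sub_eq_add_neg, R.add' x (-y) hx (by rwa [Valuation.map_neg]), R.neg y hy, sub_eq_add_neg]

theorem lt_of_zero {x : K} (hx : v x ≤ 1) (h : R.rd x = 0) : v x < 1 := (R.zero_iff' x hx).1 h

theorem zero_of_lt {x : K} (h : v x < 1) : R.rd x = 0 := (R.zero_iff' x h.le).2 h

theorem eq_one_of_ne {x : K} (hx : v x ≤ 1) (h : R.rd x ≠ 0) : v x = 1 := by
  rcases hx.lt_or_eq with h' | h'
  · exact absurd (R.zero_of_lt h') h
  · exact h'

end Red

section core

variable {K : Type*} [Field K] {Γ : Type*} [LinearOrderedCommGroupWithZero Γ]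
  {v : Valuation K Γ} (R : Red v) {ι : Type*} (P : ι → K × K)

/-- The extremality data of a point-line pair at minimal distance. -/
structure Ext (v : Valuation K Γ) (P : ι → K × K) : Prop where
  inj : ∀ i j, i ≠ j → (P i).1 ≠ (P j).1
  sg : ∀ i j, i ≠ j → ∃ k, k ≠ i ∧ k ≠ j ∧ ar (P i) (P j) (P k) = 0
  minA : ∀ s t u, ar (P s) (P t) (P u) ≠ 0 → v ((P t).1 - (P u).1) ≤ v (ar (P s) (P t) (P u))
  minB : ∀ s t u, ar (P s) (P t) (P u) ≠ 0 → v (ar (P s) (P t) (P u)) < 1 →
    v ((P t).1 - (P u).1) < v (ar (P s) (P t) (P u))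

/-- The points with integral coordinates. -/
def In (v : Valuation K Γ) (P : ι → K × K) (i : ι) : Prop := v (P i).1 ≤ 1 ∧ v (P i).2 ≤ 1

/-- The residue of a point with integral coordinates. -/
def res (R : Red v) (P : ι → K × K) (i : ι) : ZMod 3 × ZMod 3 := (R.rd (P i).1, R.rd (P i).2)

/-- Far points in the direction of slope `θ`. -/
def Far (R : Red v) (P : ι → K × K) (θ : ZMod 3) (i : ι) : Prop :=
  1 < v (P i).1 ∧ v (P i).2 ≤ v (P i).1 ∧ R.rd ((P i).2 / (P i).1) = θ

variable {R P}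

theorem rd_ar {u w s : ι} (hu : In v P u) (hw : In v P w) (hs : In v P s) :
    R.rd (ar (P u) (P w) (P s)) = ar (res R P u) (res R P w) (res R P s) := by
  unfold ar res
  have h1 : v ((P w).1 - (P u).1) ≤ 1 := v.map_sub_le hw.1 hu.1
  have h2 : v ((P s).2 - (P u).2) ≤ 1 := v.map_sub_le hs.2 hu.2
  have h3 : v ((P w).2 - (P u).2) ≤ 1 := v.map_sub_le hw.2 hu.2
  have h4 : v ((P s).1 - (P u).1) ≤ 1 := v.map_sub_le hs.1 hu.1
  rw [R.sub _ _ (by rw [map_mul]; exact mul_le_one' h1 h2)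
    (by rw [map_mul]; exact mul_le_one' h3 h4), R.mul' _ _ h1 h2, R.mul' _ _ h3 h4,
    R.sub _ _ hw.1 hu.1, R.sub _ _ hs.2 hu.2, R.sub _ _ hw.2 hu.2, R.sub _ _ hs.1 hu.1]

theorem v_ar_le {u w s : ι} (hu : In v P u) (hw : In v P w) (hs : In v P s) :
    v (ar (P u) (P w) (P s)) ≤ 1 := by
  unfold ar
  have h1 : v ((P w).1 - (P u).1) ≤ 1 := v.map_sub_le hw.1 hu.1
  have h2 : v ((P s).2 - (P u).2) ≤ 1 := v.map_sub_le hs.2 hu.2
  have h3 : v ((P w).2 - (P u).2) ≤ 1 := v.map_sub_le hw.2 hu.2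
  have h4 : v ((P s).1 - (P u).1) ≤ 1 := v.map_sub_le hs.1 hu.1
  apply v.map_sub_le
  · rw [map_mul]; exact mul_le_one' h1 h2
  · rw [map_mul]; exact mul_le_one' h3 h4

theorem v_col {u w : ι} (hu : In v P u) (hw : In v P w) (h : (res R P u).1 ≠ (res R P w).1) :
    v ((P u).1 - (P w).1) = 1 := by
  apply R.eq_one_of_ne (v.map_sub_le hu.1 hw.1)
  rw [R.sub _ _ hu.1 hw.1]
  exact sub_ne_zero.mpr h

theorem one_le_ar (E : Ext v P) {u w : ι} (s : ι) (hu : In v P u) (hw : In v P w)
    (h : (res R P u).1 ≠ (res R P w).1) (hne : ar (P u) (P w) (P s) ≠ 0) :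
    1 ≤ v (ar (P u) (P w) (P s)) := by
  have h1 : ar (P s) (P u) (P w) = ar (P u) (P w) (P s) := by unfold ar; ring
  have h2 := E.minA s u w (by rwa [h1])
  rwa [h1, v_col hu hw h] at h2

/-- The three base points. -/
structure Base (P : ι → K × K) (a b p : ι) : Prop where
  ha : P a = (0, 0)
  hb : P b = (1, 0)
  hp : (P p).2 = 1

theorem Base.ar_eq {a b p : ι} (B : Base P a b p) : ar (P a) (P b) (P p) = 1 := by
  unfold ar
  rw [B.ha, B.hb, B.hp]
  simp

theorem Base.in_a {a b p : ι} (B : Base P a b p) : In v P a := by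
  unfold In; rw [B.ha]; simp

theorem Base.in_b {a b p : ι} (B : Base P a b p) : In v P b := by
  unfold In; rw [B.hb]; simp

theorem Base.in_p {a b p : ι} (B : Base P a b p) (E : Ext v P) : In v P p := by
  have h1 : ar (P b) (P p) (P a) = 1 := by
    have := B.ar_eq
    rw [← this]; unfold ar; ring
  have h2 := E.minA b p a (by rw [h1]; exact one_ne_zero)
  rw [h1, B.ha, map_one] at h2
  refine ⟨by simpa using h2, by rw [B.hp, map_one]⟩

theorem exists_other_col {a b p : ι} (B : Base P a b p) (u : ι) :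
    ∃ t, In v P t ∧ (res R P u).1 ≠ (res R P t).1 := by
  by_cases h : (res R P u).1 = (res R P a).1
  · refine ⟨b, B.in_b, ?_⟩
    rw [h]
    simp [res, B.ha, B.hb, R.zero, R.one']
  · exact ⟨a, B.in_a, h⟩

theorem exists_off {a b p : ι} (B : Base P a b p) (E : Ext v P) {u t : ι}
    (hne : (P u).1 ≠ (P t).1) :
    ∃ s, In v P s ∧ ar (P u) (P t) (P s) ≠ 0 := by
  by_contra hcon
  push Not at hcon
  have ha := hcon a B.in_a
  have hb := hcon b B.in_b
  have hp := hcon p (B.in_p E)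
  have hid : ((P t).1 - (P u).1) * ar (P a) (P b) (P p)
      = ((P b).1 - (P a).1) * (ar (P u) (P t) (P p) - ar (P u) (P t) (P a))
        - ((P p).1 - (P a).1) * (ar (P u) (P t) (P b) - ar (P u) (P t) (P a)) := by
    unfold ar; ring
  rw [B.ar_eq, ha, hb, hp] at hid
  simp only [sub_self, mul_zero, mul_one] at hid
  exact hne (sub_eq_zero.mp hid).symm

theorem res_inj {a b p : ι} (B : Base P a b p) (E : Ext v P) {u w : ι}
    (hu : In v P u) (hw : In v P w) (hne : u ≠ w) : res R P u ≠ res R P w := by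
  intro hres
  obtain ⟨t, ht, hcol⟩ := exists_other_col (R := R) (v := v) B u
  have hx : v ((P w).1 - (P u).1) < 1 := by
    apply R.lt_of_zero (v.map_sub_le hw.1 hu.1)
    rw [R.sub _ _ hw.1 hu.1]
    have := congrArg Prod.fst hres
    simp only [res] at this
    rw [this, sub_self]
  have hy : v ((P w).2 - (P u).2) < 1 := by
    apply R.lt_of_zero (v.map_sub_le hw.2 hu.2)
    rw [R.sub _ _ hw.2 hu.2]
    have := congrArg Prod.snd hres
    simp only [res] at this
    rw [this, sub_self]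
  have hutw : ar (P u) (P t) (P w) = 0 := by
    by_contra h0
    have h1 := one_le_ar (R := R) E w hu ht hcol h0
    have h2 : v (ar (P u) (P t) (P w)) < 1 := by
      unfold ar
      apply v.map_sub_lt
      · rw [map_mul]
        exact lt_of_le_of_lt (mul_le_of_le_one_left' (v.map_sub_le ht.1 hu.1)) hy
      · rw [map_mul]
        exact lt_of_le_of_lt (mul_le_of_le_one_left' (v.map_sub_le ht.2 hu.2)) hx
    exact absurd h2 (not_lt.mpr h1)
  have hxut : (P u).1 ≠ (P t).1 := by
    intro h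
    apply hcol
    simp only [res, h]
  obtain ⟨s, hs, hs0⟩ := exists_off B E hxut
  have hv1 : v (ar (P u) (P t) (P s)) = 1 :=
    le_antisymm (v_ar_le hu ht hs) (one_le_ar (R := R) E s hu ht hcol hs0)
  have hvt : v ((P t).1 - (P u).1) = 1 := by
    rw [Valuation.map_sub_swap]; exact v_col hu ht hcol
  have hid : ar (P s) (P u) (P w) * ((P t).1 - (P u).1)
      = ((P w).1 - (P u).1) * ar (P u) (P t) (P s) := by
    unfold ar at hutw ⊢
    linear_combination (-((P s).1 - (P u).1)) * hutw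
  have hval : v (ar (P s) (P u) (P w)) = v ((P w).1 - (P u).1) := by
    have := congrArg v hid
    rwa [map_mul, map_mul, hvt, hv1, mul_one, mul_one] at this
  have hxw : (P w).1 - (P u).1 ≠ 0 := sub_ne_zero.mpr (E.inj w u hne.symm)
  have hne0 : ar (P s) (P u) (P w) ≠ 0 := by
    intro h
    rw [h, map_zero] at hval
    exact hxw ((Valuation.zero_iff v).mp hval.symm)
  have := E.minB s u w hne0 (by rw [hval]; exact hx)
  rw [hval, Valuation.map_sub_swap] at this
  exact lt_irrefl _ this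

end core

end Run7.h321
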