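import Pool.Agent.Run7.h321.Core2

set_option autoImplicit false

namespace Run7.h321

section core

variable {K : Type*} [Field K] {Γ : Type*} [LinearOrderedCommGroupWithZero Γ]
  {v : Valuation K Γ} {R : Red v} {ι : Type*} {P : ι → K × K}

/-- The residues of integral points. -/
def TT (R : Red v) (P : ι → K × K) (t : ZMod 3 × ZMod 3) : Prop :=
  ∃ i, In v P i ∧ res R P i = t

theorem third_point (E : Ext v P) {i j : ι} (hi : In v P i) (hj : In v P j)
    (hcol : (res R P i).1 ≠ (res R P j).1) :
    ∃ k, k ≠ i ∧ k ≠ j ∧ ar (P i) (P j) (P k) = 0 ∧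
      ((In v P k ∧ (res R P k).2 - (res R P i).2 =
          R.rd (((P j).2 - (P i).2) / ((P j).1 - (P i).1)) *
            ((res R P k).1 - (res R P i).1)) ∨
        Far R P (R.rd (((P j).2 - (P i).2) / ((P j).1 - (P i).1))) k) := by
  have hij : i ≠ j := by
    rintro rfl; exact hcol rfl
  obtain ⟨k, hki, hkj, hk⟩ := E.sg i j hij
  obtain ⟨hm, _⟩ := slope_in hi hj hcol
  have hx : (P j).1 - (P i).1 ≠ 0 := sub_ne_zero.mpr (E.inj j i hij.symm)
  refine ⟨k, hki, hkj, hk, slope_lemma hi hm ?_⟩
  unfold ar at hk
  field_simp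
  linear_combination hk

theorem zmod3_cases (x : ZMod 3) : x = 0 ∨ x = 1 ∨ x = 2 := by
  fin_cases x
  · exact Or.inl rfl
  · exact Or.inr (Or.inl rfl)
  · exact Or.inr (Or.inr rfl)

theorem dir_cond {a b p : ι} (B : Base P a b p) (E : Ext v P) (θ : ZMod 3) :
    (∀ u : ZMod 3 × ZMod 3, TT R P u → TT R P (u.1 + 1, u.2 + θ) →
        TT R P (u.1 + 2, u.2 + 2 * θ)) ∨
      (∀ u : ZMod 3 × ZMod 3, TT R P u →
        (TT R P (u.1 + 1, u.2 + θ) ∨ TT R P (u.1 + 2, u.2 + 2 * θ))) := by
  by_cases hfull : ∀ u : ZMod 3 × ZMod 3, TT R P u → TT R P (u.1 + 1, u.2 + θ) →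
        TT R P (u.1 + 2, u.2 + 2 * θ)
  · exact Or.inl hfull
  right
  push Not at hfull
  obtain ⟨u0, ⟨i, hi, hri⟩, ⟨j, hj, hrj⟩, hno⟩ := hfull
  have hcol : (res R P i).1 ≠ (res R P j).1 := by
    rw [hri, hrj]
    intro h
    have : (1 : ZMod 3) = 0 := by linear_combination -h
    exact absurd this (by decide)
  have hij : i ≠ j := by
    rintro rfl; exact hcol rfl
  obtain ⟨hm, hs⟩ := slope_in hi hj hcol
  have hθ : R.rd (((P j).2 - (P i).2) / ((P j).1 - (P i).1)) = θ := by
    rw [hri, hrj] at hs
    simp only [add_sub_cancel_left, mul_one] at hs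
    exact hs.symm
  obtain ⟨q, hqi, hqj, hq0, hq⟩ := third_point E hi hj hcol
  rw [hθ] at hq
  have hfar : Far R P θ q := by
    rcases hq with ⟨hqin, hqs⟩ | hq
    · exfalso
      apply hno
      refine ⟨q, hqin, ?_⟩
      rcases zmod3_cases ((res R P q).1 - (res R P i).1) with h | h | h
      · exfalso
        apply res_inj (R := R) B E hqin hi hqi
        rw [h, mul_zero] at hqs
        exact Prod.ext (sub_eq_zero.mp h) (sub_eq_zero.mp hqs)
      · exfalso
        apply res_inj (R := R) B E hqin hj hqj
        rw [h, mul_one] at hqs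
        rw [hrj]
        rw [hri] at h hqs
        exact Prod.ext (by linear_combination h) (by linear_combination hqs)
      · rw [h] at hqs
        rw [hri] at h hqs
        exact Prod.ext (by linear_combination h) (by linear_combination hqs)
    · exact hq
  intro u ⟨x, hx, hrx⟩
  -- neighbours of `x`
  have nb : ∀ t, In v P t → t ≠ x →
      (res R P t).2 - (res R P x).2 = θ * ((res R P t).1 - (res R P x).1) →
      (TT R P (u.1 + 1, u.2 + θ) ∨ TT R P (u.1 + 2, u.2 + 2 * θ)) := by
    intro t ht htx hts
    rcases zmod3_cases ((res R P t).1 - (res R P x).1) with h | h | h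
    · exfalso
      apply res_inj (R := R) B E ht hx htx
      rw [h, mul_zero] at hts
      exact Prod.ext (sub_eq_zero.mp h) (sub_eq_zero.mp hts)
    · left
      refine ⟨t, ht, ?_⟩
      rw [h, mul_one] at hts
      rw [hrx] at h hts
      exact Prod.ext (by linear_combination h) (by linear_combination hts)
    · right
      refine ⟨t, ht, ?_⟩
      rw [h] at hts
      rw [hrx] at h hts
      exact Prod.ext (by linear_combination h) (by linear_combination hts)
  have hdirij : (res R P j).2 - (res R P i).2 = θ * ((res R P j).1 - (res R P i).1) := by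
    rw [hri, hrj]; ring
  by_cases hxi : x = i
  · exact nb j hj (by rw [hxi]; exact hij.symm) (by rw [hxi]; exact hdirij)
  by_cases hon : ar (P i) (P j) (P x) = 0
  · -- `x` on the line `ij`
    have hX : (P j).1 - (P i).1 ≠ 0 := sub_ne_zero.mpr (E.inj j i hij.symm)
    have hsl : (P i).2 - (P x).2 = ((P j).2 - (P i).2) / ((P j).1 - (P i).1) *
        ((P i).1 - (P x).1) := by
      unfold ar at hon
      field_simp
      linear_combination -hon
    rcases slope_lemma (R := R) hx hm hsl with ⟨_, h2⟩ | h2
    · rw [hθ] at h2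
      exact nb i hi (fun h => hxi h.symm) h2
    · exact absurd hi.1 (not_le.mpr h2.1)
  · have hxq : x ≠ q := by
      rintro rfl
      exact absurd hx.1 (not_le.mpr hfar.1)
    obtain ⟨t, htx, htq, ht0⟩ := E.sg x q hxq
    obtain ⟨sm, sθ, s0⟩ := slope_far hfar hx
    have hsl : (P t).2 - (P x).2 = ((P q).2 - (P x).2) / ((P q).1 - (P x).1) *
        ((P t).1 - (P x).1) := by
      unfold ar at ht0
      field_simp
      linear_combination ht0
    rcases slope_lemma (R := R) hx sm hsl with ⟨h1, h2⟩ | h2
    · rw [sθ] at h2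
      exact nb t h1 htx h2
    · exfalso
      rw [sθ] at h2
      have c1 := ar_far E hfar hi hj hdirij
      have c2 := ar_far E h2 hi hj hdirij
      apply hon
      have hX : (P t).1 - (P q).1 ≠ 0 := sub_ne_zero.mpr (E.inj t q htq)
      have hid : ((P t).1 - (P q).1) * ar (P i) (P j) (P x)
          = ((P t).1 - (P x).1) * ar (P i) (P j) (P q)
            + ((P x).1 - (P q).1) * ar (P i) (P j) (P t)
            + ((P j).1 - (P i).1) * ar (P x) (P q) (P t) := by
        unfold ar; ring
      rw [c1, c2, ht0] at hid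
      simp only [mul_zero, add_zero] at hid
      exact (mul_eq_zero.mp hid).resolve_left hX

theorem far_exists {a b p : ι} (B : Base P a b p) (E : Ext v P) (θ : ZMod 3)
    (m : ZMod 3 × ZMod 3) (hm : ¬ TT R P m) (h1 : TT R P (m.1 + 1, m.2 + θ))
    (h2 : TT R P (m.1 + 2, m.2 + 2 * θ)) : ∃ q, Far R P θ q := by
  obtain ⟨i, hi, hri⟩ := h1
  obtain ⟨j, hj, hrj⟩ := h2
  have hcol : (res R P i).1 ≠ (res R P j).1 := by
    rw [hri, hrj]
    intro h
    have : (1 : ZMod 3) = 0 := by linear_combination -h
    exact absurd this (by decide)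
  obtain ⟨_, hs⟩ := slope_in hi hj hcol
  have hθ : R.rd (((P j).2 - (P i).2) / ((P j).1 - (P i).1)) = θ := by
    rw [hri, hrj] at hs
    have e1 : m.1 + 2 - (m.1 + 1) = (1 : ZMod 3) := by ring
    have e2 : m.2 + 2 * θ - (m.2 + θ) = θ := by ring
    simp only [e1, e2, mul_one] at hs
    exact hs.symm
  obtain ⟨q, hqi, hqj, hq0, hq⟩ := third_point E hi hj hcol
  rw [hθ] at hq
  rcases hq with ⟨hqin, hqs⟩ | hq
  · exfalso
    apply hm
    refine ⟨q, hqin, ?_⟩
    have h3 : (3 : ZMod 3) = 0 := by decide
    rcases zmod3_cases ((res R P q).1 - (res R P i).1) with h | h | h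
    · exfalso
      apply res_inj (R := R) B E hqin hi hqi
      rw [h, mul_zero] at hqs
      exact Prod.ext (sub_eq_zero.mp h) (sub_eq_zero.mp hqs)
    · exfalso
      apply res_inj (R := R) B E hqin hj hqj
      rw [h, mul_one] at hqs
      rw [hrj]
      rw [hri] at h hqs
      exact Prod.ext (by linear_combination h) (by linear_combination hqs)
    · rw [h] at hqs
      rw [hri] at h hqs
      exact Prod.ext (by linear_combination h + h3) (by linear_combination hqs + θ * h3)
  · exact ⟨q, hq⟩

/-- Extremal configurations over a field with residue field of order three contain a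
Moebius-Kantor configuration. -/
theorem core_root {a b p : ι} (B : Base P a b p) (E : Ext v P) (R : Red v) :
    ∃ z : K, z ^ 2 - z + 1 = 0 := by
  have h3 : (3 : ZMod 3) = 0 := by decide
  rcases comb_prop (TT R P) ⟨a, B.in_a, by simp [res, B.ha, R.zero]⟩
    ⟨b, B.in_b, by simp [res, B.hb, R.zero, R.one']⟩
    ⟨(res R P p).1, p, B.in_p E, by
      refine Prod.ext rfl ?_
      simp [res, B.hp, R.one']⟩
    (dir_cond B E) with hall | ⟨m, hm, hcase⟩
  · choose s hs using hall
    have hsi : ∀ t, In v P (s t) := fun t => (hs t).1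
    have hsr : ∀ t, res R P (s t) = t := fun t => (hs t).2
    have col : ∀ t1 t2 t3 : ZMod 3 × ZMod 3, ar t1 t2 t3 = 0 →
        ar (P (s t1)) (P (s t2)) (P (s t3)) = 0 := by
      intro t1 t2 t3 h
      apply ar_in (R := R) E (hsi _) (hsi _) (hsi _)
      rw [hsr, hsr, hsr, h]
    have ncol : ∀ t1 t2 t3 : ZMod 3 × ZMod 3, ar t1 t2 t3 ≠ 0 →
        ar (P (s t1)) (P (s t2)) (P (s t3)) ≠ 0 := by
      intro t1 t2 t3 h
      apply ar_in_ne (R := R) (hsi _) (hsi _) (hsi _)
      rw [hsr, hsr, hsr]; exact h
    exact mk_root (P (s (1, 0))) (P (s (2, 0))) (P (s (0, 1))) (P (s (0, 2)))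
      (P (s (1, 1))) (P (s (2, 2))) (P (s (1, 2))) (P (s (2, 1)))
      (col _ _ _ (by decide)) (col _ _ _ (by decide)) (col _ _ _ (by decide))
      (col _ _ _ (by decide)) (col _ _ _ (by decide)) (col _ _ _ (by decide))
      (col _ _ _ (by decide)) (col _ _ _ (by decide))
      (ncol _ _ _ (by decide)) (ncol _ _ _ (by decide)) (ncol _ _ _ (by decide))
      (ncol _ _ _ (by decide)) (ncol _ _ _ (by decide))
  · -- common construction
    have build : ∀ (d e : ZMod 3 × ZMod 3) (θ₁ θ₂ : ZMod 3),
        θ₁ ≠ θ₂ →
        (e.2 + d.2 = θ₁ * (e.1 + d.1)) → (e.2 + 2 * d.2 = θ₂ * (e.1 + 2 * d.1)) →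
        (∀ i : ZMod 3, TT R P (m.1 + e.1 + i * d.1, m.2 + e.2 + i * d.2)) →
        (∀ i : ZMod 3, TT R P (m.1 - e.1 + i * d.1, m.2 - e.2 + i * d.2)) →
        (d.2 ≠ θ₁ * d.1) →
        (e.2 + 2 * d.2 ≠ θ₁ * (e.1 + 2 * d.1)) →
        (e.2 ≠ θ₂ * e.1) →
        (∃ q, Far R P θ₁ q) → (∃ q, Far R P θ₂ q) →
        ∃ z : K, z ^ 2 - z + 1 = 0 := by
      intro d e θ₁ θ₂ hθ hd1 hd2 hU hW hne1 hne2 hne3 ⟨A, hA⟩ ⟨Bq, hBq⟩
      choose u hu using hU
      choose w hw using hW
      have hui : ∀ i, In v P (u i) := fun i => (hu i).1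
      have hur : ∀ i, res R P (u i) = (m.1 + e.1 + i * d.1, m.2 + e.2 + i * d.2) :=
        fun i => (hu i).2
      have hwi : ∀ i, In v P (w i) := fun i => (hw i).1
      have hwr : ∀ i, res R P (w i) = (m.1 - e.1 + i * d.1, m.2 - e.2 + i * d.2) :=
        fun i => (hw i).2
      have cu : ∀ i j k, ar (P (u i)) (P (u j)) (P (u k)) = 0 := by
        intro i j k
        apply ar_in (R := R) E (hui _) (hui _) (hui _)
        rw [hur, hur, hur]
        unfold ar
        ring
      have cw : ∀ i j k, ar (P (w i)) (P (w j)) (P (w k)) = 0 := by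
        intro i j k
        apply ar_in (R := R) E (hwi _) (hwi _) (hwi _)
        rw [hwr, hwr, hwr]
        unfold ar
        ring
      -- lines through A : shift 1
      have cA : ∀ i j, j = i + 1 → ar (P (u i)) (P (w j)) (P A) = 0 := by
        intro i j hj
        apply ar_far E hA (hui _) (hwi _)
        rw [hur, hwr, hj]
        simp only
        linear_combination hd1 - e.2 * h3 + θ₁ * e.1 * h3
      have cB : ∀ i j, j = i + 2 → ar (P (u i)) (P (w j)) (P Bq) = 0 := by
        intro i j hj
        apply ar_far E hBq (hui _) (hwi _)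
        rw [hur, hwr, hj]
        simp only
        linear_combination hd2 - e.2 * h3 + θ₂ * e.1 * h3
      refine mk_root (P A) (P Bq) (P (u 0)) (P (w 0)) (P (u 1)) (P (w 1)) (P (w 2)) (P (u 2))
        (cu _ _ _) (cw _ _ _) ?_ ?_ ?_ ?_ ?_ ?_ ?_ ?_ ?_ ?_ ?_
      · rw [← ar_cycle]; exact cA 1 2 (by decide)
      · rw [← ar_cycle]; exact cB 2 1 (by decide)
      · exact cB 0 2 (by decide)
      · rw [ar_cycle]; exact cA 2 0 (by decide)
      · rw [ar_swap23, cA 0 1 (by decide), neg_zero]
      · rw [ar_swap12 (P (u 1)) (P (w 0)), cB 1 0 (by decide), neg_zero]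
      · -- ar A (u 1) (u 0)
        rw [← ar_cycle]
        apply ar_far_ne hA (hui _) (hui _)
        rw [hur, hur]
        simp only
        intro h
        apply hne1
        linear_combination -h
      · rw [← ar_cycle]
        apply ar_far_ne hA (hui _) (hui _)
        rw [hur, hur]
        simp only
        intro h
        apply hne1
        linear_combination h + d.2 * h3 - θ₁ * d.1 * h3
      · -- ar A (w 2) (u 0)
        rw [← ar_cycle]
        apply ar_far_ne hA (hwi _) (hui _)
        rw [hur, hwr]
        simp only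
        intro h
        apply hne2
        linear_combination -h + e.2 * h3 - θ₁ * e.1 * h3
      · exact ar_far_far_ne hA hBq (hwi _) hθ
      · -- ar (w 0) B (u 0)
        rw [ar_swap23]
        apply neg_ne_zero.mpr
        apply ar_far_ne hBq (hwi _) (hui _)
        rw [hur, hwr]
        simp only
        intro h
        apply hne3
        linear_combination -h + e.2 * h3 - θ₂ * e.1 * h3
    rcases hcase with hV | ⟨s, hS⟩
    · -- vertical direction
      have one_ne : (1 : ZMod 3) ≠ 0 := by decide
      have two_ne : (2 : ZMod 3) ≠ 0 := by decide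
      have hf : ∀ θ : ZMod 3, ∃ q, Far R P θ q := by
        intro θ
        apply far_exists B E θ m hm
        · apply hV; simp
        · apply hV; simpa using two_ne
      refine build (0, 1) (1, 0) 1 2 (by decide) (by decide) (by decide) ?_ ?_ (by decide)
        (by decide) (by decide) (hf 1) (hf 2)
      · intro i
        apply hV
        simp
      · intro i
        apply hV
        simp
    · have key : ∀ x y : ZMod 3, y ≠ s * x → TT R P (m.1 + x, m.2 + y) := by
        intro x y hxy
        apply hS
        simp only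
        intro h
        apply hxy
        linear_combination h
      have f1 : ∃ q, Far R P (s + 1) q := by
        apply far_exists B E (s + 1) m hm
        · apply key
          intro h
          have : (1 : ZMod 3) = 0 := by linear_combination h
          exact absurd this (by decide)
        · apply key
          intro h
          have : (2 : ZMod 3) = 0 := by linear_combination h
          exact absurd this (by decide)
      have f2 : ∃ q, Far R P (s + 2) q := by
        apply far_exists B E (s + 2) m hm
        · apply key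
          intro h
          have : (2 : ZMod 3) = 0 := by linear_combination h
          exact absurd this (by decide)
        · apply key
          intro h
          have : (1 : ZMod 3) = 0 := by linear_combination h - h3
          exact absurd this (by decide)
      have g1 : ∀ s : ZMod 3, s + 1 ≠ s + 2 := by decide
      have g2 : ∀ s : ZMod 3, (1 : ZMod 3) + s = (s + 1) * (0 + 1) := by decide
      have g3 : ∀ s : ZMod 3, (1 : ZMod 3) + 2 * s = (s + 2) * (0 + 2 * 1) := by decide
      have g4 : ∀ s : ZMod 3, s ≠ (s + 1) * 1 := by decide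
      have g5 : ∀ s : ZMod 3, (1 : ZMod 3) + 2 * s ≠ (s + 1) * (0 + 2 * 1) := by decide
      have g6 : ∀ s : ZMod 3, (1 : ZMod 3) ≠ (s + 2) * 0 := by decide
      refine build (1, s) (0, 1) (s + 1) (s + 2) (g1 s) (g2 s) (g3 s) ?_ ?_ (g4 s) (g5 s) (g6 s)
        f1 f2
      · intro i
        have := key i (1 + i * s) (by
          intro h
          have : (1 : ZMod 3) = 0 := by linear_combination h
          exact absurd this (by decide))
        convert this using 2 <;> ring
      · intro i
        have := key i (-1 + i * s) (by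
          intro h
          have : (1 : ZMod 3) = 0 := by linear_combination -h
          exact absurd this (by decide))
        convert this using 2 <;> ring

end core

end Run7.h321
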