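import Pool.Agent.Run7.h321.Split

set_option autoImplicit false

namespace Run7.h321

open Finset

theorem Net.pow_sum {Θ : Finset ℂ} {B₁ B₂ : Finset (ℂ × ℂ)} (N : Net Θ B₁ B₂) {θ : ℂ}
    (hθ : θ ∈ Θ) (k : ℕ) : ∑ b ∈ B₁, fib θ b ^ k = ∑ b ∈ B₂, fib θ b ^ k := by
  classical
  have key : ∀ {C₁ C₂ : Finset (ℂ × ℂ)}, Net Θ C₁ C₂ → C₁.image (fib θ) ⊆ C₂.image (fib θ) := by
    intro C₁ C₂ M v hv
    obtain ⟨b, hb, rfl⟩ := mem_image.mp hv
    obtain ⟨b', hb', he⟩ := M.part1 b hb θ hθ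
    exact mem_image.mpr ⟨b', hb', he⟩
  have himg : B₁.image (fib θ) = B₂.image (fib θ) := Subset.antisymm (key N) (key N.symm)
  have h1 : ∀ {C₁ C₂ : Finset (ℂ × ℂ)}, Net Θ C₁ C₂ →
      ∑ v ∈ C₁.image (fib θ), v ^ k = ∑ b ∈ C₁, fib θ b ^ k := by
    intro C₁ C₂ M
    apply sum_image
    intro b hb b' hb' he
    by_contra hne
    exact M.in1 b hb b' hb' hne θ hθ he
  rw [← h1 N, ← h1 N.symm, himg]

open Polynomial in
theorem Net.moment {Θ : Finset ℂ} {B₁ B₂ : Finset (ℂ × ℂ)} (N : Net Θ B₁ B₂) (i j : ℕ)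
    (hij : i + j < Θ.card) :
    ∑ b ∈ B₁, b.1 ^ i * b.2 ^ j = ∑ b ∈ B₂, b.1 ^ i * b.2 ^ j := by
  classical
  set k := i + j with hk
  let M : ℕ → ℂ := fun a => ∑ b ∈ B₁, b.1 ^ a * b.2 ^ (k - a) - ∑ b ∈ B₂, b.1 ^ a * b.2 ^ (k - a)
  let q : ℂ[X] := ∑ a ∈ range (k + 1), C ((-1) ^ a * (k.choose a : ℂ) * M a) * X ^ a
  have hqd : q.natDegree < Θ.card := by
    apply lt_of_le_of_lt _ hij
    apply natDegree_sum_le_of_forall_le
    intro a ha
    rw [mem_range] at ha
    exact (natDegree_C_mul_X_pow_le _ _).trans (by omega)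
  have hexp : ∀ θ (B : Finset (ℂ × ℂ)), ∑ b ∈ B, fib θ b ^ k
      = ∑ a ∈ range (k + 1), (-1) ^ a * (k.choose a : ℂ) * (∑ b ∈ B, b.1 ^ a * b.2 ^ (k - a)) * θ ^ a := by
    intro θ B
    have h1 : ∀ b : ℂ × ℂ, fib θ b ^ k = ∑ a ∈ range (k + 1),
        (-1) ^ a * (k.choose a : ℂ) * (b.1 ^ a * b.2 ^ (k - a)) * θ ^ a := by
      intro b
      unfold fib
      rw [show b.2 - θ * b.1 = (-(θ * b.1)) + b.2 by ring, add_pow]
      apply sum_congr rfl
      intro a _
      rw [neg_pow, mul_pow]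
      ring
    rw [sum_congr rfl fun b _ => h1 b, sum_comm]
    apply sum_congr rfl
    intro a _
    rw [mul_sum, sum_mul]
  have hev : ∀ θ ∈ Θ, q.eval θ = 0 := by
    intro θ hθ
    have h1 := N.pow_sum hθ k
    rw [hexp, hexp] at h1
    simp only [q, eval_finset_sum, eval_mul, eval_C, eval_pow, eval_X]
    rw [← sub_eq_zero, ← sum_sub_distrib] at h1
    rw [← h1]
    apply sum_congr rfl
    intro a _
    simp only [M]
    ring
  have hq0 : q = 0 := eq_zero_of_natDegree_lt_card_of_eval_eq_zero' q Θ hev hqd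
  have hc : q.coeff i = (-1) ^ i * (k.choose i : ℂ) * M i := by
    simp only [q, finset_sum_coeff, coeff_C_mul_X_pow]
    rw [sum_ite_eq]
    rw [if_pos (by rw [mem_range]; omega)]
  rw [hq0, coeff_zero] at hc
  have hch : (k.choose i : ℂ) ≠ 0 := by
    have := Nat.choose_pos (show i ≤ k by omega)
    exact_mod_cast this.ne'
  have hM : M i = 0 := by
    have h1 := hc.symm
    rcases mul_eq_zero.mp h1 with h2 | h2
    · rcases mul_eq_zero.mp h2 with h3 | h3
      · exact absurd h3 (pow_ne_zero _ (by norm_num))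
      · exact absurd h3 hch
    · exact h2
  simp only [M] at hM
  rw [show k - i = j by omega] at hM
  exact sub_eq_zero.mp hM

/-- Value of an affine function. -/
def aff (L : ℂ × ℂ × ℂ) (z : ℂ × ℂ) : ℂ := L.1 * z.1 + L.2.1 * z.2 + L.2.2

theorem Net.prod_moment {Θ : Finset ℂ} {B₁ B₂ : Finset (ℂ × ℂ)} (N : Net Θ B₁ B₂)
    {ι : Type} (s : Finset ι) (F : ι → ℂ × ℂ × ℂ) :
    ∀ i j : ℕ, i + j + s.card < Θ.card →
      ∑ b ∈ B₁, b.1 ^ i * b.2 ^ j * ∏ t ∈ s, aff (F t) b
        = ∑ b ∈ B₂, b.1 ^ i * b.2 ^ j * ∏ t ∈ s, aff (F t) b := by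
  classical
  induction s using Finset.induction_on with
  | empty =>
    intro i j hij
    simp only [prod_empty, mul_one]
    exact N.moment i j (by simpa using hij)
  | insert a s ha ih =>
    intro i j hij
    rw [card_insert_of_notMem ha] at hij
    have h1 := ih (i + 1) j (by omega)
    have h2 := ih i (j + 1) (by omega)
    have h3 := ih i j (by omega)
    have key : ∀ C : Finset (ℂ × ℂ),
        ∑ b ∈ C, b.1 ^ i * b.2 ^ j * ∏ t ∈ insert a s, aff (F t) b
        = (F a).1 * ∑ b ∈ C, b.1 ^ (i + 1) * b.2 ^ j * ∏ t ∈ s, aff (F t) b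
          + (F a).2.1 * ∑ b ∈ C, b.1 ^ i * b.2 ^ (j + 1) * ∏ t ∈ s, aff (F t) b
          + (F a).2.2 * ∑ b ∈ C, b.1 ^ i * b.2 ^ j * ∏ t ∈ s, aff (F t) b := by
      intro C
      rw [mul_sum, mul_sum, mul_sum, ← sum_add_distrib, ← sum_add_distrib]
      apply sum_congr rfl
      intro b _
      rw [prod_insert ha]
      unfold aff
      ring
    rw [key, key, h1, h2, h3]

/-- The affine function vanishing on the line through two points. -/
def lin2 (a b : ℂ × ℂ) : ℂ × ℂ × ℂ :=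
  (-(b.2 - a.2), b.1 - a.1, -(b.1 - a.1) * a.2 + (b.2 - a.2) * a.1)

/-- Collinearity of three points. -/
def col (a b c : ℂ × ℂ) : Prop := (b.1 - a.1) * (c.2 - a.2) - (b.2 - a.2) * (c.1 - a.1) = 0

theorem aff_lin2 (a b c : ℂ × ℂ) :
    aff (lin2 a b) c = (b.1 - a.1) * (c.2 - a.2) - (b.2 - a.2) * (c.1 - a.1) := by
  unfold aff lin2
  ring

theorem col_of_fib {θ : ℂ} {a b c : ℂ × ℂ} (h1 : fib θ a = fib θ b) (h2 : fib θ a = fib θ c) :
    col a b c := by
  unfold col fib at *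
  linear_combination (b.1 - a.1) * (-h2) - (c.1 - a.1) * (-h1)

theorem fib_of_col {θ : ℂ} {a b c : ℂ × ℂ} (hc : col a b c) (h1 : fib θ a = fib θ b)
    (hne : a ≠ b) : fib θ a = fib θ c := by
  unfold col fib at *
  have hx : b.1 - a.1 ≠ 0 := by
    intro h0
    apply hne
    have h2 : a.1 = b.1 := (sub_eq_zero.mp h0).symm
    refine Prod.ext h2 ?_
    rw [h2] at h1
    linear_combination h1
  apply mul_left_cancel₀ hx
  linear_combination (-1) * hc + (c.1 - a.1) * h1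

theorem col_self_left (a b : ℂ × ℂ) : col a b a := by unfold col; ring
theorem col_self_right (a b : ℂ × ℂ) : col a b b := by unfold col; ring

/-- Three collinear points in the first class force the second class to be collinear. -/
theorem Net.col_of_three {Θ : Finset ℂ} {B₁ B₂ : Finset (ℂ × ℂ)} (N : Net Θ B₁ B₂)
    {a a' a'' : ℂ × ℂ} (ha : a ∈ B₁) (ha' : a' ∈ B₁) (ha'' : a'' ∈ B₁) (h1 : a ≠ a')
    (h2 : a ≠ a'') (h3 : a' ≠ a'') (hcol : col a a' a'')
    {b b' b'' : ℂ × ℂ} (hb : b ∈ B₂) (hb' : b' ∈ B₂) (hb'' : b'' ∈ B₂) (g1 : b ≠ b')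
    (g2 : b ≠ b'') (g3 : b' ≠ b'') : col b b' b'' := by
  classical
  by_contra hnc
  -- a bijection between the remaining points
  set A := ((B₁.erase a).erase a').erase a'' with hA
  set D := ((B₂.erase b).erase b').erase b'' with hD
  have hAc : A.card = Θ.card - 3 := by
    rw [hA, card_erase_of_mem, card_erase_of_mem, card_erase_of_mem ha, N.card1]
    · omega
    · exact mem_erase.mpr ⟨h1.symm, ha'⟩
    · exact mem_erase.mpr ⟨h3.symm, mem_erase.mpr ⟨h2.symm, ha''⟩⟩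
  have hDc : D.card = Θ.card - 3 := by
    rw [hD, card_erase_of_mem, card_erase_of_mem, card_erase_of_mem hb, N.card2]
    · omega
    · exact mem_erase.mpr ⟨g1.symm, hb'⟩
    · exact mem_erase.mpr ⟨g3.symm, mem_erase.mpr ⟨g2.symm, hb''⟩⟩
  let e : A ≃ D := Finset.equivOfCardEq (by rw [hAc, hDc])
  let φ : ℂ × ℂ → ℂ × ℂ := fun z => if hz : z ∈ A then (e ⟨z, hz⟩).1 else z
  have hφ : ∀ z ∈ A, φ z ∈ D := by
    intro z hz
    simp only [φ, dif_pos hz]
    exact (e ⟨z, hz⟩).2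
  have hφs : ∀ w ∈ D, ∃ z ∈ A, φ z = w := by
    intro w hw
    refine ⟨(e.symm ⟨w, hw⟩).1, (e.symm ⟨w, hw⟩).2, ?_⟩
    simp only [φ, dif_pos (e.symm ⟨w, hw⟩).2]
    simp
  let F : ℂ × ℂ → ℂ × ℂ × ℂ := fun z =>
    if z = a then lin2 a a' else if z = a' then lin2 b b' else lin2 z (φ z)
  have hFa : F a = lin2 a a' := by simp [F]
  have hFa' : F a' = lin2 b b' := by simp [F, h1.symm]
  have hFz : ∀ z ∈ A, F z = lin2 z (φ z) := by
    intro z hz
    simp only [hA, mem_erase] at hz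
    simp [F, hz.2.1, hz.2.2.1]
  have hlt : (B₁.erase a'').card < Θ.card := by
    rw [card_erase_of_mem ha'', N.card1]
    have : 0 < B₁.card := card_pos.mpr ⟨a, ha⟩
    rw [N.card1] at this
    omega
  have hmom := N.prod_moment (B₁.erase a'') F 0 0 (by omega)
  simp only [pow_zero, one_mul] at hmom
  have hAmem : ∀ z ∈ A, z ∈ B₁.erase a'' := by
    intro z hz
    simp only [hA, mem_erase] at hz
    exact mem_erase.mpr ⟨hz.1, hz.2.2.2⟩
  have hAB : ∀ z ∈ A, z ∈ B₁ := fun z hz => mem_of_mem_erase (hAmem z hz)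
  have hDB : ∀ z ∈ D, z ∈ B₂ ∧ z ≠ b'' := by
    intro z hz
    simp only [hD, mem_erase] at hz
    exact ⟨hz.2.2.2, hz.1⟩
  have hama : a ∈ B₁.erase a'' := mem_erase.mpr ⟨h2, ha⟩
  have ham' : a' ∈ B₁.erase a'' := mem_erase.mpr ⟨h3, ha'⟩
  -- the sum over the first class vanishes
  have hs1 : ∑ z ∈ B₁, ∏ t ∈ B₁.erase a'', aff (F t) z = 0 := by
    apply sum_eq_zero
    intro z hz
    by_cases hzA : z ∈ A
    · apply prod_eq_zero (hAmem z hzA)
      rw [hFz z hzA, aff_lin2]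
      ring
    · have hz3 : z = a ∨ z = a' ∨ z = a'' := by
        by_contra hcon
        push Not at hcon
        apply hzA
        simp only [hA, mem_erase]
        exact ⟨hcon.2.2, hcon.2.1, hcon.1, hz⟩
      apply prod_eq_zero hama
      rw [hFa, aff_lin2]
      rcases hz3 with rfl | rfl | rfl
      · ring
      · ring
      · exact hcol
  -- only one term survives in the second class
  have hs2 : ∑ w ∈ B₂, ∏ t ∈ B₁.erase a'', aff (F t) w
      = ∏ t ∈ B₁.erase a'', aff (F t) b'' := by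
    apply sum_eq_single_of_mem b'' hb''
    intro w hw hne
    by_cases hwD : w ∈ D
    · obtain ⟨z, hz, hzw⟩ := hφs w hwD
      apply prod_eq_zero (hAmem z hz)
      rw [hFz z hz, aff_lin2, hzw]
      ring
    · have hw3 : w = b ∨ w = b' := by
        by_contra hcon
        push Not at hcon
        apply hwD
        simp only [hD, mem_erase]
        exact ⟨hne, hcon.2, hcon.1, hw⟩
      apply prod_eq_zero ham'
      rw [hFa', aff_lin2]
      rcases hw3 with rfl | rfl
      · ring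
      · ring
  rw [hs1, hs2] at hmom
  obtain ⟨t, ht, ht0⟩ := prod_eq_zero_iff.mp hmom.symm
  by_cases htA : t ∈ A
  · rw [hFz t htA, aff_lin2] at ht0
    have hcl : col t (φ t) b'' := ht0
    have hφD := hDB _ (hφ t htA)
    obtain ⟨θ, hθ, hf⟩ := N.cross t (hAB t htA) (φ t) hφD.1
    have hne : t ≠ φ t := N.ne t (hAB t htA) _ hφD.1
    have hf2 := fib_of_col hcl hf hne
    exact N.in2 (φ t) hφD.1 b'' hb'' hφD.2 θ hθ (hf.symm.trans hf2)
  · have ht3 : t = a ∨ t = a' := by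
      by_contra hcon
      push Not at hcon
      apply htA
      rw [mem_erase] at ht
      simp only [hA, mem_erase]
      exact ⟨ht.1, hcon.2, hcon.1, ht.2⟩
    rcases ht3 with rfl | rfl
    · rw [hFa, aff_lin2] at ht0
      -- `t, a', b''` collinear
      obtain ⟨θ, hθ, hf⟩ := N.cross t ha b'' hb''
      have hcl : col t b'' a' := by
        unfold col
        linear_combination (-1) * ht0
      have hf2 := fib_of_col hcl hf (N.ne t ha b'' hb'')
      exact N.in1 t ha a' ha' h1 θ hθ hf2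
    · rw [hFa', aff_lin2] at ht0
      exact hnc ht0

end Run7.h321
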