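import Pool.Agent.Run7.h321.Proj

set_option autoImplicit false

namespace Run7.h321.Two

open Finset
open Run7.h321 (det3)

section

variable {K : Type*} [Field K]

/-- Two vectors are not proportional. -/
def nc (a b : Fin 3 → K) : Prop :=
  ¬ (a 1 * b 2 - a 2 * b 1 = 0 ∧ a 2 * b 0 - a 0 * b 2 = 0 ∧ a 0 * b 1 - a 1 * b 0 = 0)

theorem solve_comb {m c A x B y : K} (hm : m ≠ 0) (h : c * m = A * x + B * y) :
    c = A / m * x + B / m * y := by
  field_simp
  exact h

theorem exists_comb {a b c : Fin 3 → K} (h : nc a b) (hd : det3 a b c = 0) :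
    ∃ α β : K, ∀ i, c i = α * a i + β * b i := by
  unfold det3 at hd
  by_cases h2 : a 0 * b 1 - a 1 * b 0 = 0
  · by_cases h1 : a 2 * b 0 - a 0 * b 2 = 0
    · have h0 : a 1 * b 2 - a 2 * b 1 ≠ 0 := fun h0 => h ⟨h0, h1, h2⟩
      refine ⟨(c 1 * b 2 - c 2 * b 1) / (a 1 * b 2 - a 2 * b 1),
        (a 1 * c 2 - a 2 * c 1) / (a 1 * b 2 - a 2 * b 1), ?_⟩
      intro i
      fin_cases i <;> simp only [Fin.zero_eta, Fin.mk_one, Fin.reduceFinMk] <;>
        apply solve_comb h0
      · linear_combination hd
      · ring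
      · ring
    · refine ⟨(c 2 * b 0 - c 0 * b 2) / (a 2 * b 0 - a 0 * b 2),
        (a 2 * c 0 - a 0 * c 2) / (a 2 * b 0 - a 0 * b 2), ?_⟩
      intro i
      fin_cases i <;> simp only [Fin.zero_eta, Fin.mk_one, Fin.reduceFinMk] <;>
        apply solve_comb h1
      · ring
      · linear_combination hd
      · ring
  · refine ⟨(c 0 * b 1 - c 1 * b 0) / (a 0 * b 1 - a 1 * b 0),
      (a 0 * c 1 - a 1 * c 0) / (a 0 * b 1 - a 1 * b 0), ?_⟩
    intro i
    fin_cases i <;> simp only [Fin.zero_eta, Fin.mk_one, Fin.reduceFinMk] <;>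
      apply solve_comb h2
    · ring
    · ring
    · linear_combination hd

theorem det3_comb {a b c d : Fin 3 → K} {α β : K} (hc : ∀ i, c i = α * a i + β * b i) :
    det3 a c d = β * det3 a b d := by
  unfold det3
  rw [hc 0, hc 1, hc 2]
  ring

theorem det3_self (a c : Fin 3 → K) : det3 a c c = 0 := by unfold det3; ring
theorem det3_self' (a c : Fin 3 → K) : det3 a c a = 0 := by unfold det3; ring
theorem det3_swap (a b c : Fin 3 → K) : det3 a c b = - det3 a b c := by unfold det3; ring
theorem det3_swap' (a b c : Fin 3 → K) : det3 b a c = - det3 a b c := by unfold det3; ring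

theorem comb_ne_zero {a b c : Fin 3 → K} {α β : K} (hc : ∀ i, c i = α * a i + β * b i)
    (hac : nc a c) : β ≠ 0 := by
  intro h0
  apply hac
  rw [hc 0, hc 1, hc 2, h0]
  refine ⟨?_, ?_, ?_⟩ <;> ring

variable {Γ : Type*} [LinearOrderedCommGroupWithZero Γ] (v : Valuation K Γ)

/-- The positions of the coordinates of maximal value. -/
def pat (x : Fin 3 → K) : Fin 3 → Bool := by
  classical exact fun i => decide (∀ j, v (x j) ≤ v (x i))

/-- Exclusive or of patterns. -/
def px (p q : Fin 3 → Bool) : Fin 3 → Bool := fun i => xor (p i) (q i)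

variable {v}

theorem pat_true {x : Fin 3 → K} {i : Fin 3} : pat v x i = true ↔ ∀ j, v (x j) ≤ v (x i) := by
  unfold pat; simp

theorem pat_false {x : Fin 3 → K} {i : Fin 3} : pat v x i = false ↔ ∃ j, v (x i) < v (x j) := by
  rw [← Bool.not_eq_true, pat_true]; push Not; rfl

theorem pat_exists (x : Fin 3 → K) : ∃ i, pat v x i = true := by
  obtain ⟨i, hi⟩ := Finite.exists_max (fun i => v (x i))
  exact ⟨i, pat_true.mpr hi⟩

theorem pat_eq {z : Fin 3 → K} {p : Fin 3 → Bool} {M : Γ} {i₀ : Fin 3} (h0 : p i₀ = true)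
    (h1 : ∀ i, p i = true → v (z i) = M) (h2 : ∀ i, p i = false → v (z i) < M) :
    pat v z = p := by
  have hle : ∀ i, v (z i) ≤ M := by
    intro i
    cases h : p i with
    | true => exact (h1 i h).le
    | false => exact (h2 i h).le
  funext i
  cases h : p i with
  | true => rw [pat_true]; intro j; rw [h1 i h]; exact hle j
  | false => rw [pat_false]; exact ⟨i₀, by rw [h1 i₀ h0]; exact h2 i h⟩

theorem pat_comb (hF : ∀ x y : K, x ≠ 0 → v x = v y → v (x + y) < v x)
    {x y z : Fin 3 → K} {α β : K} (hx : ∃ i, x i ≠ 0) (hy : ∃ i, y i ≠ 0) (hz : ∃ i, z i ≠ 0)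
    (hc : ∀ i, z i = α * x i + β * y i) (hne : pat v x ≠ pat v y) :
    pat v z = pat v x ∨ pat v z = pat v y ∨ pat v z = px (pat v x) (pat v y) := by
  obtain ⟨ix, hix⟩ := pat_exists (v := v) x
  obtain ⟨iy, hiy⟩ := pat_exists (v := v) y
  have hxl := pat_true.mp hix
  have hyl := pat_true.mp hiy
  have hxt : ∀ i, pat v x i = true → v (x i) = v (x ix) := fun i hi =>
    le_antisymm (hxl i) (pat_true.mp hi ix)
  have hyt : ∀ i, pat v y i = true → v (y i) = v (y iy) := fun i hi =>
    le_antisymm (hyl i) (pat_true.mp hi iy)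
  have hxf : ∀ i, pat v x i = false → v (x i) < v (x ix) := fun i hi => by
    obtain ⟨j, hj⟩ := pat_false.mp hi
    exact lt_of_lt_of_le hj (hxl j)
  have hyf : ∀ i, pat v y i = false → v (y i) < v (y iy) := fun i hi => by
    obtain ⟨j, hj⟩ := pat_false.mp hi
    exact lt_of_lt_of_le hj (hyl j)
  have hMx : 0 < v (x ix) := by
    obtain ⟨i, hi⟩ := hx
    exact lt_of_lt_of_le (zero_lt_iff.mpr ((Valuation.ne_zero_iff v).mpr hi)) (hxl i)
  have hMy : 0 < v (y iy) := by
    obtain ⟨i, hi⟩ := hy
    exact lt_of_lt_of_le (zero_lt_iff.mpr ((Valuation.ne_zero_iff v).mpr hi)) (hyl i)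
  rcases lt_trichotomy (v β * v (y iy)) (v α * v (x ix)) with hlt | heq | hgt
  · left
    have hα : 0 < v α := by
      rw [zero_lt_iff]
      intro h0
      rw [h0, zero_mul] at hlt
      exact not_lt_zero hlt
    apply pat_eq (M := v α * v (x ix)) hix
    · intro i hi
      rw [hc i]
      have h1 : v (β * y i) < v (α * x i) := by
        rw [map_mul, map_mul, hxt i hi]
        exact lt_of_le_of_lt (mul_le_mul_right (hyl i) _) hlt
      rw [v.map_add_eq_of_lt_left h1, map_mul, hxt i hi]
    · intro i hi
      rw [hc i]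
      apply v.map_add_lt
      · rw [map_mul]; exact mul_lt_mul_of_pos_left (hxf i hi) hα
      · rw [map_mul]; exact lt_of_le_of_lt (mul_le_mul_right (hyl i) _) hlt
  · right; right
    have hα : 0 < v α := by
      rw [zero_lt_iff]
      intro h0
      rw [h0, zero_mul] at heq
      have hβ : v β = 0 := (mul_eq_zero.mp heq).resolve_right hMy.ne'
      obtain ⟨i, hi⟩ := hz
      apply hi
      rw [hc i, (Valuation.zero_iff v).mp h0, (Valuation.zero_iff v).mp hβ]; ring
    have hβ : 0 < v β := by
      rw [zero_lt_iff]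
      intro h0
      rw [h0, zero_mul] at heq
      exact (mul_pos hα hMx).ne heq
    obtain ⟨i₀, hi₀⟩ : ∃ i₀, pat v x i₀ ≠ pat v y i₀ := by
      by_contra hcon
      push Not at hcon
      exact hne (funext hcon)
    have hi₀' : px (pat v x) (pat v y) i₀ = true := by
      unfold px
      cases h1 : pat v x i₀ <;> cases h2 : pat v y i₀ <;> simp_all
    apply pat_eq (M := v α * v (x ix)) hi₀'
    · intro i hi
      rw [hc i]
      unfold px at hi
      cases h1 : pat v x i <;> cases h2 : pat v y i <;> rw [h1, h2] at hi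
      · simp at hi
      · have h3 : v (α * x i) < v (β * y i) := by
          rw [map_mul, map_mul, hyt i h2, heq]
          exact mul_lt_mul_of_pos_left (hxf i h1) hα
        rw [v.map_add_eq_of_lt_right h3, map_mul, hyt i h2, heq]
      · have h3 : v (β * y i) < v (α * x i) := by
          rw [map_mul, map_mul, hxt i h1, ← heq]
          exact mul_lt_mul_of_pos_left (hyf i h2) hβ
        rw [v.map_add_eq_of_lt_left h3, map_mul, hxt i h1]
      · simp at hi
    · intro i hi
      rw [hc i]
      unfold px at hi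
      cases h1 : pat v x i <;> cases h2 : pat v y i <;> rw [h1, h2] at hi
      · apply v.map_add_lt
        · rw [map_mul]; exact mul_lt_mul_of_pos_left (hxf i h1) hα
        · rw [map_mul, ← heq]; exact mul_lt_mul_of_pos_left (hyf i h2) hβ
      · simp at hi
      · simp at hi
      · have h3 : v (α * x i) = v α * v (x ix) := by rw [map_mul, hxt i h1]
        have h4 : v (β * y i) = v α * v (x ix) := by rw [map_mul, hyt i h2, heq]
        rw [← h3]
        apply hF
        · rw [Ne, ← Valuation.zero_iff v, h3]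
          exact (mul_pos hα hMx).ne'
        · rw [h3, h4]
  · right; left
    have hβ : 0 < v β := by
      rw [zero_lt_iff]
      intro h0
      rw [h0, zero_mul] at hgt
      exact not_lt_zero hgt
    apply pat_eq (M := v β * v (y iy)) hiy
    · intro i hi
      rw [hc i]
      have h1 : v (α * x i) < v (β * y i) := by
        rw [map_mul, map_mul, hyt i hi]
        exact lt_of_le_of_lt (mul_le_mul_right (hxl i) _) hgt
      rw [v.map_add_eq_of_lt_right h1, map_mul, hyt i hi]
    · intro i hi
      rw [hc i]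
      apply v.map_add_lt
      · rw [map_mul]; exact lt_of_le_of_lt (mul_le_mul_right (hxl i) _) hgt
      · rw [map_mul]; exact mul_lt_mul_of_pos_left (hyf i hi) hβ

/-- A finite set of points all of whose connecting lines are odd. -/
structure Sys {ι : Type} [Fintype ι] [DecidableEq ι] [DecidableEq K] (X : ι → Fin 3 → K) :
    Prop where
  nz : ∀ i, ∃ k, X i k ≠ 0
  nc : ∀ i j, i ≠ j → nc (X i) (X j)
  odd : ∀ i j, i ≠ j → Odd (univ.filter fun k => det3 (X i) (X j) (X k) = 0).card

variable {ι : Type} [Fintype ι] [DecidableEq ι] [DecidableEq K] {X : ι → Fin 3 → K}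

theorem Sys.line_eq (S : Sys X) {t s s' : ι} (hs : s ≠ t) (hs' : s' ≠ t)
    (hd : det3 (X t) (X s) (X s') = 0) (k : ι) :
    det3 (X t) (X s') (X k) = 0 ↔ det3 (X t) (X s) (X k) = 0 := by
  obtain ⟨α, β, hc⟩ := exists_comb (S.nc t s hs.symm) hd
  have hβ := comb_ne_zero hc (S.nc t s' hs'.symm)
  rw [det3_comb hc, mul_eq_zero]
  constructor
  · rintro (h | h)
    · exact absurd h hβ
    · exact h
  · intro h; exact Or.inr h

theorem Sys.even_union (S : Sys X) (t : ι) (U : Finset ι) (htU : t ∉ U)
    (hU : ∀ s ∈ U, ∀ s', s' ≠ t → det3 (X t) (X s) (X s') = 0 → s' ∈ U) : Even U.card := by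
  let f : ι → Finset ι := fun s => univ.filter fun k => det3 (X t) (X s) (X k) = 0
  rw [card_eq_sum_card_image f U]
  apply Finset.even_sum
  intro lam hlam
  obtain ⟨s, hs, rfl⟩ := mem_image.mp hlam
  have hst : s ≠ t := fun h => htU (h ▸ hs)
  have heq : (U.filter fun s' => f s' = f s) = (f s).erase t := by
    ext s'
    rw [mem_filter, mem_erase]
    constructor
    · rintro ⟨h1, h2⟩
      refine ⟨fun h => htU (h ▸ h1), ?_⟩
      rw [← h2]
      simp only [f, mem_filter, mem_univ, true_and]
      exact det3_self _ _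
    · rintro ⟨h1, h2⟩
      simp only [f, mem_filter, mem_univ, true_and] at h2
      refine ⟨hU s hs s' h1 h2, ?_⟩
      ext k
      simp only [f, mem_filter, mem_univ, true_and]
      exact S.line_eq hst h1 h2 k
  rw [heq, card_erase_of_mem (by
    simp only [f, mem_filter, mem_univ, true_and]; exact det3_self' _ _)]
  have := S.odd t s hst.symm
  obtain ⟨m, hm⟩ := this
  refine ⟨m, ?_⟩
  simp only [f]
  omega

theorem even_pairs (s : Finset (ι × ι)) (hs : ∀ q ∈ s, q.swap ∈ s) (hne : ∀ q ∈ s, q.1 ≠ q.2) :
    Even s.card := by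
  have h : ∑ _q ∈ s, (1 : ZMod 2) = 0 := by
    apply Finset.sum_involution (fun q _ => q.swap)
    · intro q _; decide
    · intro q hq _ h
      apply hne q hq
      exact (congrArg Prod.fst h).symm
    · intro q _; simp
    · intro q hq; exact hs q hq
  rw [sum_const, nsmul_eq_mul, mul_one, ZMod.natCast_eq_zero_iff_even] at h
  exact h

variable (v X) in
/-- The points with a given pattern. -/
def cls (p : Fin 3 → Bool) : Finset ι := univ.filter fun t => pat v (X t) = p

omit [DecidableEq ι] [DecidableEq K] in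
theorem mem_cls {p : Fin 3 → Bool} {t : ι} : t ∈ cls v X p ↔ pat v (X t) = p := by
  unfold cls; simp

theorem px_px (p q : Fin 3 → Bool) : px q (px p q) = p := by
  funext i; unfold px; cases p i <;> cases q i <;> rfl

theorem px_comm (p q : Fin 3 → Bool) : px p q = px q p := by
  funext i; unfold px; cases p i <;> cases q i <;> rfl

theorem Sys.flat (hF : ∀ x y : K, x ≠ 0 → v x = v y → v (x + y) < v x) (S : Sys X)
    {p q : Fin 3 → Bool} (hpq : p ≠ q) (hp : ∃ i, p i = true) (hq : Odd (cls v X q).card) :
    Even ((cls v X p).card + (cls v X (px p q)).card) := by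
  set r := px p q with hr
  have hqr : q ≠ r := by
    intro h
    obtain ⟨i, hi⟩ := hp
    have := congrFun h i
    rw [hr] at this
    unfold px at this
    rw [hi] at this
    cases h' : q i <;> rw [h'] at this <;> simp at this
  have hpr : p ≠ r := by
    intro h
    obtain ⟨t, ht⟩ : (cls v X q).Nonempty := by
      rw [← card_pos]; exact hq.pos
    obtain ⟨i, hi⟩ := pat_exists (v := v) (X t)
    rw [mem_cls.mp ht] at hi
    have := congrFun h i
    rw [hr] at this
    unfold px at this
    rw [hi] at this
    cases h' : p i <;> rw [h'] at this <;> simp at this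
  -- the three patterns on a line through points of patterns `q` and `p` or `r`
  have hthree : ∀ t s u : ι, pat v (X t) = q → (pat v (X s) = p ∨ pat v (X s) = r) → s ≠ t →
      det3 (X t) (X s) (X u) = 0 →
      pat v (X u) = q ∨ pat v (X u) = p ∨ pat v (X u) = r := by
    intro t s u ht hs hst hd
    obtain ⟨α, β, hc⟩ := exists_comb (S.nc t s hst.symm) hd
    rcases hs with hs | hs
    · have := pat_comb hF (S.nz t) (S.nz s) (S.nz u) hc (by rw [ht, hs]; exact hpq.symm)
      rw [ht, hs] at this
      rcases this with h | h | h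
      · exact Or.inl h
      · exact Or.inr (Or.inl h)
      · right; right; rw [h, hr, px_comm]
    · have := pat_comb hF (S.nz t) (S.nz s) (S.nz u) hc (by rw [ht, hs]; exact hqr)
      rw [ht, hs] at this
      rcases this with h | h | h
      · exact Or.inl h
      · exact Or.inr (Or.inr h)
      · right; left; rw [h, hr]; exact px_px p q
  let E : ι → ι → Prop := fun t s => ∃ u, (pat v (X u) = p ∨ pat v (X u) = r) ∧
    det3 (X t) (X s) (X u) = 0
  classical
  let W : ι → Finset ι := fun t => (cls v X q).filter fun s => s ≠ t ∧ E t s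
  have hpt : ∀ t ∈ cls v X q, ∀ u, (pat v (X u) = p ∨ pat v (X u) = r) → u ≠ t := by
    rintro t ht u hu rfl
    rw [mem_cls] at ht
    rcases hu with h | h
    · exact hpq (h.symm.trans ht)
    · exact hqr (ht.symm.trans h)
  have hdisj : Disjoint (cls v X p) (cls v X r) := by
    rw [disjoint_left]
    intro s h1 h2
    rw [mem_cls] at h1 h2
    exact hpr (h1.symm.trans h2)
  have hdisj2 : ∀ t, Disjoint (cls v X p ∪ cls v X r) (W t) := by
    intro t
    rw [disjoint_left]
    intro s h1 h2
    rw [mem_union, mem_cls, mem_cls] at h1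
    have h3 := (mem_filter.mp h2).1
    rw [mem_cls] at h3
    rcases h1 with h1 | h1
    · exact hpq (h1.symm.trans h3)
    · exact hqr (h3.symm.trans h1)
  have hW : ∀ t ∈ cls v X q, Even ((cls v X p).card + (cls v X r).card + (W t).card) := by
    intro t ht
    rw [← card_union_of_disjoint hdisj, ← card_union_of_disjoint (hdisj2 t)]
    have htq := mem_cls.mp ht
    apply S.even_union t
    · intro h
      rw [mem_union] at h
      rcases h with h | h
      · rw [mem_union, mem_cls, mem_cls] at h
        exact hpt t ht t h rfl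
      · exact (mem_filter.mp h).2.1 rfl
    · -- closure
      have hclose : ∀ s, (pat v (X s) = p ∨ pat v (X s) = r) → ∀ s', s' ≠ t →
          det3 (X t) (X s) (X s') = 0 → s' ∈ cls v X p ∪ cls v X r ∪ W t := by
        intro s hs s' hs' hd
        have hst := hpt t ht s hs
        rcases hthree t s s' htq hs hst hd with h | h | h
        · apply mem_union_right
          rw [mem_filter, mem_cls]
          refine ⟨h, hs', s, hs, ?_⟩
          rw [det3_swap, hd, neg_zero]
        · exact mem_union_left _ (mem_union_left _ (mem_cls.mpr h))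
        · exact mem_union_left _ (mem_union_right _ (mem_cls.mpr h))
      intro s hs s' hs' hd
      rw [mem_union] at hs
      rcases hs with hs | hs
      · rw [mem_union, mem_cls, mem_cls] at hs
        exact hclose s hs s' hs' hd
      · obtain ⟨h1, h2, u, hu, hdu⟩ := mem_filter.mp hs
        apply hclose u hu s' hs'
        exact (S.line_eq h2 (hpt t ht u hu) hdu s').mpr hd
  have hsum : Even (∑ t ∈ cls v X q, ((cls v X p).card + (cls v X r).card + (W t).card)) :=
    Finset.even_sum _ hW
  rw [sum_add_distrib, sum_const, smul_eq_mul] at hsum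
  have hpairs : Even (∑ t ∈ cls v X q, (W t).card) := by
    have h1 : ∑ t ∈ cls v X q, (W t).card
        = (((cls v X q) ×ˢ (cls v X q)).filter fun z => z.2 ≠ z.1 ∧ E z.1 z.2).card := by
      rw [card_filter, sum_product]
      apply sum_congr rfl
      intro t _
      simp only [W]
      rw [card_filter]
    rw [h1]
    apply even_pairs
    · rintro ⟨t, s⟩ hz
      simp only [mem_filter, mem_product] at hz
      simp only [Prod.swap_prod_mk, mem_filter, mem_product]
      obtain ⟨⟨h1, h2⟩, h3, u, hu, hd⟩ := hz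
      refine ⟨⟨h2, h1⟩, h3.symm, u, hu, ?_⟩
      rw [det3_swap', hd, neg_zero]
    · rintro ⟨t, s⟩ hz
      exact (mem_filter.mp hz).2.1.symm
  rw [Nat.even_add] at hsum
  have h2 := hsum.mpr hpairs
  rw [Nat.even_mul] at h2
  rcases h2 with h2 | h2
  · exact absurd h2 (Nat.not_even_iff_odd.mpr hq)
  · exact h2

end

end Run7.h321.Two
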