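import Pool.Agent.Run7.h321.Connect

set_option autoImplicit false

namespace Run7.h321.Two

open Finset
open Run7.h321 (det3)

section

variable {K : Type*} [Field K] {Γ : Type*} [LinearOrderedCommGroupWithZero Γ]
variable {v : Valuation K Γ} {w : K}
variable {ι : Type} [Fintype ι] [DecidableEq ι] [DecidableEq K] {X : ι → Fin 3 → K}

/-- Nested odd balls. -/
theorem exists_nested (V : Finset ι) (hV : Odd V.card) (R : ℕ → ι → ι → Prop)
    (hrefl : ∀ k t, R k t t) (hsymm : ∀ k t s, R k t s → R k s t)
    (htrans : ∀ k t s u, R k t s → R k s u → R k t u)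
    (hmono : ∀ k t s, R (k + 1) t s → R k t s) (htot : ∀ t ∈ V, ∀ s ∈ V, R 0 t s) :
    ∃ s ∈ V, ∀ k, ∀ U : Finset ι, (∀ t, t ∈ U ↔ t ∈ V ∧ R k t s) → Odd U.card := by
  classical
  let b : ℕ → ι → Finset ι := fun k s => V.filter fun t => R k t s
  have hmono' : ∀ k n t s, R (k + n) t s → R k t s := by
    intro k n
    induction n with
    | zero => intro t s h; exact h
    | succ n ih => intro t s h; exact ih t s (hmono _ t s h)
  have step : ∀ n, ∃ s ∈ V, ∀ k, k ≤ n → Odd (b k s).card := by
    intro n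
    induction n with
    | zero =>
      obtain ⟨s, hs⟩ : V.Nonempty := by rw [← card_pos]; exact hV.pos
      refine ⟨s, hs, ?_⟩
      intro k hk
      have : b k s = V := by
        simp only [b]
        apply filter_true_of_mem
        intro t ht
        rw [Nat.le_zero.mp hk]
        exact htot t ht s hs
      rw [this]
      exact hV
    | succ n ih =>
      obtain ⟨s, hs, hodd⟩ := ih
      obtain ⟨s', hs', hodd'⟩ : ∃ s' ∈ b n s, Odd (b (n + 1) s').card := by
        by_contra hcon
        push Not at hcon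
        have h1 := hodd n le_rfl
        rw [card_eq_sum_card_image (b (n + 1)) (b n s)] at h1
        apply Nat.not_even_iff_odd.mpr h1
        apply Finset.even_sum
        intro lam hlam
        obtain ⟨s', hs', rfl⟩ := mem_image.mp hlam
        have h2 := hcon s' hs'
        rw [Nat.not_odd_iff_even] at h2
        have heq : ((b n s).filter fun t => b (n + 1) t = b (n + 1) s') = b (n + 1) s' := by
          ext t
          simp only [b, mem_filter] at hs' ⊢
          constructor
          · rintro ⟨⟨h3, h4⟩, h5⟩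
            have : t ∈ V.filter fun t_1 => R (n + 1) t_1 t := mem_filter.mpr ⟨h3, hrefl _ _⟩
            rw [h5] at this
            exact mem_filter.mp this
          · rintro ⟨h3, h4⟩
            refine ⟨⟨h3, htrans _ _ _ _ (hmono _ _ _ h4) hs'.2⟩, ?_⟩
            ext u
            simp only [mem_filter]
            constructor
            · rintro ⟨h5, h6⟩
              exact ⟨h5, htrans _ _ _ _ h6 h4⟩
            · rintro ⟨h5, h6⟩
              exact ⟨h5, htrans _ _ _ _ h6 (hsymm _ _ _ h4)⟩
        rw [heq]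
        exact h2
      refine ⟨s', (mem_filter.mp hs').1, ?_⟩
      intro k hk
      rcases Nat.lt_or_ge n k with h | h
      · have : k = n + 1 := by omega
        rw [this]; exact hodd'
      · have h3 : R k s' s := by
          obtain ⟨m, rfl⟩ := Nat.exists_eq_add_of_le h
          exact hmono' k m _ _ (mem_filter.mp hs').2
        have : b k s' = b k s := by
          ext t
          simp only [b, mem_filter]
          constructor
          · rintro ⟨h4, h5⟩
            exact ⟨h4, htrans _ _ _ _ h5 h3⟩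
          · rintro ⟨h4, h5⟩
            exact ⟨h4, htrans _ _ _ _ h5 (hsymm _ _ _ h3)⟩
        rw [this]
        exact hodd k h
  have hb : ∀ k s (U : Finset ι), (∀ t, t ∈ U ↔ t ∈ V ∧ R k t s) → U = b k s := by
    intro k s U hU
    ext t
    rw [hU t]
    simp only [b, mem_filter]
  by_contra hcon
  push Not at hcon
  have hcon' : ∀ s, s ∈ V → ∃ k, ¬ Odd (b k s).card := by
    intro s hs
    obtain ⟨k, U, hU, ho⟩ := hcon s hs
    refine ⟨k, ?_⟩
    rw [← hb k s U hU]
    exact ho
  choose! kk hkk using hcon'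
  obtain ⟨n, hn⟩ : ∃ n, ∀ s, kk s ≤ n := by
    obtain ⟨n, hn⟩ := (Set.finite_range kk).bddAbove
    exact ⟨n, fun s => hn ⟨s, rfl⟩⟩
  obtain ⟨s, hs, ho⟩ := step n
  exact hkk s hs (ho _ (hn s))

/-- Swapping the first two coordinates. -/
theorem Sys.swap (S : Sys X) : Sys (fun t => ![X t 1, X t 0, X t 2]) := by
  constructor
  · intro i
    obtain ⟨k, hk⟩ := S.nz i
    fin_cases k
    · exact ⟨1, hk⟩
    · exact ⟨0, hk⟩
    · exact ⟨2, hk⟩
  · intro i j hij h
    apply S.nc i j hij
    obtain ⟨h0, h1, h2⟩ := h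
    simp only [Matrix.cons_val_zero, Matrix.cons_val_one, Matrix.cons_val] at h0 h1 h2
    refine ⟨?_, ?_, ?_⟩
    · linear_combination -h1
    · linear_combination -h0
    · linear_combination -h2
  · intro i j hij
    have h := S.odd i j hij
    have e : (univ.filter fun k => det3 ![X i 1, X i 0, X i 2]
        ![X j 1, X j 0, X j 2] ![X k 1, X k 0, X k 2] = 0)
        = univ.filter fun k => det3 (X i) (X j) (X k) = 0 := by
      ext k
      simp only [mem_filter, mem_univ, true_and]
      have : det3 ![X i 1, X i 0, X i 2] ![X j 1, X j 0, X j 2]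
          ![X k 1, X k 0, X k 2] = - det3 (X i) (X j) (X k) := by
        unfold det3
        simp only [Matrix.cons_val_zero, Matrix.cons_val_one, Matrix.cons_val]
        ring
      rw [this, neg_eq_zero]
    rw [e]
    exact h

/-- The pair theorem in general coordinates. -/
theorem frame_pair (D : DV v w) (S : Sys X) {s h h' : ι} {σ₀ σ₁ θ₁ θ₂ : K}
    (hs0 : X s 0 = σ₀ * X s 2) (hs1 : X s 1 = σ₁ * X s 2) (hs2 : X s 2 ≠ 0)
    (hσ0 : v σ₀ < 1) (hσ1 : v σ₁ < 1)
    (hh1 : X h 1 = θ₁ * X h 0) (hh2 : X h 2 = θ₂ * X h 0) (hh0 : X h 0 ≠ 0)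
    (hθ1 : v θ₁ ≤ 1) (hθ2 : v θ₂ ≤ 1)
    (hball : ∀ k : ℕ, 1 ≤ k → ∀ U : Finset ι, (∀ t, t ∈ U ↔
      (v (X t 0 - σ₀ * X t 2) ≤ v w ^ k * v (X t 2) ∧
        v (X t 1 - σ₁ * X t 2) ≤ v w ^ k * v (X t 2))) → Odd U.card)
    (hcl : ∀ t, v (X t 1 - θ₁ * X t 0) < v (X t 0) → v (X t 2 - θ₂ * X t 0) < v (X t 0) → t = h)
    (hcl' : ∀ t, v (X t 1 - θ₁ * X t 0) < v (X t 0) → v (X t 2 - θ₂ * X t 0) = v (X t 0) →
      t = h') :
    det3 (X s) (X h) (X h') = 0 := by
  set κ : K := 1 - σ₀ * θ₂ with hκ
  have hvσθ : v (σ₀ * θ₂) < 1 := by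
    rw [map_mul]
    exact lt_of_le_of_lt (mul_le_of_le_one_right' hθ2) hσ0
  have hvκ : v κ = 1 := by
    rw [hκ, v.map_sub_eq_of_lt_left (by rw [map_one]; exact hvσθ), map_one]
  have hκ0 : κ ≠ 0 := by
    intro h0
    rw [h0, map_zero] at hvκ
    exact zero_ne_one hvκ
  let fA : (Fin 3 → K) → K := fun z => z 2 - θ₂ * z 0
  let fB : (Fin 3 → K) → K := fun z => z 0 - σ₀ * z 2
  let fC : (Fin 3 → K) → K := fun z =>
    (σ₁ * θ₂ - θ₁) * z 0 + κ * z 1 + (σ₀ * θ₁ - σ₁) * z 2
  let Y : ι → Fin 3 → K := fun t => ![fA (X t), fB (X t), fC (X t)]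
  have hdet : ∀ a b c : Fin 3 → K, det3 ![fA a, fB a, fC a] ![fA b, fB b, fC b]
      ![fA c, fB c, fC c] = κ ^ 2 * det3 a b c := by
    intro a b c
    unfold det3
    simp only [Matrix.cons_val_zero, Matrix.cons_val_one, Matrix.cons_val, fA, fB, fC, hκ]
    ring
  have hYz : ∀ t, fA (X t) = 0 → fB (X t) = 0 → fC (X t) = 0 → False := by
    intro t h1 h2 h3
    simp only [fA, fB, fC] at h1 h2 h3
    have e0 : X t 0 = 0 := by
      apply (mul_eq_zero.mp (show κ * X t 0 = 0 by rw [hκ]; linear_combination h2 + σ₀ * h1)).resolve_left hκ0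
    have e2 : X t 2 = 0 := by rw [e0] at h1; linear_combination h1
    have e1 : X t 1 = 0 := by
      rw [e0, e2] at h3
      apply (mul_eq_zero.mp (show κ * X t 1 = 0 by linear_combination h3)).resolve_left hκ0
    obtain ⟨k, hk⟩ := S.nz t
    fin_cases k
    · exact hk e0
    · exact hk e1
    · exact hk e2
  have SY : Sys Y := by
    constructor
    · intro i
      by_contra hcon
      push Not at hcon
      exact hYz i (hcon 0) (hcon 1) (hcon 2)
    · intro i j hij hn
      apply S.nc i j hij
      obtain ⟨h0, h1, h2⟩ := hn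
      have hz : ∀ c : Fin 3 → K, det3 (X i) (X j) c = 0 := by
        intro c
        have h4 : det3 (Y i) (Y j) ![fA c, fB c, fC c] = 0 := by
          unfold det3
          simp only [Matrix.cons_val_zero, Matrix.cons_val_one, Matrix.cons_val]
          linear_combination fA c * h0 + fB c * h1 + fC c * h2
        rw [show det3 (Y i) (Y j) ![fA c, fB c, fC c] = κ ^ 2 * det3 (X i) (X j) c from
          hdet _ _ _] at h4
        exact (mul_eq_zero.mp h4).resolve_left (pow_ne_zero 2 hκ0)
      have z0 := hz ![1, 0, 0]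
      have z1 := hz ![0, 1, 0]
      have z2 := hz ![0, 0, 1]
      unfold det3 at z0 z1 z2
      simp only [Matrix.cons_val_zero, Matrix.cons_val_one, Matrix.cons_val] at z0 z1 z2
      refine ⟨?_, ?_, ?_⟩
      · linear_combination z0
      · linear_combination z1
      · linear_combination z2
    · intro i j hij
      have ho := S.odd i j hij
      have e : (univ.filter fun k => det3 (Y i) (Y j) (Y k) = 0)
          = univ.filter fun k => det3 (X i) (X j) (X k) = 0 := by
        ext k
        simp only [mem_filter, mem_univ, true_and]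
        rw [show det3 (Y i) (Y j) (Y k) = κ ^ 2 * det3 (X i) (X j) (X k) from hdet _ _ _,
          mul_eq_zero]
        constructor
        · rintro (h1 | h1)
          · exact absurd h1 (pow_ne_zero 2 hκ0)
          · exact h1
        · intro h1; exact Or.inr h1
      rw [e]
      exact ho
  have hc1 : v (σ₁ * θ₂ - θ₁) ≤ 1 := by
    apply v.map_sub_le _ hθ1
    rw [map_mul]; exact mul_le_one' hσ1.le hθ2
  have hc2 : v (σ₀ * θ₁ - σ₁) ≤ 1 := by
    apply v.map_sub_le _ hσ1.le
    rw [map_mul]; exact mul_le_one' hσ0.le hθ1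
  have hkey := pair_zero (X := Y) D SY ?_ (h := h) (h' := h') ?_ ?_ ?_ ?_
  · -- conclusion
    have e : det3 (X s) (X h) (X h') = X s 2 * X h 0 * fC (X h') := by
      unfold det3
      simp only [fC, hκ]
      rw [hs0, hs1, hh1, hh2]
      ring
    rw [e]
    have : fC (X h') = 0 := hkey
    rw [this, mul_zero]
  · intro k hk
    apply hball k hk
    intro t
    simp only [mem_filter, mem_univ, true_and]
    change (v (fB (X t)) ≤ v w ^ k * v (fA (X t)) ∧ v (fC (X t)) ≤ v w ^ k * v (fA (X t))) ↔ _
    have hwk : v w ^ k < 1 := pow_lt_one₀ zero_le D.lt (by omega)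
    have eA : fA (X t) = κ * X t 2 - θ₂ * fB (X t) := by
      simp only [fA, fB, hκ]; ring
    have eC : fC (X t) = (σ₁ * θ₂ - θ₁) * fB (X t) + κ * (X t 1 - σ₁ * X t 2) := by
      simp only [fB, fC, hκ]; ring
    constructor
    · rintro ⟨h1, h2⟩
      have hA0 : fA (X t) ≠ 0 := by
        intro h0
        rw [h0, map_zero, mul_zero] at h1 h2
        exact hYz t h0 ((Valuation.zero_iff v).mp (le_antisymm h1 zero_le))
          ((Valuation.zero_iff v).mp (le_antisymm h2 zero_le))
      have hApos : 0 < v (fA (X t)) := zero_lt_iff.mpr ((Valuation.ne_zero_iff v).mpr hA0)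
      have hlt : v (θ₂ * fB (X t)) < v (fA (X t)) := by
        rw [map_mul]
        calc v θ₂ * v (fB (X t)) ≤ v (fB (X t)) := mul_le_of_le_one_left' hθ2
          _ ≤ v w ^ k * v (fA (X t)) := h1
          _ < 1 * v (fA (X t)) := mul_lt_mul_of_pos_right hwk hApos
          _ = v (fA (X t)) := one_mul _
      have hX2 : v (X t 2) = v (fA (X t)) := by
        have : κ * X t 2 = fA (X t) + θ₂ * fB (X t) := by rw [eA]; ring
        have h3 := congrArg v this
        rw [map_mul, hvκ, one_mul, v.map_add_eq_of_lt_left hlt] at h3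
        exact h3
      refine ⟨by rw [hX2]; exact h1, ?_⟩
      have h4 : κ * (X t 1 - σ₁ * X t 2) = fC (X t) - (σ₁ * θ₂ - θ₁) * fB (X t) := by
        rw [eC]; ring
      have h5 := congrArg v h4
      rw [map_mul, hvκ, one_mul] at h5
      rw [h5, hX2]
      apply v.map_sub_le h2
      rw [map_mul]
      exact (mul_le_of_le_one_left' hc1).trans h1
    · rintro ⟨h1, h2⟩
      have h20 : X t 2 ≠ 0 := by
        intro h0
        rw [h0] at h1 h2
        rw [map_zero, mul_zero, mul_zero, sub_zero] at h1 h2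
        have e0 := (Valuation.zero_iff v).mp (le_antisymm h1 zero_le)
        have e1 := (Valuation.zero_iff v).mp (le_antisymm h2 zero_le)
        obtain ⟨m, hm⟩ := S.nz t
        fin_cases m
        · exact hm e0
        · exact hm e1
        · exact hm h0
      have hpos : 0 < v (X t 2) := zero_lt_iff.mpr ((Valuation.ne_zero_iff v).mpr h20)
      have hB : v (fB (X t)) ≤ v w ^ k * v (X t 2) := h1
      have hA : v (fA (X t)) = v (X t 2) := by
        rw [eA, v.map_sub_eq_of_lt_left, map_mul, hvκ, one_mul]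
        rw [map_mul, map_mul, hvκ, one_mul]
        calc v θ₂ * v (fB (X t)) ≤ v (fB (X t)) := mul_le_of_le_one_left' hθ2
          _ ≤ v w ^ k * v (X t 2) := hB
          _ < 1 * v (X t 2) := mul_lt_mul_of_pos_right hwk hpos
          _ = v (X t 2) := one_mul _
      refine ⟨by rw [hA]; exact hB, ?_⟩
      rw [hA, eC]
      apply v.map_add_le
      · rw [map_mul]; exact (mul_le_of_le_one_left' hc1).trans hB
      · rw [map_mul, hvκ, one_mul]; exact h2
  · change fA (X h) = 0
    simp only [fA]; rw [hh2]; ring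
  · change fC (X h) = 0
    simp only [fC, hκ]
    rw [hh1, hh2]; ring
  · intro t h1 h2
    change v (fA (X t)) < v (fB (X t)) at h1
    change v (fC (X t)) < v (fB (X t)) at h2
    have eB : fB (X t) = κ * X t 0 - σ₀ * fA (X t) := by simp only [fA, fB, hκ]; ring
    have hBpos : 0 < v (fB (X t)) := lt_of_le_of_lt zero_le h1
    have hlt : v (σ₀ * fA (X t)) < v (fB (X t)) := by
      rw [map_mul]
      exact lt_of_le_of_lt (mul_le_of_le_one_left' hσ0.le) h1
    have hX0 : v (X t 0) = v (fB (X t)) := by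
      have : κ * X t 0 = fB (X t) + σ₀ * fA (X t) := by rw [eB]; ring
      have h3 := congrArg v this
      rw [map_mul, hvκ, one_mul, v.map_add_eq_of_lt_left hlt] at h3
      exact h3
    apply hcl t
    · have e : κ * (X t 1 - θ₁ * X t 0) = fC (X t) - (σ₀ * θ₁ - σ₁) * fA (X t) := by
        simp only [fA, fC, hκ]; ring
      have h3 := congrArg v e
      rw [map_mul, hvκ, one_mul] at h3
      rw [h3, hX0]
      apply v.map_sub_lt h2
      rw [map_mul]
      exact lt_of_le_of_lt (mul_le_of_le_one_left' hc2) h1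
    · rw [hX0]; exact h1
  · intro t h1 h2
    change v (fA (X t)) = v (fB (X t)) at h1
    change v (fC (X t)) < v (fA (X t)) at h2
    have eB : fB (X t) = κ * X t 0 - σ₀ * fA (X t) := by simp only [fA, fB, hκ]; ring
    have hApos : 0 < v (fA (X t)) := lt_of_le_of_lt zero_le h2
    have hlt : v (σ₀ * fA (X t)) < v (fB (X t)) := by
      rw [map_mul, ← h1]
      calc v σ₀ * v (fA (X t)) < 1 * v (fA (X t)) := mul_lt_mul_of_pos_right hσ0 hApos
        _ = v (fA (X t)) := one_mul _
    have hX0 : v (X t 0) = v (fA (X t)) := by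
      have : κ * X t 0 = fB (X t) + σ₀ * fA (X t) := by rw [eB]; ring
      have h3 := congrArg v this
      rw [map_mul, hvκ, one_mul, v.map_add_eq_of_lt_left hlt, ← h1] at h3
      exact h3
    apply hcl' t
    · have e : κ * (X t 1 - θ₁ * X t 0) = fC (X t) - (σ₀ * θ₁ - σ₁) * fA (X t) := by
        simp only [fA, fC, hκ]; ring
      have h3 := congrArg v e
      rw [map_mul, hvκ, one_mul] at h3
      rw [h3, hX0]
      apply v.map_sub_lt h2
      rw [map_mul]
      have hc3 : v (σ₀ * θ₁ - σ₁) < 1 := by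
        apply v.map_sub_lt _ hσ1
        rw [map_mul]; exact lt_of_le_of_lt (mul_le_of_le_one_right' hθ1) hσ0
      calc v (σ₀ * θ₁ - σ₁) * v (fA (X t)) < 1 * v (fA (X t)) :=
            mul_lt_mul_of_pos_right hc3 hApos
        _ = v (fA (X t)) := one_mul _
    · rw [hX0]

end

end Run7.h321.Two
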