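import Mathlib

set_option autoImplicit false

namespace Run7.h321

/-- Linear interpolation between the nodes `i` and `k`, evaluated at the node `l`. -/
noncomputable def itp (ξ H : ℕ → ℝ) (i k l : ℕ) : ℝ :=
  H i + (H k - H i) / (ξ k - ξ i) * (ξ l - ξ i)

/-- Slope over the gap `l`. -/
noncomputable def slp (ξ u : ℕ → ℝ) (l : ℕ) : ℝ := (u (l + 1) - u l) / (ξ (l + 1) - ξ l)

/-- The least concave majorant. -/
structure IsHull (m : ℕ) (ξ H u : ℕ → ℝ) : Prop where
  ge : ∀ l, l < m → H l ≤ u l
  first : u 0 = H 0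
  last : u (m - 1) = H (m - 1)
  conc : ∀ l, l + 2 < m → slp ξ u (l + 1) ≤ slp ξ u l
  compl : ∀ l, l + 2 < m → (slp ξ u l - slp ξ u (l + 1)) * (u (l + 1) - H (l + 1)) = 0
  sup : ∀ α c : ℝ, (∀ l, l < m → H l ≤ α * ξ l + c) → ∀ l, l < m → u l ≤ α * ξ l + c

variable {m : ℕ} {ξ : ℕ → ℝ}

theorem itp_le_of_maj (hξ : ∀ i j, i < j → j < m → ξ i < ξ j) {H : ℕ → ℝ} {α c : ℝ}
    (hmaj : ∀ l, l < m → H l ≤ α * ξ l + c) {i k l : ℕ} (hil : i ≤ l) (hlk : l ≤ k) (hk : k < m) :
    itp ξ H i k l ≤ α * ξ l + c := by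
  unfold itp
  rcases hil.eq_or_lt with rfl | hil'
  · simp only [sub_self, mul_zero, add_zero]
    exact hmaj i (lt_of_le_of_lt hlk hk)
  have hik : i < k := lt_of_lt_of_le hil' hlk
  have h1 : 0 < ξ k - ξ i := sub_pos.mpr (hξ i k hik hk)
  have h2 : 0 < ξ l - ξ i := sub_pos.mpr (hξ i l hil' (lt_of_le_of_lt hlk hk))
  have h3 : 0 ≤ ξ k - ξ l := by
    rcases hlk.eq_or_lt with rfl | h
    · simp
    · exact (sub_pos.mpr (hξ l k h hk)).le
  have hi := hmaj i (hik.trans hk)
  have hk' := hmaj k hk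
  have key : H i + (H k - H i) / (ξ k - ξ i) * (ξ l - ξ i)
      = (H i * (ξ k - ξ l) + H k * (ξ l - ξ i)) / (ξ k - ξ i) := by
    field_simp; ring
  rw [key, div_le_iff₀ h1]
  nlinarith [mul_le_mul_of_nonneg_right hi h3, mul_le_mul_of_nonneg_right hk' h2.le]

/-- Existence of the least concave majorant on finitely many nodes. -/
theorem exists_hull (hm : 0 < m) (hξ : ∀ i j, i < j → j < m → ξ i < ξ j) (H : ℕ → ℝ) :
    ∃ u : ℕ → ℝ, IsHull m ξ H u := by
  classical
  -- maximal interpolation at each node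
  have hmax : ∀ l, l < m → ∃ i k, i ≤ l ∧ l ≤ k ∧ k < m ∧
      ∀ i' k', i' ≤ l → l ≤ k' → k' < m → itp ξ H i' k' l ≤ itp ξ H i k l := by
    intro l hl
    obtain ⟨p, hp, hpm⟩ := Finset.exists_max_image
      (((Finset.range m) ×ˢ (Finset.range m)).filter fun p => p.1 ≤ l ∧ l ≤ p.2)
      (fun p => itp ξ H p.1 p.2 l) ⟨(l, l), by simp [hl]⟩
    simp only [Finset.mem_filter, Finset.mem_product, Finset.mem_range] at hp hpm
    refine ⟨p.1, p.2, hp.2.1, hp.2.2, hp.1.2, ?_⟩
    intro i' k' h1 h2 h3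
    exact hpm (i', k') ⟨⟨lt_of_le_of_lt (h1.trans h2) h3, h3⟩, h1, h2⟩
  choose! I Kk hI hK hKm hbest using hmax
  let u : ℕ → ℝ := fun l => itp ξ H (I l) (Kk l) l
  have hu_ge : ∀ l, l < m → H l ≤ u l := by
    intro l hl
    have := hbest l hl l l le_rfl le_rfl hl
    have e : itp ξ H l l l = H l := by unfold itp; simp
    rw [e] at this
    exact this
  have hu_sup : ∀ α c : ℝ, (∀ l, l < m → H l ≤ α * ξ l + c) → ∀ l, l < m → u l ≤ α * ξ l + c := by
    intro α c hmaj l hl
    exact itp_le_of_maj hξ hmaj (hI l hl) (hK l hl) (hKm l hl)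
  -- proper case
  have hproper : ∀ l, l < m → u l ≠ H l → ∃ i k, i < l ∧ l < k ∧ k < m ∧
      (∀ j, j < m → H j ≤ (H k - H i) / (ξ k - ξ i) * ξ j + (H i - (H k - H i) / (ξ k - ξ i) * ξ i)) ∧
      u l = (H k - H i) / (ξ k - ξ i) * ξ l + (H i - (H k - H i) / (ξ k - ξ i) * ξ i) := by
    intro l hl hne
    have hi := hI l hl
    have hk := hK l hl
    have hkm := hKm l hl
    have hil : I l < l := by
      rcases hi.eq_or_lt with h | h
      · exfalso; apply hne
        simp only [u, itp]
        rw [h]; simp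
      · exact h
    have hlk : l < Kk l := by
      rcases hk.eq_or_lt with h | h
      · exfalso; apply hne
        simp only [u, itp]
        rw [← h]
        have h1 : ξ l - ξ (I l) ≠ 0 := (sub_pos.mpr (hξ _ _ hil hl)).ne'
        field_simp
        ring
      · exact h
    have hval : u l = (H (Kk l) - H (I l)) / (ξ (Kk l) - ξ (I l)) * ξ l
        + (H (I l) - (H (Kk l) - H (I l)) / (ξ (Kk l) - ξ (I l)) * ξ (I l)) := by
      simp only [u, itp]; ring
    refine ⟨I l, Kk l, hil, hlk, hkm, ?_, hval⟩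
    intro j hj
    set s := (H (Kk l) - H (I l)) / (ξ (Kk l) - ξ (I l)) with hs
    have hik : 0 < ξ (Kk l) - ξ (I l) := sub_pos.mpr (hξ _ _ (hil.trans hlk) hkm)
    have hsk : H (Kk l) = H (I l) + s * (ξ (Kk l) - ξ (I l)) := by
      rw [hs]; field_simp; ring
    have hli : 0 < ξ l - ξ (I l) := sub_pos.mpr (hξ _ _ hil hl)
    have hkl : 0 < ξ (Kk l) - ξ l := sub_pos.mpr (hξ _ _ hlk hkm)
    rcases lt_trichotomy j l with hjl | rfl | hlj
    · -- use the pair (j, Kk l)
      have h1 := hbest l hl j (Kk l) hjl.le hlk.le hkm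
      have h2 : itp ξ H (I l) (Kk l) l = s * ξ l + (H (I l) - s * ξ (I l)) := hval
      rw [h2] at h1
      have hjk : 0 < ξ (Kk l) - ξ j := sub_pos.mpr (hξ _ _ (hjl.trans hlk) hkm)
      have hjl' : 0 < ξ l - ξ j := sub_pos.mpr (hξ _ _ hjl hl)
      unfold itp at h1
      have h3 : H j + (H (Kk l) - H j) / (ξ (Kk l) - ξ j) * (ξ l - ξ j)
          = (H j * (ξ (Kk l) - ξ l) + H (Kk l) * (ξ l - ξ j)) / (ξ (Kk l) - ξ j) := by
        field_simp; ring
      rw [h3, div_le_iff₀ hjk, hsk] at h1
      have h4 : (H j - (s * ξ j + (H (I l) - s * ξ (I l)))) * (ξ (Kk l) - ξ l) ≤ 0 := by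
        nlinarith
      have h5 := nonpos_of_mul_nonpos_left h4 hkl
      linarith
    · rw [← hval]; exact hu_ge j hj
    · -- use the pair (I l, j)
      have h1 := hbest l hl (I l) j hil.le hlj.le hj
      have h2 : itp ξ H (I l) (Kk l) l = s * ξ l + (H (I l) - s * ξ (I l)) := hval
      rw [h2] at h1
      have hij : 0 < ξ j - ξ (I l) := sub_pos.mpr (hξ _ _ (hil.trans hlj) hj)
      unfold itp at h1
      have h3 : H (I l) + (H j - H (I l)) / (ξ j - ξ (I l)) * (ξ l - ξ (I l))
          = (H (I l) * (ξ j - ξ l) + H j * (ξ l - ξ (I l))) / (ξ j - ξ (I l)) := by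
        field_simp; ring
      rw [h3, div_le_iff₀ hij] at h1
      have h4 : (H j - (s * ξ j + (H (I l) - s * ξ (I l)))) * (ξ l - ξ (I l)) ≤ 0 := by
        nlinarith
      have h5 := nonpos_of_mul_nonpos_left h4 hli
      linarith
  -- supporting line at each node
  have hsupp : ∀ l, l < m → ∃ α c : ℝ, (∀ j, j < m → H j ≤ α * ξ j + c) ∧ u l = α * ξ l + c := by
    intro l hl
    by_cases hne : u l = H l
    · -- choose the slope
      by_cases hlast : l + 1 < m
      · obtain ⟨k, hk, hkmax⟩ := Finset.exists_max_image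
          ((Finset.range m).filter fun k => l < k)
          (fun k => (H k - H l) / (ξ k - ξ l)) ⟨l + 1, by simp [hlast]⟩
        simp only [Finset.mem_filter, Finset.mem_range] at hk hkmax
        refine ⟨(H k - H l) / (ξ k - ξ l), H l - (H k - H l) / (ξ k - ξ l) * ξ l, ?_, ?_⟩
        · intro j hj
          set s := (H k - H l) / (ξ k - ξ l) with hs
          have hkl : 0 < ξ k - ξ l := sub_pos.mpr (hξ _ _ hk.2 hk.1)
          have hsk : H k = H l + s * (ξ k - ξ l) := by rw [hs]; field_simp; ring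
          rcases lt_trichotomy j l with hjl | rfl | hlj
          · have h1 := hbest l hl j k hjl.le hk.2.le hk.1
            have h2 : itp ξ H (I l) (Kk l) l = H l := hne
            rw [h2] at h1
            have hjk : 0 < ξ k - ξ j := sub_pos.mpr (hξ _ _ (hjl.trans hk.2) hk.1)
            unfold itp at h1
            have h3 : H j + (H k - H j) / (ξ k - ξ j) * (ξ l - ξ j)
                = (H j * (ξ k - ξ l) + H k * (ξ l - ξ j)) / (ξ k - ξ j) := by
              field_simp; ring
            rw [h3, div_le_iff₀ hjk, hsk] at h1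
            have h4 : (H j - (s * ξ j + (H l - s * ξ l))) * (ξ k - ξ l) ≤ 0 := by
              nlinarith
            have h5 := nonpos_of_mul_nonpos_left h4 hkl
            linarith
          · linarith
          · have h1 := hkmax j ⟨hj, hlj⟩
            have hjl : 0 < ξ j - ξ l := sub_pos.mpr (hξ _ _ hlj hj)
            rw [div_le_iff₀ hjl] at h1
            linarith
        · rw [hne]; ring
      · -- `l` is the last node
        have hl' : l = m - 1 := by omega
        by_cases h0 : l = 0
        · refine ⟨0, H l, ?_, ?_⟩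
          · intro j hj
            have : j = l := by omega
            rw [this]; simp
          · rw [hne]; ring
        · obtain ⟨k, hk, hkmin⟩ := Finset.exists_min_image
            ((Finset.range l)) (fun k => (H l - H k) / (ξ l - ξ k))
            ⟨0, by simp; omega⟩
          simp only [Finset.mem_range] at hk hkmin
          refine ⟨(H l - H k) / (ξ l - ξ k), H l - (H l - H k) / (ξ l - ξ k) * ξ l, ?_, ?_⟩
          · intro j hj
            rcases (show j ≤ l by omega).eq_or_lt with rfl | hjl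
            · linarith
            · have h1 := hkmin j hjl
              have hjl' : 0 < ξ l - ξ j := sub_pos.mpr (hξ _ _ hjl hl)
              rw [le_div_iff₀ hjl'] at h1
              linarith
          · rw [hne]; ring
    · obtain ⟨i, k, _, _, _, h1, h2⟩ := hproper l hl hne
      exact ⟨_, _, h1, h2⟩
  refine ⟨u, hu_ge, ?_, ?_, ?_, ?_, hu_sup⟩
  · by_contra h
    obtain ⟨i, k, h1, _⟩ := hproper 0 hm h
    omega
  · by_contra h
    obtain ⟨i, k, _, h1, h2, _⟩ := hproper (m - 1) (by omega) h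
    omega
  · intro l hl
    obtain ⟨α, c, hmaj, hv⟩ := hsupp (l + 1) (by omega)
    have h1 := hu_sup α c hmaj l (by omega)
    have h2 := hu_sup α c hmaj (l + 2) (by omega)
    have d1 : 0 < ξ (l + 1) - ξ l := sub_pos.mpr (hξ _ _ (by omega) (by omega))
    have d2 : 0 < ξ (l + 1 + 1) - ξ (l + 1) := sub_pos.mpr (hξ _ _ (by omega) (by omega))
    have s1 : slp ξ u (l + 1) ≤ α := by
      unfold slp
      rw [div_le_iff₀ d2]
      rw [hv]
      have : u (l + 1 + 1) ≤ α * ξ (l + 1 + 1) + c := h2
      linarith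
    have s2 : α ≤ slp ξ u l := by
      unfold slp
      rw [le_div_iff₀ d1, hv]
      linarith
    exact s1.trans s2
  · intro l hl
    by_cases h : u (l + 1) = H (l + 1)
    · rw [h]; ring
    · obtain ⟨i, k, hi, hk, hkm, hmaj, hv⟩ := hproper (l + 1) (by omega) h
      set s := (H k - H i) / (ξ k - ξ i) with hs
      set c := H i - s * ξ i with hc
      have hik : 0 < ξ k - ξ i := sub_pos.mpr (hξ _ _ (hi.trans hk) hkm)
      have hon : ∀ j, i ≤ j → j ≤ k → u j = s * ξ j + c := by
        intro j h1 h2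
        apply le_antisymm (hu_sup s c hmaj j (by omega))
        have := hbest j (by omega) i k h1 h2 hkm
        have e : itp ξ H i k j = s * ξ j + c := by
          unfold itp
          rw [hc, hs]; ring
        rw [e] at this
        exact this
      have e1 := hon l (by omega) (by omega)
      have e2 := hon (l + 1) (by omega) (by omega)
      have e3 := hon (l + 1 + 1) (by omega) (by omega)
      have d1 : ξ (l + 1) - ξ l ≠ 0 := (sub_pos.mpr (hξ _ _ (by omega) (by omega))).ne'
      have d2 : ξ (l + 1 + 1) - ξ (l + 1) ≠ 0 :=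
        (sub_pos.mpr (hξ _ _ (by omega) (by omega))).ne'
      have s1 : slp ξ u l = s := by
        unfold slp; rw [e1, e2]; field_simp; ring
      have s2 : slp ξ u (l + 1) = s := by
        unfold slp; rw [e2, e3]; field_simp; ring
      rw [s1, s2]; ring

end Run7.h321
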