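import Pool.Agent.Run7.h321.Hull

set_option autoImplicit false

namespace Run7.h321

open Finset

/-- Sorted data for the moving upper hull. -/
structure Kin (m : ℕ) (ξ η h g : ℕ → ℝ) (P : Type) (α β c κ : P → ℝ) (i j : P → ℕ) : Prop where
  inc : ∀ a b, a < b → b < m → ξ a < ξ b
  lt : ∀ p, i p < j p
  ltm : ∀ p, j p < m
  maj : ∀ p l, l < m → h l + β p * η l ≤ α p * ξ l + c p
  ei : ∀ p, h (i p) + β p * η (i p) = α p * ξ (i p) + c p
  ej : ∀ p, h (j p) + β p * η (j p) = α p * ξ (j p) + c p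
  im : ∀ p l, l < m → h l + β p * η l = α p * ξ l + c p → g l - β p * ξ l - α p * η l = κ p
  inj : Function.Injective β

/-- The node `l` is on the upper hull at time `τ`. -/
def OnH (m : ℕ) (ξ η h : ℕ → ℝ) (τ : ℝ) (l : ℕ) : Prop :=
  ∃ a : ℝ, ∀ k, k < m → h k + τ * η k - a * ξ k ≤ h l + τ * η l - a * ξ l

theorem OnH.between {m : ℕ} {ξ η h : ℕ → ℝ} {τ₁ τ₂ τ : ℝ} {l : ℕ}
    (h1 : OnH m ξ η h τ₁ l) (h2 : OnH m ξ η h τ₂ l) (hl : τ₁ ≤ τ) (hr : τ ≤ τ₂) :
    OnH m ξ η h τ l := by
  obtain ⟨a1, h1⟩ := h1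
  obtain ⟨a2, h2⟩ := h2
  rcases (hl.trans hr).eq_or_lt with he | hlt
  · have : τ = τ₁ := le_antisymm (he ▸ hr) hl
    rw [this]
    exact ⟨a1, h1⟩
  have hd : 0 < τ₂ - τ₁ := sub_pos.mpr hlt
  refine ⟨(a1 * (τ₂ - τ) + a2 * (τ - τ₁)) / (τ₂ - τ₁), ?_⟩
  intro k hk
  have e1 := mul_le_mul_of_nonneg_right (h1 k hk) (sub_nonneg.mpr hr)
  have e2 := mul_le_mul_of_nonneg_right (h2 k hk) (sub_nonneg.mpr hl)
  have key : ∀ q : ℕ, (h q + τ * η q - (a1 * (τ₂ - τ) + a2 * (τ - τ₁)) / (τ₂ - τ₁) * ξ q)
      = ((h q + τ₁ * η q - a1 * ξ q) * (τ₂ - τ) + (h q + τ₂ * η q - a2 * ξ q) * (τ - τ₁))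
        / (τ₂ - τ₁) := by
    intro q
    field_simp
    ring
  rw [key, key]
  exact div_le_div_of_nonneg_right (by linarith) hd.le

theorem OnH.hull_eq {m : ℕ} {ξ η h : ℕ → ℝ} {τ : ℝ} {l : ℕ} (ho : OnH m ξ η h τ l)
    {u : ℕ → ℝ} (hu : IsHull m ξ (fun q => h q + τ * η q) u) (hl : l < m) :
    u l = h l + τ * η l := by
  obtain ⟨a, ha⟩ := ho
  apply le_antisymm
  · have := hu.sup a (h l + τ * η l - a * ξ l) (fun k hk => by have := ha k hk; linarith) l hl
    linarith
  · exact hu.ge l hl

/-- Indicator of the gaps between the two nodes of `p`. -/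
def chi {P : Type} (i j : P → ℕ) (p : P) (l : ℕ) : ℝ := if i p ≤ l ∧ l < j p then 1 else 0

/-- Weighted sum of indicators. -/
noncomputable def wsum {P : Type} (i j : P → ℕ) (lam : P → ℝ) (S : Finset P) (l : ℕ) : ℝ :=
  ∑ p ∈ S, lam p * chi i j p l

theorem wsum_ne {P : Type} {i j : P → ℕ} {lam : P → ℝ} {S : Finset P} {l : ℕ}
    (h : wsum i j lam S l ≠ wsum i j lam S (l + 1)) :
    ∃ p ∈ S, l + 1 = i p ∨ l + 1 = j p := by
  by_contra hcon
  push Not at hcon
  apply h
  unfold wsum
  apply Finset.sum_congr rfl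
  intro p hp
  have hh := hcon p hp
  congr 1
  unfold chi
  by_cases h1 : i p ≤ l ∧ l < j p
  · rw [if_pos h1, if_pos ⟨by omega, by have := hh.2; omega⟩]
  · rw [if_neg h1, if_neg]
    intro h2
    apply h1
    have := hh.1
    omega

/-- The quantity attached to the gap `l` at time `τ`. -/
noncomputable def gd (ξ η g u : ℕ → ℝ) (τ : ℝ) (l : ℕ) : ℝ :=
  g l - g (l + 1) + τ * (ξ (l + 1) - ξ l) + slp ξ u l * (η (l + 1) - η l)

section
variable {m : ℕ} {ξ η h g : ℕ → ℝ} {P : Type} {α β c κ : P → ℝ} {i j : P → ℕ}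

theorem Kin.onI (K : Kin m ξ η h g P α β c κ i j) (p : P) : OnH m ξ η h (β p) (i p) :=
  ⟨α p, fun k hk => by have := K.maj p k hk; have := K.ei p; linarith⟩

theorem Kin.onJ (K : Kin m ξ η h g P α β c κ i j) (p : P) : OnH m ξ η h (β p) (j p) :=
  ⟨α p, fun k hk => by have := K.maj p k hk; have := K.ej p; linarith⟩

/-- On the segment of `p` the hull is the supporting line. -/
theorem Kin.hull_on (K : Kin m ξ η h g P α β c κ i j) (p : P) {u : ℕ → ℝ}
    (hu : IsHull m ξ (fun q => h q + β p * η q) u) {l : ℕ} (h1 : i p ≤ l) (h2 : l ≤ j p) :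
    u l = α p * ξ l + c p := by
  have hjm := K.ltm p
  have hlt := K.lt p
  apply le_antisymm (hu.sup _ _ (K.maj p) l (lt_of_le_of_lt h2 hjm))
  -- concavity gives the other side: slopes are decreasing
  have hui : u (i p) = α p * ξ (i p) + c p := by
    rw [(K.onI p).hull_eq hu (hlt.trans hjm)]; exact K.ei p
  have huj : u (j p) = α p * ξ (j p) + c p := by
    rw [(K.onJ p).hull_eq hu hjm]; exact K.ej p
  have hmono : ∀ d l', l' + d + 1 < m → slp ξ u (l' + d) ≤ slp ξ u l' := by
    intro d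
    induction d with
    | zero => intro l' _; simp
    | succ d ih =>
      intro l' hl'
      have := hu.conc (l' + d) (by omega)
      have := ih l' (by omega)
      rw [← add_assoc]
      linarith
  have hinc : ∀ q, q + 1 < m → 0 < ξ (q + 1) - ξ q := fun q hq =>
    sub_pos.mpr (K.inc _ _ (by omega) hq)
  have hslp : ∀ q, q + 1 < m → u (q + 1) = u q + slp ξ u q * (ξ (q + 1) - ξ q) := by
    intro q hq
    unfold slp
    have := (hinc q hq).ne'
    field_simp
    ring
  -- first slope at i is at most α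
  have hfirst : slp ξ u (i p) ≤ α p := by
    have := hu.sup _ _ (K.maj p) (i p + 1) (by omega)
    have h3 := hslp (i p) (by omega)
    have h4 := hinc (i p) (by omega)
    have h5 : slp ξ u (i p) * (ξ (i p + 1) - ξ (i p)) ≤ α p * (ξ (i p + 1) - ξ (i p)) := by
      rw [h3, hui] at this
      linarith
    exact le_of_mul_le_mul_right h5 h4
  -- so beyond `l` the function grows at most with slope `α p`
  have hgrow : ∀ d l', i p ≤ l' → l' + d < m → u (l' + d) ≤ u l' + α p * (ξ (l' + d) - ξ l') := by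
    intro d
    induction d with
    | zero => intro l' _ _; simp
    | succ d ih =>
      intro l' hl' hd
      have h3 := ih l' hl' (by omega)
      have h4 := hslp (l' + d) (by omega)
      have h5 := hinc (l' + d) (by omega)
      have h6 := hmono (l' + d - i p) (i p) (by omega)
      rw [show i p + (l' + d - i p) = l' + d by omega] at h6
      have h7 : slp ξ u (l' + d) * (ξ (l' + d + 1) - ξ (l' + d))
          ≤ α p * (ξ (l' + d + 1) - ξ (l' + d)) :=
        mul_le_mul_of_nonneg_right (h6.trans hfirst) h5.le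
      rw [← add_assoc]
      linarith
  have := hgrow (j p - l) l h1 (by omega)
  rw [show l + (j p - l) = j p by omega, huj] at this
  linarith

theorem Kin.slp_on (K : Kin m ξ η h g P α β c κ i j) (p : P) {u : ℕ → ℝ}
    (hu : IsHull m ξ (fun q => h q + β p * η q) u) {l : ℕ} (h1 : i p ≤ l) (h2 : l < j p) :
    slp ξ u l = α p := by
  have e1 := K.hull_on p hu h1 h2.le
  have e2 := K.hull_on p hu (h1.trans (Nat.le_succ l)) h2
  have hd : ξ (l + 1) - ξ l ≠ 0 :=
    (sub_pos.mpr (K.inc _ _ (Nat.lt_succ_self l) (lt_of_le_of_lt h2 (K.ltm p)))).ne'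
  unfold slp
  rw [e2, e1]
  field_simp
  ring

/-- Claim 1. -/
theorem Kin.claim1 (K : Kin m ξ η h g P α β c κ i j) (p : P) {u : ℕ → ℝ}
    (hu : IsHull m ξ (fun q => h q + β p * η q) u) (a : ℕ → ℝ)
    (ha : ∀ l, l + 1 < m → a l ≠ a (l + 1) → OnH m ξ η h (β p) (l + 1)) :
    ∑ l ∈ range (m - 1), (if i p ≤ l ∧ l < j p then a l else 0) * gd ξ η g u (β p) l = 0 := by
  have hlt := K.lt p
  have hjm := K.ltm p
  have himI : g (i p) - β p * ξ (i p) - α p * η (i p) = κ p := K.im p _ (hlt.trans hjm) (K.ei p)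
  have himJ : g (j p) - β p * ξ (j p) - α p * η (j p) = κ p := K.im p _ hjm (K.ej p)
  have key : ∀ d, i p + d + 1 ≤ j p →
      ∑ l ∈ range (i p + d + 1), (if i p ≤ l ∧ l < j p then a l else 0) * gd ξ η g u (β p) l
        = a (i p + d) * (κ p - (g (i p + d + 1) - β p * ξ (i p + d + 1)
            - α p * η (i p + d + 1))) := by
    intro d
    induction d with
    | zero =>
      intro hd
      rw [add_zero, sum_range_succ]
      rw [if_pos ⟨le_rfl, hlt⟩]
      have h0 : ∑ l ∈ range (i p), (if i p ≤ l ∧ l < j p then a l else 0)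
          * gd ξ η g u (β p) l = 0 := by
        apply sum_eq_zero
        intro l hl
        rw [mem_range] at hl
        rw [if_neg (by omega), zero_mul]
      rw [h0, zero_add]
      unfold gd
      rw [K.slp_on p hu le_rfl hlt, ← himI]
      ring
    | succ d ih =>
      intro hd
      have hstep := ih (by omega)
      rw [show i p + (d + 1) + 1 = (i p + d + 1) + 1 by omega, sum_range_succ, hstep,
        if_pos (by omega), show i p + (d + 1) = i p + d + 1 by omega]
      unfold gd
      rw [K.slp_on p hu (by omega) (by omega)]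
      by_cases hne : a (i p + d) = a (i p + d + 1)
      · rw [hne]; ring
      · have hon := ha (i p + d) (by omega) hne
        have h1 := hon.hull_eq hu (by omega)
        rw [K.hull_on p hu (by omega) (by omega)] at h1
        have h2 := K.im p _ (by omega) h1.symm
        rw [← h2]
        ring
  have hfin := key (j p - i p - 1) (by omega)
  rw [show i p + (j p - i p - 1) + 1 = j p by omega, himJ, sub_self, mul_zero] at hfin
  have hsub : range (j p) ⊆ range (m - 1) := by
    apply range_subset_range.mpr; omega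
  rw [← sum_subset hsub, hfin]
  intro l _ hl
  rw [mem_range] at hl
  rw [if_neg (by omega), zero_mul]

/-- Abel summation. -/
theorem abel_sum (c f : ℕ → ℝ) (n : ℕ) (h0 : f 0 = 0) :
    ∑ l ∈ range (n + 1), c l * (f (l + 1) - f l)
      = ∑ l ∈ range n, (c l - c (l + 1)) * f (l + 1) + c n * f (n + 1) := by
  induction n with
  | zero => simp [h0]
  | succ n ih =>
    rw [sum_range_succ, ih, sum_range_succ]
    ring

/-- Claim 2. -/
theorem claim2 (hm : 0 < m) (hinc : ∀ a b, a < b → b < m → ξ a < ξ b) {τ τ' : ℝ} (hτ : τ < τ')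
    {u u' : ℕ → ℝ}
    (hu : IsHull m ξ (fun q => h q + τ * η q) u) (hu' : IsHull m ξ (fun q => h q + τ' * η q) u')
    (W : ℕ → ℝ)
    (hW : ∀ l, l + 1 < m → W l ≠ W (l + 1) →
      OnH m ξ η h τ (l + 1) ∧ OnH m ξ η h τ' (l + 1)) :
    ∑ l ∈ range (m - 1), W l ^ 2 * gd ξ η g u τ l
        + (τ' - τ) * ∑ l ∈ range (m - 1), W l ^ 2 * (ξ (l + 1) - ξ l)
      ≤ ∑ l ∈ range (m - 1), W l ^ 2 * gd ξ η g u' τ' l := by
  have hd : 0 < τ' - τ := sub_pos.mpr hτ
  rcases Nat.lt_or_ge m 2 with hm2 | hm2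
  · have : m - 1 = 0 := by omega
    rw [this]; simp
  obtain ⟨n, hn⟩ : ∃ n, m = n + 2 := ⟨m - 2, by omega⟩
  subst hn
  have e1 : n + 2 - 1 = n + 1 := by omega
  rw [e1]
  set f : ℕ → ℝ := fun l => (u l - (h l + τ * η l)) - (u' l - (h l + τ' * η l)) with hf
  have f0 : f 0 = 0 := by
    simp only [hf]
    rw [hu.first, hu'.first]; ring
  have fl : f (n + 1) = 0 := by
    have a1 := hu.last
    have a2 := hu'.last
    rw [e1] at a1 a2
    simp only [hf]
    rw [a1, a2]; ring
  have key : 0 ≤ ∑ l ∈ range (n + 1), W l ^ 2 * ((slp ξ u' l - slp ξ u l) * (η (l + 1) - η l)) := by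
    have hpos : 0 ≤ (τ' - τ) * ∑ l ∈ range (n + 1),
        W l ^ 2 * ((slp ξ u' l - slp ξ u l) * (η (l + 1) - η l)) := by
      rw [mul_sum]
      have hterm : ∀ l ∈ range (n + 1),
          (τ' - τ) * (W l ^ 2 * ((slp ξ u' l - slp ξ u l) * (η (l + 1) - η l)))
          = W l ^ 2 * (((u' (l + 1) - u (l + 1)) - (u' l - u l)) ^ 2 / (ξ (l + 1) - ξ l))
            + (W l ^ 2 * (slp ξ u' l - slp ξ u l)) * (f (l + 1) - f l) := by
        intro l hl
        rw [mem_range] at hl
        have hne : ξ (l + 1) - ξ l ≠ 0 := (sub_pos.mpr (hinc l (l + 1) (by omega) (by omega))).ne'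
        simp only [hf, slp]
        field_simp
        ring
      rw [sum_congr rfl hterm, sum_add_distrib]
      apply add_nonneg
      · apply sum_nonneg
        intro l hl
        rw [mem_range] at hl
        have hne : 0 < ξ (l + 1) - ξ l := sub_pos.mpr (hinc l (l + 1) (by omega) (by omega))
        positivity
      · rw [abel_sum (fun l => W l ^ 2 * (slp ξ u' l - slp ξ u l)) f n f0, fl, mul_zero, add_zero]
        apply sum_nonneg
        intro l hl
        rw [mem_range] at hl
        by_cases hWl : W l = W (l + 1)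
        · rw [← hWl]
          have c1 := hu.conc l (by omega)
          have c2 := hu'.conc l (by omega)
          have g1 : h (l + 1) + τ * η (l + 1) ≤ u (l + 1) := hu.ge (l + 1) (by omega)
          have g2 : h (l + 1) + τ' * η (l + 1) ≤ u' (l + 1) := hu'.ge (l + 1) (by omega)
          have k1 : (slp ξ u l - slp ξ u (l + 1)) * (u (l + 1) - (h (l + 1) + τ * η (l + 1))) = 0 :=
            hu.compl l (by omega)
          have k2 : (slp ξ u' l - slp ξ u' (l + 1))
              * (u' (l + 1) - (h (l + 1) + τ' * η (l + 1))) = 0 := hu'.compl l (by omega)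
          have : (W l ^ 2 * (slp ξ u' l - slp ξ u l) - W l ^ 2 * (slp ξ u' (l + 1) - slp ξ u (l + 1)))
              * f (l + 1)
              = W l ^ 2 * ((slp ξ u' l - slp ξ u' (l + 1)) * (u (l + 1) - (h (l + 1) + τ * η (l + 1)))
                + (slp ξ u l - slp ξ u (l + 1)) * (u' (l + 1) - (h (l + 1) + τ' * η (l + 1)))) := by
            simp only [hf]
            linear_combination (-(W l ^ 2)) * k1 - (W l ^ 2) * k2
          rw [this]
          apply mul_nonneg (sq_nonneg _)
          apply add_nonneg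
          · exact mul_nonneg (by linarith) (by linarith)
          · exact mul_nonneg (by linarith) (by linarith)
        · obtain ⟨o1, o2⟩ := hW l (by omega) hWl
          have q1 := o1.hull_eq hu (by omega)
          have q2 := o2.hull_eq hu' (by omega)
          have : f (l + 1) = 0 := by
            simp only [hf]
            rw [q1, q2]; ring
          rw [this, mul_zero]
    by_contra hneg
    push Not at hneg
    nlinarith
  have hfinal : ∑ l ∈ range (n + 1), W l ^ 2 * gd ξ η g u' τ' l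
      = ∑ l ∈ range (n + 1), W l ^ 2 * gd ξ η g u τ l
        + (τ' - τ) * ∑ l ∈ range (n + 1), W l ^ 2 * (ξ (l + 1) - ξ l)
        + ∑ l ∈ range (n + 1), W l ^ 2 * ((slp ξ u' l - slp ξ u l) * (η (l + 1) - η l)) := by
    rw [mul_sum, ← sum_add_distrib, ← sum_add_distrib]
    apply sum_congr rfl
    intro l _
    unfold gd
    ring
  rw [hfinal]
  linarith

end

end Run7.h321
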