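import Pool.Agent.Run7.h321.Kin

set_option autoImplicit false

namespace Run7.h321

open Finset

section
variable {m : ℕ} {ξ η h g : ℕ → ℝ} {P : Type} {α β c κ : P → ℝ} {i j : P → ℕ}

theorem chi_sq (p : P) (l : ℕ) : chi i j p l ^ 2 = chi i j p l := by
  unfold chi; split_ifs <;> norm_num

theorem Kin.indep [Fintype P] (K : Kin m ξ η h g P α β c κ i j) (lam : P → ℝ)
    (h0 : ∀ l, l < m - 1 → ∑ p, lam p * chi i j p l = 0) (p : P) : lam p = 0 := by
  classical
  have hm : 0 < m := lt_of_le_of_lt (Nat.zero_le _) (K.ltm p)
  have htot : ∀ l, wsum i j lam univ l = 0 := by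
    intro l
    rcases Nat.lt_or_ge l (m - 1) with hl | hl
    · exact h0 l hl
    · unfold wsum
      apply sum_eq_zero
      intro q _
      have := K.ltm q
      unfold chi
      rw [if_neg (by omega), mul_zero]
  have hex : ∀ τ : ℝ, ∃ u : ℕ → ℝ, IsHull m ξ (fun q => h q + τ * η q) u :=
    fun τ => exists_hull hm K.inc _
  choose U hU using hex
  let L : P → Finset P := fun p => univ.filter fun q => β q < β p
  let G : P → Finset P := fun p => univ.filter fun q => ¬ (β q < β p)
  let Le : P → Finset P := fun p => univ.filter fun q => β q ≤ β p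
  have hLG : ∀ p l, wsum i j lam (L p) l + wsum i j lam (G p) l = 0 := by
    intro p l
    rw [← htot l]
    exact Finset.sum_filter_add_sum_filter_not univ (fun q => β q < β p)
      (fun q => lam q * chi i j q l)
  have honL : ∀ p l, wsum i j lam (L p) l ≠ wsum i j lam (L p) (l + 1) →
      ∃ q r, β q < β p ∧ β p ≤ β r ∧ OnH m ξ η h (β q) (l + 1) ∧ OnH m ξ η h (β r) (l + 1) := by
    intro p l hne
    obtain ⟨q, hq, hq'⟩ := wsum_ne hne
    have hne2 : wsum i j lam (G p) l ≠ wsum i j lam (G p) (l + 1) := by
      intro he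
      apply hne
      have a1 := hLG p l
      have a2 := hLG p (l + 1)
      linarith
    obtain ⟨r, hr, hr'⟩ := wsum_ne hne2
    simp only [L, G, mem_filter, mem_univ, true_and, not_lt] at hq hr
    refine ⟨q, r, hq, hr, ?_, ?_⟩
    · rcases hq' with h' | h'
      · rw [h']; exact K.onI q
      · rw [h']; exact K.onJ q
    · rcases hr' with h' | h'
      · rw [h']; exact K.onI r
      · rw [h']; exact K.onJ r
  -- splitting off `p`
  have hLe : ∀ p l, wsum i j lam (Le p) l = wsum i j lam (L p) l + lam p * chi i j p l := by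
    intro p l
    have e : Le p = insert p (L p) := by
      ext q
      simp only [Le, L, mem_filter, mem_univ, true_and, mem_insert]
      constructor
      · intro hq
        rcases hq.eq_or_lt with he | hlt
        · left; exact K.inj he
        · right; exact hlt
      · rintro (rfl | hq)
        · exact le_rfl
        · exact hq.le
    rw [e]
    unfold wsum
    rw [sum_insert (by simp [L])]
    ring
  -- Claim 1 at `p`
  have hA : ∀ p, ∑ l ∈ range (m - 1), wsum i j lam (Le p) l ^ 2 * gd ξ η g (U (β p)) (β p) l
      = ∑ l ∈ range (m - 1), wsum i j lam (L p) l ^ 2 * gd ξ η g (U (β p)) (β p) l := by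
    intro p
    have h1 := K.claim1 p (hU (β p)) (fun l => 2 * lam p * wsum i j lam (L p) l + lam p ^ 2) (by
      intro l _ hne
      have hne' : wsum i j lam (L p) l ≠ wsum i j lam (L p) (l + 1) := by
        intro he; apply hne; simp only [he]
      obtain ⟨q, r, h1, h2, h3, h4⟩ := honL p l hne'
      exact h3.between h4 h1.le h2)
    rw [← sub_eq_zero, ← sum_sub_distrib, ← h1]
    apply sum_congr rfl
    intro l _
    rw [hLe p l]
    unfold chi
    split_ifs <;> ring
  -- Claim 2 between consecutive times
  have hB : ∀ q p, β q < β p → (∀ r, β r < β p → β r ≤ β q) →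
      ∑ l ∈ range (m - 1), wsum i j lam (Le q) l ^ 2 * gd ξ η g (U (β q)) (β q) l
        + (β p - β q) * ∑ l ∈ range (m - 1), wsum i j lam (L p) l ^ 2 * (ξ (l + 1) - ξ l)
      ≤ ∑ l ∈ range (m - 1), wsum i j lam (L p) l ^ 2 * gd ξ η g (U (β p)) (β p) l := by
    intro q p hqp hcons
    have e : Le q = L p := by
      ext r
      simp only [Le, L, mem_filter, mem_univ, true_and]
      exact ⟨fun hr => lt_of_le_of_lt hr hqp, hcons r⟩
    rw [e]
    apply claim2 hm K.inc hqp (hU _) (hU _)
    intro l _ hne
    obtain ⟨q', r, h1, h2, h3, h4⟩ := honL p l hne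
    exact ⟨h3.between h4 (hcons q' h1) (hqp.le.trans h2),
      h3.between h4 (h1.le) h2⟩
  have hgap : ∀ (W : ℕ → ℝ), 0 ≤ ∑ l ∈ range (m - 1), W l ^ 2 * (ξ (l + 1) - ξ l) := by
    intro W
    apply sum_nonneg
    intro l hl
    rw [mem_range] at hl
    have : 0 < ξ (l + 1) - ξ l := sub_pos.mpr (K.inc l (l + 1) (by omega) (by omega))
    positivity
  -- predecessor
  have hpred : ∀ p, (L p).Nonempty → ∃ q, β q < β p ∧ ∀ r, β r < β p → β r ≤ β q := by
    intro p hne
    obtain ⟨q, hq, hmax⟩ := exists_max_image (L p) β hne
    simp only [L, mem_filter, mem_univ, true_and] at hq hmax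
    exact ⟨q, hq, hmax⟩
  have hLempty : ∀ p, ¬ (L p).Nonempty → ∀ l, wsum i j lam (L p) l = 0 := by
    intro p hne l
    rw [not_nonempty_iff_eq_empty] at hne
    rw [hne]; simp [wsum]
  have hS : ∀ (n : ℕ) (p : P), (L p).card = n →
      0 ≤ ∑ l ∈ range (m - 1), wsum i j lam (Le p) l ^ 2 * gd ξ η g (U (β p)) (β p) l := by
    intro n
    induction n using Nat.strong_induction_on with
    | _ n ih =>
      intro p hcard
      rw [hA p]
      by_cases hne : (L p).Nonempty
      · obtain ⟨q, hq1, hq2⟩ := hpred p hne
        have hlt : (L q).card < n := by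
          rw [← hcard]
          apply card_lt_card
          rw [ssubset_iff_of_subset]
          · exact ⟨q, by simp [L, hq1], by simp [L]⟩
          · intro r hr
            simp only [L, mem_filter, mem_univ, true_and] at hr ⊢
            exact hr.trans hq1
        have h1 := ih _ hlt q rfl
        have h2 := hB q p hq1 hq2
        have h3 := mul_nonneg (sub_pos.mpr hq1).le (hgap (fun l => wsum i j lam (L p) l))
        linarith
      · have := hLempty p hne
        simp [this]
  -- the last nonzero coefficient
  by_contra hlam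
  obtain ⟨p, hp, hmax⟩ := exists_max_image (univ.filter fun q => lam q ≠ 0) β
    ⟨p, by simp [hlam]⟩
  simp only [mem_filter, mem_univ, true_and] at hp hmax
  have hLe0 : ∀ l, wsum i j lam (Le p) l = 0 := by
    intro l
    rw [← htot l]
    unfold wsum
    apply sum_subset (subset_univ _)
    intro q _ hq
    simp only [Le, mem_filter, mem_univ, true_and, not_le] at hq
    by_contra hne
    have : lam q ≠ 0 := fun h' => hne (by rw [h', zero_mul])
    exact absurd (hmax q this) (not_le.mpr hq)
  have hL0 : wsum i j lam (L p) (i p) = 0 := by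
    by_cases hne : (L p).Nonempty
    · obtain ⟨q, hq1, hq2⟩ := hpred p hne
      have h1 := hS _ q rfl
      have h2 := hB q p hq1 hq2
      have h3 := hgap (fun l => wsum i j lam (L p) l)
      have h4 : ∑ l ∈ range (m - 1), wsum i j lam (L p) l ^ 2 * gd ξ η g (U (β p)) (β p) l = 0 := by
        rw [← hA p]; simp [hLe0]
      rw [h4] at h2
      have hd : 0 < β p - β q := sub_pos.mpr hq1
      have h5 : ∑ l ∈ range (m - 1), wsum i j lam (L p) l ^ 2 * (ξ (l + 1) - ξ l) = 0 := by
        apply le_antisymm _ h3
        by_contra hneg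
        push Not at hneg
        have := mul_pos hd hneg
        linarith
      have h6 := (sum_eq_zero_iff_of_nonneg (by
        intro l hl
        rw [mem_range] at hl
        have : 0 < ξ (l + 1) - ξ l := sub_pos.mpr (K.inc l (l + 1) (by omega) (by omega))
        positivity)).mp h5 (i p) (by
          have := K.lt p
          have := K.ltm p
          rw [mem_range]; omega)
      have hlt := K.lt p
      have hltm := K.ltm p
      have h7 : 0 < ξ (i p + 1) - ξ (i p) :=
        sub_pos.mpr (K.inc (i p) (i p + 1) (by omega) (by omega))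
      rcases mul_eq_zero.mp h6 with h8 | h8
      · exact pow_eq_zero_iff (two_ne_zero) |>.mp h8
      · exact absurd h8 h7.ne'
    · exact hLempty p hne _
  have hfin := hLe p (i p)
  rw [hLe0, hL0] at hfin
  have hlt := K.lt p
  unfold chi at hfin
  rw [if_pos ⟨le_rfl, hlt⟩] at hfin
  apply hp
  linarith

theorem Kin.card_le [Fintype P] (K : Kin m ξ η h g P α β c κ i j) : Fintype.card P ≤ m - 1 := by
  classical
  have hli : LinearIndependent ℝ (fun (p : P) (l : Fin (m - 1)) => chi i j p l) := by
    rw [Fintype.linearIndependent_iff]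
    intro lam hl p
    apply K.indep lam _ p
    intro l hlt
    have := congrFun hl ⟨l, hlt⟩
    simpa [Finset.sum_apply] using this
  have := hli.fintype_card_le_finrank
  simpa using this

end

end Run7.h321
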