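import Pool.Agent.Run7.h321.TwoCore

set_option autoImplicit false

namespace Run7.h321.Two

open Run7.h321 (ar)

section core

variable {K : Type*} [Field K] {Γ : Type*} [LinearOrderedCommGroupWithZero Γ]
  {v : Valuation K Γ} {R : Red v} {ι : Type*} {P : ι → K × K}

theorem ar_vertical (E : Ext v P) {u w s : ι} (hu : In v P u) (hw : In v P w) (hs : In v P s)
    (h1 : (res R P u).1 = (res R P w).1) (h2 : (res R P u).1 = (res R P s).1) :
    ar (P u) (P w) (P s) = 0 := by
  by_contra h0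
  have hx1 : v ((P w).1 - (P u).1) < 1 := by
    apply R.lt_of_zero (v.map_sub_le hw.1 hu.1)
    rw [R.sub _ _ hw.1 hu.1]
    simp only [res] at h1
    rw [h1, sub_self]
  have hx2 : v ((P s).1 - (P u).1) < 1 := by
    apply R.lt_of_zero (v.map_sub_le hs.1 hu.1)
    rw [R.sub _ _ hs.1 hu.1]
    simp only [res] at h2
    rw [h2, sub_self]
  have hle1 : v (((P w).1 - (P u).1) * ((P s).2 - (P u).2)) ≤ v ((P w).1 - (P u).1) := by
    rw [map_mul]
    exact mul_le_of_le_one_right' (v.map_sub_le hs.2 hu.2)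
  have hle2 : v (((P w).2 - (P u).2) * ((P s).1 - (P u).1)) ≤ v ((P s).1 - (P u).1) := by
    rw [map_mul]
    exact mul_le_of_le_one_left' (v.map_sub_le hw.2 hu.2)
  have hmax : v (ar (P u) (P w) (P s)) ≤ max (v ((P w).1 - (P u).1)) (v ((P s).1 - (P u).1)) := by
    unfold ar
    exact (v.map_sub _ _).trans (max_le_max hle1 hle2)
  have hlt : v (ar (P u) (P w) (P s)) < 1 := lt_of_le_of_lt hmax (max_lt hx1 hx2)
  have e1 : ar (P s) (P w) (P u) = - ar (P u) (P w) (P s) := by unfold ar; ring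
  have e2 : ar (P w) (P s) (P u) = ar (P u) (P w) (P s) := by unfold ar; ring
  have b1 := E.minB s w u (by rw [e1]; exact neg_ne_zero.mpr h0)
    (by rw [e1, Valuation.map_neg]; exact hlt)
  have b2 := E.minB w s u (by rw [e2]; exact h0) (by rw [e2]; exact hlt)
  rw [e1, Valuation.map_neg] at b1
  rw [e2] at b2
  exact absurd hmax (not_le.mpr (max_lt b1 b2))

/-- Collinear residues come from collinear points. -/
theorem ar_in (E : Ext v P) {u w s : ι} (hu : In v P u) (hw : In v P w) (hs : In v P s)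
    (h : ar (res R P u) (res R P w) (res R P s) = 0) : ar (P u) (P w) (P s) = 0 := by
  by_contra h0
  have hrd : R.rd (ar (P u) (P w) (P s)) = 0 := by rw [rd_ar hu hw hs, h]
  have hlt : v (ar (P u) (P w) (P s)) < 1 := R.lt_of_zero (v_ar_le hu hw hs) hrd
  by_cases c1 : (res R P u).1 = (res R P w).1
  · by_cases c2 : (res R P u).1 = (res R P s).1
    · exact h0 (ar_vertical E hu hw hs c1 c2)
    · have e1 : ar (P u) (P s) (P w) = - ar (P u) (P w) (P s) := by unfold ar; ring
      have := one_le_ar (R := R) E w hu hs c2 (by rw [e1]; exact neg_ne_zero.mpr h0)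
      rw [e1, Valuation.map_neg] at this
      exact absurd hlt (not_lt.mpr this)
  · exact absurd hlt (not_lt.mpr (one_le_ar (R := R) E s hu hw c1 h0))

theorem ar_in_ne {u w s : ι} (hu : In v P u) (hw : In v P w) (hs : In v P s)
    (h : ar (res R P u) (res R P w) (res R P s) ≠ 0) : ar (P u) (P w) (P s) ≠ 0 := by
  intro h0
  apply h
  rw [← rd_ar hu hw hs, h0, R.zero]

theorem far_ne_zero {θ : ZMod 2} {q : ι} (hq : Far R P θ q) : (P q).1 ≠ 0 := by
  intro h
  have := hq.1
  rw [h, map_zero] at this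
  exact absurd this (not_lt.mpr zero_le_one)

theorem far_m {θ : ZMod 2} {q : ι} (hq : Far R P θ q) : v ((P q).2 / (P q).1) ≤ 1 := by
  rw [map_div₀]
  exact div_le_one_of_le₀ hq.2.1 zero_le

theorem ar_far_decomp {θ : ZMod 2} {q : ι} (hq : Far R P θ q) (u w : ι) :
    ar (P u) (P w) (P q) = (P q).1 * (((P w).1 - (P u).1) * ((P q).2 / (P q).1)
      - ((P w).2 - (P u).2)) + (((P w).2 - (P u).2) * (P u).1 - ((P w).1 - (P u).1) * (P u).2) := by
  have h0 := far_ne_zero hq
  unfold ar
  field_simp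
  ring

theorem far_second {u w : ι} (hu : In v P u) (hw : In v P w) :
    v (((P w).2 - (P u).2) * (P u).1 - ((P w).1 - (P u).1) * (P u).2) ≤ 1 := by
  apply v.map_sub_le
  · rw [map_mul]; exact mul_le_one' (v.map_sub_le hw.2 hu.2) hu.1
  · rw [map_mul]; exact mul_le_one' (v.map_sub_le hw.1 hu.1) hu.2

/-- Far points lie on every line of their direction. -/
theorem ar_far (E : Ext v P) {θ : ZMod 2} {q u w : ι} (hq : Far R P θ q) (hu : In v P u)
    (hw : In v P w)
    (h : (res R P w).2 - (res R P u).2 = θ * ((res R P w).1 - (res R P u).1)) :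
    ar (P u) (P w) (P q) = 0 := by
  by_contra h0
  have h0q := far_ne_zero hq
  have hbr : v (((P w).1 - (P u).1) * ((P q).2 / (P q).1) - ((P w).2 - (P u).2)) < 1 := by
    have a1 : v ((P w).1 - (P u).1) ≤ 1 := v.map_sub_le hw.1 hu.1
    have a2 : v ((P w).2 - (P u).2) ≤ 1 := v.map_sub_le hw.2 hu.2
    have a3 := far_m hq
    have a4 : v (((P w).1 - (P u).1) * ((P q).2 / (P q).1)) ≤ 1 := by
      rw [map_mul]; exact mul_le_one' a1 a3
    apply R.lt_of_zero (v.map_sub_le a4 a2)
    rw [R.sub _ _ a4 a2, R.mul' _ _ a1 a3, R.sub _ _ hw.1 hu.1, R.sub _ _ hw.2 hu.2, hq.2.2]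
    simp only [res] at h
    rw [h]; ring
  have hlt : v (ar (P u) (P w) (P q)) < v (P q).1 := by
    rw [ar_far_decomp hq]
    apply v.map_add_lt
    · rw [map_mul]
      exact mul_lt_of_lt_one_right (lt_of_lt_of_le zero_lt_one hq.1.le) hbr
    · exact lt_of_le_of_lt (far_second hu hw) hq.1
  have e1 : ar (P w) (P q) (P u) = ar (P u) (P w) (P q) := by unfold ar; ring
  have := E.minA w q u (by rw [e1]; exact h0)
  rw [e1, v.map_sub_eq_of_lt_left (lt_of_le_of_lt hu.1 hq.1)] at this
  exact absurd hlt (not_lt.mpr this)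

theorem ar_far_ne {θ : ZMod 2} {q u w : ι} (hq : Far R P θ q) (hu : In v P u)
    (hw : In v P w)
    (h : (res R P w).2 - (res R P u).2 ≠ θ * ((res R P w).1 - (res R P u).1)) :
    ar (P u) (P w) (P q) ≠ 0 := by
  intro h0
  have hbr : v (((P w).1 - (P u).1) * ((P q).2 / (P q).1) - ((P w).2 - (P u).2)) = 1 := by
    have a1 : v ((P w).1 - (P u).1) ≤ 1 := v.map_sub_le hw.1 hu.1
    have a2 : v ((P w).2 - (P u).2) ≤ 1 := v.map_sub_le hw.2 hu.2
    have a3 := far_m hq
    have a4 : v (((P w).1 - (P u).1) * ((P q).2 / (P q).1)) ≤ 1 := by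
      rw [map_mul]; exact mul_le_one' a1 a3
    apply R.eq_one_of_ne (v.map_sub_le a4 a2)
    rw [R.sub _ _ a4 a2, R.mul' _ _ a1 a3, R.sub _ _ hw.1 hu.1, R.sub _ _ hw.2 hu.2, hq.2.2]
    simp only [res] at h
    intro h'
    apply h
    linear_combination -h'
  rw [ar_far_decomp hq] at h0
  have h1 : v ((P q).1 * (((P w).1 - (P u).1) * ((P q).2 / (P q).1) - ((P w).2 - (P u).2)))
      = v (P q).1 := by rw [map_mul, hbr, mul_one]
  have h2 : (P q).1 * (((P w).1 - (P u).1) * ((P q).2 / (P q).1) - ((P w).2 - (P u).2))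
      = - (((P w).2 - (P u).2) * (P u).1 - ((P w).1 - (P u).1) * (P u).2) := by
    linear_combination h0
  rw [h2, Valuation.map_neg] at h1
  have h3 := far_second hu hw
  rw [h1] at h3
  exact absurd hq.1 (not_lt.mpr h3)

/-- A point on a line of integral slope through an integral point is integral or far. -/
theorem slope_lemma {u t : ι} (hu : In v P u) {m : K} (hm : v m ≤ 1)
    (h : (P t).2 - (P u).2 = m * ((P t).1 - (P u).1)) :
    (In v P t ∧ (res R P t).2 - (res R P u).2 = R.rd m * ((res R P t).1 - (res R P u).1)) ∨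
      Far R P (R.rd m) t := by
  have ht2 : (P t).2 = m * (P t).1 + ((P u).2 - m * (P u).1) := by linear_combination h
  have hc : v ((P u).2 - m * (P u).1) ≤ 1 := by
    apply v.map_sub_le hu.2
    rw [map_mul]; exact mul_le_one' hm hu.1
  by_cases hx : v (P t).1 ≤ 1
  · left
    have hy : v (P t).2 ≤ 1 := by
      rw [ht2]
      apply v.map_add_le _ hc
      rw [map_mul]; exact mul_le_one' hm hx
    refine ⟨⟨hx, hy⟩, ?_⟩
    have h' := congrArg R.rd h
    rw [R.sub _ _ hy hu.2, R.mul' _ _ hm (v.map_sub_le hx hu.1), R.sub _ _ hx hu.1] at h'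
    exact h'
  · right
    rw [not_le] at hx
    have hx0 : (P t).1 ≠ 0 := by
      intro h0
      rw [h0, map_zero] at hx
      exact absurd hx (not_lt.mpr zero_le_one)
    refine ⟨hx, ?_, ?_⟩
    · rw [ht2]
      apply v.map_add_le
      · rw [map_mul]; exact mul_le_of_le_one_left' hm
      · exact hc.trans hx.le
    · have e : (P t).2 / (P t).1 = m + ((P u).2 - m * (P u).1) / (P t).1 := by
        rw [ht2]; field_simp
      have hlt : v (((P u).2 - m * (P u).1) / (P t).1) < 1 := by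
        rw [map_div₀]
        exact (div_lt_one₀ (lt_of_lt_of_le zero_lt_one hx.le)).mpr (lt_of_le_of_lt hc hx)
      rw [e, R.add' _ _ hm hlt.le, R.zero_of_lt hlt, add_zero]

/-- The slope of a line through two integral points in different columns. -/
theorem slope_in {u w : ι} (hu : In v P u) (hw : In v P w)
    (hcol : (res R P u).1 ≠ (res R P w).1) :
    v (((P w).2 - (P u).2) / ((P w).1 - (P u).1)) ≤ 1 ∧
      (res R P w).2 - (res R P u).2
        = R.rd (((P w).2 - (P u).2) / ((P w).1 - (P u).1)) *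
          ((res R P w).1 - (res R P u).1) := by
  have h1 : v ((P w).1 - (P u).1) = 1 := by
    rw [Valuation.map_sub_swap]; exact v_col hu hw hcol
  have hm : v (((P w).2 - (P u).2) / ((P w).1 - (P u).1)) ≤ 1 := by
    rw [map_div₀, h1, div_one]; exact v.map_sub_le hw.2 hu.2
  have h0 : (P w).1 - (P u).1 ≠ 0 := by
    intro h
    rw [h, map_zero] at h1
    exact zero_ne_one h1
  refine ⟨hm, ?_⟩
  have h2 : (P w).2 - (P u).2 = ((P w).2 - (P u).2) / ((P w).1 - (P u).1) *
      ((P w).1 - (P u).1) := by field_simp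
  have h3 := congrArg R.rd h2
  rw [R.sub _ _ hw.2 hu.2, R.mul' _ _ hm h1.le, R.sub _ _ hw.1 hu.1] at h3
  exact h3

/-- The slope of a line from an integral point to a far point. -/
theorem slope_far {θ : ZMod 2} {q u : ι} (hq : Far R P θ q) (hu : In v P u) :
    v (((P q).2 - (P u).2) / ((P q).1 - (P u).1)) ≤ 1 ∧
      R.rd (((P q).2 - (P u).2) / ((P q).1 - (P u).1)) = θ ∧ (P q).1 - (P u).1 ≠ 0 := by
  have h0 := far_ne_zero hq
  have hvx : v ((P q).1 - (P u).1) = v (P q).1 :=
    v.map_sub_eq_of_lt_left (lt_of_le_of_lt hu.1 hq.1)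
  have hpos : 0 < v (P q).1 := lt_of_lt_of_le zero_lt_one hq.1.le
  have hx0 : (P q).1 - (P u).1 ≠ 0 := by
    intro h
    rw [h, map_zero] at hvx
    exact hpos.ne hvx
  have e : ((P q).2 - (P u).2) / ((P q).1 - (P u).1) = (P q).2 / (P q).1
      + ((P q).2 * (P u).1 - (P u).2 * (P q).1) / (((P q).1 - (P u).1) * (P q).1) := by
    field_simp
    ring
  have hnum : v ((P q).2 * (P u).1 - (P u).2 * (P q).1) ≤ v (P q).1 := by
    apply v.map_sub_le
    · rw [map_mul]
      exact (mul_le_of_le_one_right' hu.1).trans hq.2.1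
    · rw [map_mul]
      exact mul_le_of_le_one_left' hu.2
  have hlt : v (((P q).2 * (P u).1 - (P u).2 * (P q).1) / (((P q).1 - (P u).1) * (P q).1)) < 1 := by
    rw [map_div₀, map_mul, hvx]
    rw [div_lt_one₀ (mul_pos hpos hpos)]
    calc _ ≤ v (P q).1 := hnum
      _ = 1 * v (P q).1 := (one_mul _).symm
      _ < v (P q).1 * v (P q).1 := mul_lt_mul_of_pos_right hq.1 hpos
  have hm := far_m hq
  refine ⟨?_, ?_, hx0⟩
  · rw [e]; exact v.map_add_le hm hlt.le
  · rw [e, R.add' _ _ hm hlt.le, R.zero_of_lt hlt, add_zero, hq.2.2]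

theorem ar_far_far_ne {θ₁ θ₂ : ZMod 2} {q₁ q₂ w : ι} (h1 : Far R P θ₁ q₁) (h2 : Far R P θ₂ q₂)
    (hw : In v P w) (hθ : θ₁ ≠ θ₂) : ar (P q₁) (P q₂) (P w) ≠ 0 := by
  intro h0
  obtain ⟨_, s1, n1⟩ := slope_far h1 hw
  obtain ⟨_, s2, n2⟩ := slope_far h2 hw
  apply hθ
  rw [← s1, ← s2]
  congr 1
  rw [div_eq_div_iff n1 n2]
  unfold ar at h0
  linear_combination -h0

end core

end Run7.h321.Two
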