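import Pool.Agent.Run7.h321.Frame
import Pool.Agent.Run7.h321.TwoCore2

set_option autoImplicit false

namespace Run7.h321.Two

open Finset
open Run7.h321 (det3 ar)

section

variable {K : Type*} [Field K] {Γ : Type*} [LinearOrderedCommGroupWithZero Γ]
variable {v : Valuation K Γ} {w : K}

theorem zmod2_cases (z : ZMod 2) : z = 0 ∨ z = 1 := by
  revert z; decide

theorem diag_identity {xc yc xd yd x0 x1 y1 xs ys : K}
    (h0 : (xd - xc) * (0 - yc) - (yd - yc) * (x0 - xc) = 0)
    (h1 : xd * y1 - yd * x1 = 0) (h1' : (xc - 1) * y1 - yc * (x1 - 1) = 0)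
    (hs : xc * ys - yc * xs = 0) (hs' : (xd - 1) * ys - yd * (xs - 1) = 0)
    (hf : (x1 - x0) * ys - y1 * (xs - x0) = 0) :
    2 * yc * yd * (xc * yd - xd * yc) * ((xc - 1) * yd - (xd - 1) * yc) = 0 := by
  have H0 : (yd - yc) * x0 = xc * yd - xd * yc := by linear_combination -h0
  have H1x : (xd * yc - yd * (xc - 1)) * x1 = xd * yc := by
    linear_combination (xc - 1) * h1 - xd * h1'
  have H1y : (xd * yc - yd * (xc - 1)) * y1 = yc * yd := by
    linear_combination yc * h1 - yd * h1'
  have Hsx : (xc * yd - yc * (xd - 1)) * xs = xc * yd := by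
    linear_combination (xd - 1) * hs - xc * hs'
  have Hsy : (xc * yd - yc * (xd - 1)) * ys = yc * yd := by
    linear_combination yd * hs - yc * hs'
  have key : (((xd * yc - yd * (xc - 1)) * x1) * (yd - yc)
      - ((yd - yc) * x0) * (xd * yc - yd * (xc - 1))) * ((xc * yd - yc * (xd - 1)) * ys)
      - ((xd * yc - yd * (xc - 1)) * y1) * (((xc * yd - yc * (xd - 1)) * xs) * (yd - yc)
      - ((yd - yc) * x0) * (xc * yd - yc * (xd - 1))) = 0 := by
    linear_combination ((yd - yc) * (xd * yc - yd * (xc - 1)) * (xc * yd - yc * (xd - 1))) * hf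
  rw [H0, H1x, H1y, Hsx, Hsy] at key
  linear_combination key

end

section core

variable {K : Type*} [Field K] {Γ : Type*} [LinearOrderedCommGroupWithZero Γ]
  {v : Valuation K Γ} {R : Red v} {ι : Type*} {P : ι → K × K}

/-- The remaining points. -/
def Vert (v : Valuation K Γ) (P : ι → K × K) (t : ι) : Prop :=
  1 < v (P t).2 ∧ v (P t).1 < v (P t).2

/-- The six other points. -/
structure Six (R : Red v) (P : ι → K × K) (a b c d f₀ f₁ : ι) : Prop where
  ha : P a = (0, 0)
  hb : P b = (1, 0)
  ic : In v P c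
  id : In v P d
  rc : res R P c = (0, 1)
  rd : res R P d = (1, 1)
  f0 : Far R P 0 f₀
  f0y : (P f₀).2 = 0
  f1 : Far R P 1 f₁
  ua : ∀ t, v (P t).1 < 1 → v (P t).2 < 1 → t = a
  ub : ∀ t, v ((P t).1 - 1) < 1 → v (P t).2 < 1 → t = b
  uc : ∀ t, v (P t).1 < 1 → v (P t).2 = 1 → t = c
  ud : ∀ t, v ((P t).1 - 1) < 1 → v (P t).2 = 1 → t = d
  u0 : ∀ t, 1 < v (P t).1 → v (P t).2 < v (P t).1 → t = f₀
  u1 : ∀ t, 1 < v (P t).1 → v (P t).2 = v (P t).1 → t = f₁
  cdf : ar (P c) (P d) (P f₀) = 0
  adf : ar (P a) (P d) (P f₁) = 0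
  bcf : ar (P b) (P c) (P f₁) = 0

theorem In.res_cases {t : ι} :
    (res R P t).1 = 0 ∧ (res R P t).2 = 0 ∨ (res R P t).1 = 1 ∧ (res R P t).2 = 0 ∨
    (res R P t).1 = 0 ∧ (res R P t).2 = 1 ∨ (res R P t).1 = 1 ∧ (res R P t).2 = 1 := by
  rcases zmod2_cases (res R P t).1 with h1 | h1 <;> rcases zmod2_cases (res R P t).2 with h2 | h2 <;>
    simp [h1, h2]

theorem rd_unit {x : K} (h : v x = 1) : R.rd x = 1 := by
  rcases zmod2_cases (R.rd x) with h0 | h0
  · have := R.lt_of_zero h.le h0
    rw [h] at this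
    exact absurd this (lt_irrefl _)
  · exact h0

theorem rd_one_sub {x : K} (h : v (x - 1) < 1) : v x ≤ 1 ∧ R.rd x = 1 := by
  have h1 : v x = 1 := by
    have e : x = 1 + (x - 1) := by ring
    rw [e, v.map_add_eq_of_lt_left (by rw [map_one]; exact h), map_one]
  exact ⟨h1.le, rd_unit h1⟩

theorem exists_six {a b p : ι} (B : Base P a b p) (E : Ext v P) :
    ∃ c d f₀ f₁, Six R P a b c d f₀ f₁ := by
  have hab : a ≠ b := by
    rintro rfl
    have := B.ha.symm.trans B.hb
    simp at this
  have ia : In v P a := B.in_a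
  have ib : In v P b := B.in_b
  have ip : In v P p := B.in_p E
  have ra : res R P a = (0, 0) := by simp [res, B.ha, R.zero]
  have rb : res R P b = (1, 0) := by simp [res, B.hb, R.zero, R.one']
  have rp : (res R P p).2 = 1 := by simp [res, B.hp, R.one']
  -- the point at infinity of the base line
  obtain ⟨f₀, hf0a, hf0b, hf0⟩ := E.sg a b hab
  have f0y : (P f₀).2 = 0 := by
    have : ar (P a) (P b) (P f₀) = (P f₀).2 := by
      unfold ar; rw [B.ha, B.hb]; simp
    rw [← this]; exact hf0
  have hF0 : Far R P 0 f₀ := by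
    have hs : (P f₀).2 - (P a).2 = 0 * ((P f₀).1 - (P a).1) := by
      rw [f0y, B.ha]; simp
    rcases slope_lemma (R := R) ia (m := 0) (by rw [map_zero]; exact zero_le) hs with h | h
    · obtain ⟨hin, hr⟩ := h
      exfalso
      rw [R.zero, zero_mul, ra] at hr
      have hr2 : (res R P f₀).2 = 0 := by simpa using hr
      rcases zmod2_cases (res R P f₀).1 with h1 | h1
      · apply res_inj B E hin ia hf0a
        rw [ra]; exact Prod.ext h1 hr2
      · apply res_inj B E hin ib hf0b
        rw [rb]; exact Prod.ext h1 hr2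
    · rwa [R.zero] at h
  -- the second point of the upper row
  have hpf : p ≠ f₀ := by
    rintro rfl
    rw [B.hp] at f0y
    exact one_ne_zero f0y
  obtain ⟨q, hqp, hqf, hq⟩ := E.sg p f₀ hpf
  obtain ⟨sm, sr, sn⟩ := slope_far hF0 ip
  have hqs : (P q).2 - (P p).2 = ((P f₀).2 - (P p).2) / ((P f₀).1 - (P p).1)
      * ((P q).1 - (P p).1) := by
    unfold ar at hq
    field_simp
    linear_combination hq
  have iq : In v P q ∧ (res R P q).2 = 1 := by
    rcases slope_lemma (R := R) ip sm hqs with h | h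
    · refine ⟨h.1, ?_⟩
      have h2 := h.2
      rw [sr, zero_mul, rp] at h2
      linear_combination h2
    · exfalso
      rw [sr] at h
      have hl := ar_far E h ia ib (by rw [ra, rb]; simp)
      have qy : (P q).2 = 0 := by
        have : ar (P a) (P b) (P q) = (P q).2 := by
          unfold ar; rw [B.ha, B.hb]; simp
        rw [← this]; exact hl
      apply E.inj q f₀ hqf
      unfold ar at hq
      rw [qy, f0y, B.hp] at hq
      linear_combination hq
  have hcol : (res R P q).1 ≠ (res R P p).1 := by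
    intro h
    apply res_inj B E iq.1 ip hqp
    exact Prod.ext h (by rw [iq.2, rp])
  obtain ⟨c, d, ic, id, rc, rd⟩ : ∃ c d, In v P c ∧ In v P d ∧ res R P c = (0, 1) ∧
      res R P d = (1, 1) := by
    rcases zmod2_cases (res R P p).1 with h1 | h1
    · rcases zmod2_cases (res R P q).1 with h2 | h2
      · exact absurd (h2.trans h1.symm) hcol
      · exact ⟨p, q, ip, iq.1, Prod.ext h1 rp, Prod.ext h2 iq.2⟩
    · rcases zmod2_cases (res R P q).1 with h2 | h2
      · exact ⟨q, p, iq.1, ip, Prod.ext h2 iq.2, Prod.ext h1 rp⟩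
      · exact absurd (h2.trans h1.symm) hcol
  have hcd : c ≠ d := by
    rintro rfl
    rw [rc] at rd
    have := congrArg Prod.fst rd
    exact absurd this (by decide)
  have had : a ≠ d := by
    rintro rfl
    rw [ra] at rd
    have := congrArg Prod.fst rd
    exact absurd this (by decide)
  -- the direction one
  obtain ⟨f₁, hf1a, hf1d, hf1⟩ := E.sg a d had
  have hcolad : (res R P a).1 ≠ (res R P d).1 := by rw [ra, rd]; decide
  obtain ⟨tm, tr⟩ := slope_in ia id hcolad
  have tr1 : R.rd (((P d).2 - (P a).2) / ((P d).1 - (P a).1)) = 1 := by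
    rw [ra, rd] at tr
    simp only [sub_zero, mul_one] at tr
    exact tr.symm
  have hxad : (P d).1 - (P a).1 ≠ 0 := by
    intro h
    have := E.inj d a had.symm
    exact this (sub_eq_zero.mp h)
  have hf1s : (P f₁).2 - (P a).2 = ((P d).2 - (P a).2) / ((P d).1 - (P a).1)
      * ((P f₁).1 - (P a).1) := by
    unfold ar at hf1
    field_simp
    linear_combination hf1
  have hF1 : Far R P 1 f₁ := by
    rcases slope_lemma (R := R) ia tm hf1s with h | h
    · exfalso
      obtain ⟨hin, hr⟩ := h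
      rw [tr1, one_mul, ra] at hr
      simp only [sub_zero] at hr
      rcases zmod2_cases (res R P f₁).1 with h1 | h1
      · apply res_inj B E hin ia hf1a
        rw [ra]; exact Prod.ext h1 (by rw [hr, h1])
      · apply res_inj B E hin id hf1d
        rw [rd]; exact Prod.ext h1 (by rw [hr, h1])
    · rwa [tr1] at h
  have cdf : ∀ t, Far R P 0 t → ar (P c) (P d) (P t) = 0 := by
    intro t ht
    apply ar_far E ht ic id
    rw [rc, rd]; decide
  have abf : ∀ t, Far R P 0 t → (P t).2 = 0 := by
    intro t ht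
    have := ar_far E ht ia ib (by rw [ra, rb]; decide)
    have h2 : ar (P a) (P b) (P t) = (P t).2 := by
      unfold ar; rw [B.ha, B.hb]; simp
    rw [← h2]; exact this
  have adf : ∀ t, Far R P 1 t → ar (P a) (P d) (P t) = 0 := by
    intro t ht
    apply ar_far E ht ia id
    rw [ra, rd]; decide
  have bcf : ∀ t, Far R P 1 t → ar (P b) (P c) (P t) = 0 := by
    intro t ht
    apply ar_far E ht ib ic
    rw [rb, rc]; decide
  have hyc : (P c).2 ≠ 0 := by
    intro h
    have := congrArg Prod.snd rc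
    simp only [res, h, R.zero] at this
    exact absurd this (by decide)
  have hyd : (P d).2 ≠ 0 := by
    intro h
    have := congrArg Prod.snd rd
    simp only [res, h, R.zero] at this
    exact absurd this (by decide)
  have hxc1 : (P c).1 - 1 ≠ 0 := by
    intro h
    have h' : (P c).1 = 1 := by linear_combination h
    have := congrArg Prod.fst rc
    simp only [res, h', R.one'] at this
    exact absurd this (by decide)
  have hxd0 : (P d).1 ≠ 0 := by
    intro h
    have := congrArg Prod.fst rd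
    simp only [res, h, R.zero] at this
    exact absurd this (by decide)
  have uniq0 : ∀ t, Far R P 0 t → t = f₀ := by
    intro t ht
    by_contra hne
    have h1 := cdf t ht
    have h2 := cdf f₀ hF0
    unfold ar at h1 h2
    rw [abf t ht] at h1
    rw [f0y] at h2
    have h3 : ((P d).2 - (P c).2) * ((P t).1 - (P f₀).1) = 0 := by linear_combination h2 - h1
    rcases mul_eq_zero.mp h3 with h4 | h4
    · rw [h4, zero_mul, sub_zero] at h1
      rcases mul_eq_zero.mp h1 with h5 | h5
      · exact E.inj d c hcd.symm (sub_eq_zero.mp h5)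
      · apply hyc; linear_combination -h5
    · exact E.inj t f₀ hne (sub_eq_zero.mp h4)
  have uniq1 : ∀ t, Far R P 1 t → t = f₁ := by
    intro t ht
    by_contra hne
    have hδ : (P t).1 - (P f₁).1 ≠ 0 := sub_ne_zero.mpr (E.inj t f₁ hne)
    have a1 := adf t ht
    have a2 := adf f₁ hF1
    have b1 := bcf t ht
    have b2 := bcf f₁ hF1
    unfold ar at a1 a2 b1 b2
    rw [B.ha] at a1 a2
    rw [B.hb] at b1 b2
    simp only [sub_zero] at a1 a2 b1 b2
    have e1 : (P d).1 * ((P t).2 - (P f₁).2) = (P d).2 * ((P t).1 - (P f₁).1) := by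
      linear_combination a1 - a2
    have e2 : ((P c).1 - 1) * ((P t).2 - (P f₁).2) = (P c).2 * ((P t).1 - (P f₁).1) := by
      linear_combination b1 - b2
    have e3 : (P d).1 * (P c).2 = (P d).2 * ((P c).1 - 1) := by
      have : ((P t).1 - (P f₁).1) * ((P d).1 * (P c).2 - (P d).2 * ((P c).1 - 1)) = 0 := by
        linear_combination ((P c).1 - 1) * e1 - (P d).1 * e2
      exact sub_eq_zero.mp ((mul_eq_zero.mp this).resolve_left hδ)
    have e4 : (P d).2 * ((P c).1 - 1) = 0 := by
      linear_combination (P d).1 * b1 - ((P c).1 - 1) * a1 + ((P t).1 - 1) * e3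
    rcases mul_eq_zero.mp e4 with h | h
    · exact hyd h
    · exact hxc1 h
  have inj' : ∀ t u, In v P t → In v P u → res R P t = res R P u → t = u := by
    intro t u ht hu h
    by_contra hne
    exact res_inj B E ht hu hne h
  refine ⟨c, d, f₀, f₁, ⟨B.ha, B.hb, ic, id, rc, rd, hF0, f0y, hF1, ?_, ?_, ?_, ?_, ?_, ?_,
    cdf _ hF0, adf _ hF1, bcf _ hF1⟩⟩
  · intro t h1 h2
    apply inj' t a ⟨h1.le, h2.le⟩ ia
    rw [ra]
    exact Prod.ext (R.zero_of_lt h1) (R.zero_of_lt h2)
  · intro t h1 h2
    obtain ⟨h3, h4⟩ := rd_one_sub (R := R) h1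
    apply inj' t b ⟨h3, h2.le⟩ ib
    rw [rb]
    exact Prod.ext h4 (R.zero_of_lt h2)
  · intro t h1 h2
    apply inj' t c ⟨h1.le, h2.le⟩ ic
    rw [rc]
    exact Prod.ext (R.zero_of_lt h1) (rd_unit h2)
  · intro t h1 h2
    obtain ⟨h3, h4⟩ := rd_one_sub (R := R) h1
    apply inj' t d ⟨h3, h2.le⟩ id
    rw [rd]
    exact Prod.ext h4 (rd_unit h2)
  · intro t h1 h2
    apply uniq0
    refine ⟨h1, h2.le, R.zero_of_lt ?_⟩
    rw [map_div₀]
    exact (div_lt_one₀ (lt_trans zero_lt_one h1)).mpr h2
  · intro t h1 h2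
    apply uniq1
    refine ⟨h1, h2.le, rd_unit ?_⟩
    rw [map_div₀, h2]
    exact div_self (lt_trans zero_lt_one h1).ne'

end core

end Run7.h321.Two
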