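import Pool.Agent.Run7.h321.Leaf

set_option autoImplicit false

namespace Run7.h321.Two

open Finset
open Run7.h321 (det3 ar)

section core

variable {K : Type*} [Field K] {Γ : Type*} [LinearOrderedCommGroupWithZero Γ]
  {v : Valuation K Γ} {R : Red v} {ι : Type} [Fintype ι] [DecidableEq ι] [DecidableEq K]
  {P : ι → K × K}

/-- Homogeneous coordinates. -/
def hc (P : ι → K × K) (t : ι) : Fin 3 → K := ![1, (P t).1, (P t).2]

omit [Fintype ι] [DecidableEq ι] [DecidableEq K] in
theorem det3_hc (i j k : ι) : det3 (hc P i) (hc P j) (hc P k) = ar (P i) (P j) (P k) := by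
  unfold det3 hc ar
  simp only [Matrix.cons_val_zero, Matrix.cons_val_one, Matrix.cons_val]
  ring

omit [Fintype ι] [DecidableEq ι] [DecidableEq K] in
theorem cover_cases {a b c d f₀ f₁ : ι} (Q : Six R P a b c d f₀ f₁) (t : ι) :
    (t = a ∨ t = b ∨ t = c ∨ t = d ∨ t = f₀ ∨ t = f₁) ∨ Vert v P t := by
  by_cases hx : v (P t).1 ≤ 1
  · by_cases hy : v (P t).2 ≤ 1
    · left
      rcases zmod2_cases (R.rd (P t).1) with h1 | h1 <;>
        rcases zmod2_cases (R.rd (P t).2) with h2 | h2
      · exact Or.inl (Q.ua t (R.lt_of_zero hx h1) (R.lt_of_zero hy h2))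
      · exact Or.inr (Or.inr (Or.inl (Q.uc t (R.lt_of_zero hx h1)
          (R.eq_one_of_ne hy (by rw [h2]; decide)))))
      · refine Or.inr (Or.inl (Q.ub t ?_ (R.lt_of_zero hy h2)))
        apply R.lt_of_zero (v.map_sub_le hx (by rw [map_one]))
        rw [R.sub _ _ hx (by rw [map_one]), h1, R.one', sub_self]
      · refine Or.inr (Or.inr (Or.inr (Or.inl (Q.ud t ?_ (R.eq_one_of_ne hy (by rw [h2]; decide))))))
        apply R.lt_of_zero (v.map_sub_le hx (by rw [map_one]))
        rw [R.sub _ _ hx (by rw [map_one]), h1, R.one', sub_self]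
    · right
      rw [not_le] at hy
      exact ⟨hy, lt_of_le_of_lt hx hy⟩
  · rw [not_le] at hx
    rcases lt_trichotomy (v (P t).2) (v (P t).1) with h | h | h
    · exact Or.inl (Or.inr (Or.inr (Or.inr (Or.inr (Or.inl (Q.u0 t hx h))))))
    · exact Or.inl (Or.inr (Or.inr (Or.inr (Or.inr (Or.inr (Q.u1 t hx h))))))
    · right
      exact ⟨lt_trans hx h, h⟩

theorem card_odd (S : Sys (hc P)) (a : ι) : Odd (Fintype.card ι) := by
  have h := S.even_union a (univ.erase a) (by simp) (by
    intro s _ s' hs' _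
    exact mem_erase.mpr ⟨hs', mem_univ _⟩)
  rw [card_erase_of_mem (mem_univ a), card_univ] at h
  have hpos : 0 < Fintype.card ι := Fintype.card_pos_iff.mpr ⟨a⟩
  obtain ⟨m, hm⟩ := h
  exact ⟨m, by omega⟩

theorem vert_odd (S : Sys (hc P)) {a b c d f₀ f₁ : ι} (Q : Six R P a b c d f₀ f₁)
    (V : Finset ι) (hV : ∀ t, t ∈ V ↔ Vert v P t) : Odd V.card := by
  have h01 : (0 : ZMod 2) ≠ 1 := by decide
  have ia : In v P a := by unfold In; rw [Q.ha]; simp
  have ib : In v P b := by unfold In; rw [Q.hb]; simp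
  have ra : res R P a = (0, 0) := by simp [res, Q.ha, R.zero]
  have rb : res R P b = (1, 0) := by simp [res, Q.hb, R.zero, R.one']
  have hne : ∀ t u, (res R P t).1 ≠ (res R P u).1 ∨ (res R P t).2 ≠ (res R P u).2 → t ≠ u := by
    rintro t u h rfl
    rcases h with h | h <;> exact h rfl
  have hfar : ∀ θ t u, In v P t → Far R P θ u → t ≠ u := by
    rintro θ t u h1 h2 rfl
    exact absurd h1.1 (not_le.mpr h2.1)
  have hab : a ≠ b := hne _ _ (Or.inl (by rw [ra, rb]; decide))
  have hac : a ≠ c := hne _ _ (Or.inr (by rw [ra, Q.rc]; decide))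
  have had : a ≠ d := hne _ _ (Or.inl (by rw [ra, Q.rd]; decide))
  have hbc : b ≠ c := hne _ _ (Or.inl (by rw [rb, Q.rc]; decide))
  have hbd : b ≠ d := hne _ _ (Or.inr (by rw [rb, Q.rd]; decide))
  have hcd : c ≠ d := hne _ _ (Or.inl (by rw [Q.rc, Q.rd]; decide))
  have hff : f₀ ≠ f₁ := by
    rintro h
    have h1 := Q.f0.2.2
    have h2 := Q.f1.2.2
    rw [h, h2] at h1
    exact h01 h1.symm
  have hT : ({a, b, c, d, f₀, f₁} : Finset ι).card = 6 := by
    rw [card_insert_of_notMem, card_insert_of_notMem, card_insert_of_notMem,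
      card_insert_of_notMem, card_insert_of_notMem, card_singleton]
    · rw [mem_singleton]; exact hff
    · simp only [mem_insert, mem_singleton, not_or]
      exact ⟨hfar _ _ _ Q.id Q.f0, hfar _ _ _ Q.id Q.f1⟩
    · simp only [mem_insert, mem_singleton, not_or]
      exact ⟨hcd, hfar _ _ _ Q.ic Q.f0, hfar _ _ _ Q.ic Q.f1⟩
    · simp only [mem_insert, mem_singleton, not_or]
      exact ⟨hbc, hbd, hfar _ _ _ ib Q.f0, hfar _ _ _ ib Q.f1⟩
    · simp only [mem_insert, mem_singleton, not_or]
      exact ⟨hab, hac, had, hfar _ _ _ ia Q.f0, hfar _ _ _ ia Q.f1⟩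
  have hdisj : ∀ t, t ∈ ({a, b, c, d, f₀, f₁} : Finset ι) → ¬ Vert v P t := by
    intro t ht hv
    have hin : ∀ u, In v P u → ¬ Vert v P u := fun u h1 h2 => absurd h1.2 (not_le.mpr h2.1)
    have hf : ∀ θ u, Far R P θ u → ¬ Vert v P u := fun θ u h1 h2 =>
      absurd h1.2.1 (not_le.mpr h2.2)
    simp only [mem_insert, mem_singleton] at ht
    rcases ht with rfl | rfl | rfl | rfl | rfl | rfl
    · exact hin _ ia hv
    · exact hin _ ib hv
    · exact hin _ Q.ic hv
    · exact hin _ Q.id hv
    · exact hf _ _ Q.f0 hv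
    · exact hf _ _ Q.f1 hv
  have hun : ({a, b, c, d, f₀, f₁} : Finset ι)ᶜ = V := by
    ext t
    rw [mem_compl, hV]
    constructor
    · intro h
      rcases cover_cases Q t with h1 | h1
      · exfalso
        apply h
        simp only [mem_insert, mem_singleton]
        exact h1
      · exact h1
    · intro h1 h2
      exact hdisj t h2 h1
  have hcard := card_compl_add_card ({a, b, c, d, f₀, f₁} : Finset ι)
  rw [hun, hT] at hcard
  obtain ⟨m, hm⟩ := card_odd S a
  refine ⟨m - 3, ?_⟩
  omega

theorem leaf_false {w : K} (D : DV v w) (E : Ext v P) (S : Sys (hc P)) (h2 : (2 : K) ≠ 0)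
    {a b c d f₀ f₁ : ι} (Q : Six R P a b c d f₀ f₁) : False := by
  classical
  let V : Finset ι := univ.filter fun t => Vert v P t
  have hVm : ∀ t, t ∈ V ↔ Vert v P t := fun t => by simp [V]
  have hV := vert_odd S Q V hVm
  let ξ : ι → K := fun t => 1 / (P t).2
  let η : ι → K := fun t => (P t).1 / (P t).2
  have hpow : ∀ x : K, v x < 1 → v x ≤ v w := by
    intro x hx
    by_cases h0 : x = 0
    · rw [h0, map_zero]; exact zero_le
    · obtain ⟨n, hn⟩ := D.pow x h0
      rw [hn] at hx ⊢
      have h1 : v w ^ n ≤ v w ^ (1 : ℤ) := by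
        rw [D.zpow_le]
        by_contra hlt
        push Not at hlt
        have : v w ^ (0 : ℤ) ≤ v w ^ n := by
          rw [D.zpow_le]; omega
        rw [zpow_zero] at this
        exact absurd hx (not_lt.mpr this)
      rwa [zpow_one] at h1
  have hξ : ∀ t, Vert v P t → v (ξ t) < 1 := by
    intro t ht
    simp only [ξ]
    rw [map_div₀, map_one]
    exact (div_lt_one₀ (lt_trans zero_lt_one ht.1)).mpr ht.1
  have hη : ∀ t, Vert v P t → v (η t) < 1 := by
    intro t ht
    simp only [η]
    rw [map_div₀]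
    exact (div_lt_one₀ (lt_trans zero_lt_one ht.1)).mpr ht.2
  obtain ⟨s, hsV, hs⟩ := exists_nested V hV
    (fun k t s => v (ξ t - ξ s) ≤ v w ^ (k + 1) ∧ v (η t - η s) ≤ v w ^ (k + 1))
    (by
      intro k t
      simp only [sub_self, map_zero]
      exact ⟨zero_le, zero_le⟩)
    (by
      intro k t s h
      rw [Valuation.map_sub_swap v (ξ s), Valuation.map_sub_swap v (η s)]
      exact h)
    (by
      intro k t s u h1 h2
      constructor
      · have e : ξ t - ξ u = (ξ t - ξ s) + (ξ s - ξ u) := by ring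
        rw [e]; exact v.map_add_le h1.1 h2.1
      · have e : η t - η u = (η t - η s) + (η s - η u) := by ring
        rw [e]; exact v.map_add_le h1.2 h2.2)
    (by
      intro k t s h
      have hle : v w ^ (k + 1 + 1) ≤ v w ^ (k + 1) := by
        rw [pow_succ]
        exact mul_le_of_le_one_right' D.lt.le
      exact ⟨h.1.trans hle, h.2.trans hle⟩)
    (by
      intro t ht s hs
      rw [hVm] at ht hs
      rw [zero_add, pow_one]
      exact ⟨hpow _ (v.map_sub_lt (hξ t ht) (hξ s hs)), hpow _ (v.map_sub_lt (hη t ht) (hη s hs))⟩)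
  have hsv : Vert v P s := (hVm s).mp hsV
  have hys : (P s).2 ≠ 0 := by
    intro h
    have := hsv.1
    rw [h, map_zero] at this
    exact absurd this (not_lt.mpr zero_le_one)
  have hξs := hξ s hsv
  have hηs := hη s hsv
  have hx1 : (1 : K) = ξ s * (P s).2 := by simp only [ξ]; field_simp
  have hx2 : (P s).1 = η s * (P s).2 := by simp only [η]; field_simp
  have hwk : ∀ k : ℕ, 1 ≤ k → v w ^ k < 1 := by
    intro k hk
    exact pow_lt_one₀ zero_le D.lt (by omega)
  have hballV : ∀ k : ℕ, 1 ≤ k → ∀ t, (v (1 - ξ s * (P t).2) ≤ v w ^ k * v (P t).2 ∧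
      v ((P t).1 - η s * (P t).2) ≤ v w ^ k * v (P t).2) ↔
      (t ∈ V ∧ (v (ξ t - ξ s) ≤ v w ^ (k - 1 + 1) ∧ v (η t - η s) ≤ v w ^ (k - 1 + 1))) := by
    intro k hk t
    have hk' : k - 1 + 1 = k := by omega
    rw [hk', hVm]
    constructor
    · rintro ⟨h1, h2⟩
      have hy1 : 1 < v (P t).2 := by
        by_contra hle
        rw [not_lt] at hle
        have h3 : v (ξ s * (P t).2) < 1 := by
          rw [map_mul]; exact lt_of_le_of_lt (mul_le_of_le_one_right' hle) hξs
        rw [v.map_sub_eq_of_lt_left (by rw [map_one]; exact h3), map_one] at h1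
        have h4 : v w ^ k * v (P t).2 < 1 :=
          lt_of_le_of_lt (mul_le_of_le_one_right' hle) (hwk k hk)
        exact absurd h1 (not_le.mpr h4)
      have hyp : 0 < v (P t).2 := lt_trans zero_lt_one hy1
      have hy0 : (P t).2 ≠ 0 := (Valuation.ne_zero_iff v).mp hyp.ne'
      have hx : v (P t).1 < v (P t).2 := by
        have e : (P t).1 = ((P t).1 - η s * (P t).2) + η s * (P t).2 := by ring
        rw [e]
        apply v.map_add_lt
        · calc _ ≤ v w ^ k * v (P t).2 := h2
            _ < 1 * v (P t).2 := mul_lt_mul_of_pos_right (hwk k hk) hyp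
            _ = v (P t).2 := one_mul _
        · rw [map_mul]
          calc v (η s) * v (P t).2 < 1 * v (P t).2 := mul_lt_mul_of_pos_right hηs hyp
            _ = v (P t).2 := one_mul _
      refine ⟨⟨hy1, hx⟩, ?_, ?_⟩
      · have e : 1 - ξ s * (P t).2 = (ξ t - ξ s) * (P t).2 := by
          simp only [ξ]; field_simp
        rw [e, map_mul] at h1
        exact le_of_mul_le_mul_right h1 hyp
      · have e : (P t).1 - η s * (P t).2 = (η t - η s) * (P t).2 := by
          simp only [η]; field_simp
        rw [e, map_mul] at h2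
        exact le_of_mul_le_mul_right h2 hyp
    · rintro ⟨hv, h1, h2⟩
      have hyp : 0 < v (P t).2 := lt_trans zero_lt_one hv.1
      have hy0 : (P t).2 ≠ 0 := (Valuation.ne_zero_iff v).mp hyp.ne'
      constructor
      · have e : 1 - ξ s * (P t).2 = (ξ t - ξ s) * (P t).2 := by
          simp only [ξ]; field_simp
        rw [e, map_mul]
        exact mul_le_mul_left h1 _
      · have e : (P t).1 - η s * (P t).2 = (η t - η s) * (P t).2 := by
          simp only [η]; field_simp
        rw [e, map_mul]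
        exact mul_le_mul_left h2 _
  have hball : ∀ k : ℕ, 1 ≤ k → ∀ U : Finset ι, (∀ t, t ∈ U ↔
      (v (1 - ξ s * (P t).2) ≤ v w ^ k * v (P t).2 ∧
        v ((P t).1 - η s * (P t).2) ≤ v w ^ k * v (P t).2)) → Odd U.card := by
    intro k hk U hU
    apply hs (k - 1) U
    intro t
    rw [hU t]
    exact hballV k hk t
  -- the pair a, c
  have key1 : det3 (hc P s) (hc P a) (hc P c) = 0 := by
    apply frame_pair D S (σ₀ := ξ s) (σ₁ := η s) (θ₁ := 0) (θ₂ := 0)
    · simpa [hc] using hx1
    · simpa [hc] using hx2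
    · simpa [hc] using hys
    · exact hξs
    · exact hηs
    · simp [hc, Q.ha]
    · simp [hc, Q.ha]
    · simp [hc]
    · rw [map_zero]; exact zero_le
    · rw [map_zero]; exact zero_le
    · intro k hk U hU
      apply hball k hk U
      simpa [hc] using hU
    · intro t h1 h2
      simp only [hc, Matrix.cons_val_zero, Matrix.cons_val_one, Matrix.cons_val, zero_mul,
        sub_zero, map_one] at h1 h2
      exact Q.ua t h1 h2
    · intro t h1 h2
      simp only [hc, Matrix.cons_val_zero, Matrix.cons_val_one, Matrix.cons_val, zero_mul,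
        sub_zero, map_one] at h1 h2
      exact Q.uc t h1 h2
  have key2 : det3 (hc P s) (hc P b) (hc P d) = 0 := by
    apply frame_pair D S (σ₀ := ξ s) (σ₁ := η s) (θ₁ := 1) (θ₂ := 0)
    · simpa [hc] using hx1
    · simpa [hc] using hx2
    · simpa [hc] using hys
    · exact hξs
    · exact hηs
    · simp [hc, Q.hb]
    · simp [hc, Q.hb]
    · simp [hc]
    · rw [map_one]
    · rw [map_zero]; exact zero_le
    · intro k hk U hU
      apply hball k hk U
      simpa [hc] using hU
    · intro t h1 h2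
      simp only [hc, Matrix.cons_val_zero, Matrix.cons_val_one, Matrix.cons_val, zero_mul,
        sub_zero, map_one, mul_one] at h1 h2
      exact Q.ub t h1 h2
    · intro t h1 h2
      simp only [hc, Matrix.cons_val_zero, Matrix.cons_val_one, Matrix.cons_val, zero_mul,
        sub_zero, map_one, mul_one] at h1 h2
      exact Q.ud t h1 h2
  have hxf : (P f₀).1 ≠ 0 := far_ne_zero Q.f0
  have hvθ : v (1 / (P f₀).1) < 1 := by
    rw [map_div₀, map_one]
    exact (div_lt_one₀ (lt_trans zero_lt_one Q.f0.1)).mpr Q.f0.1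
  have key3 : det3 ![(hc P s) 1, (hc P s) 0, (hc P s) 2] ![(hc P f₀) 1, (hc P f₀) 0, (hc P f₀) 2]
      ![(hc P f₁) 1, (hc P f₁) 0, (hc P f₁) 2] = 0 := by
    have hvt : ∀ t, v (1 - 1 / (P f₀).1 * (P t).1) < v (P t).1 → 1 < v (P t).1 := by
      intro t h
      by_contra hle
      rw [not_lt] at hle
      have h3 : v (1 / (P f₀).1 * (P t).1) < 1 := by
        rw [map_mul]; exact lt_of_le_of_lt (mul_le_of_le_one_right' hle) hvθ
      rw [v.map_sub_eq_of_lt_left (by rw [map_one]; exact h3), map_one] at h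
      exact absurd h (not_lt.mpr hle)
    apply frame_pair (X := fun t => ![(hc P t) 1, (hc P t) 0, (hc P t) 2]) D S.swap
      (σ₀ := η s) (σ₁ := ξ s) (θ₁ := 1 / (P f₀).1) (θ₂ := 0)
    · simpa [hc] using hx2
    · simpa [hc] using hx1
    · simpa [hc] using hys
    · exact hηs
    · exact hξs
    · simp [hc, hxf]
    · simp [hc, Q.f0y]
    · simpa [hc] using hxf
    · exact hvθ.le
    · rw [map_zero]; exact zero_le
    · intro k hk U hU
      apply hball k hk U
      intro t
      rw [hU t]
      simp only [hc, Matrix.cons_val_zero, Matrix.cons_val_one, Matrix.cons_val]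
      exact and_comm
    · intro t h1 h2
      simp only [hc, Matrix.cons_val_zero, Matrix.cons_val_one, Matrix.cons_val, zero_mul,
        sub_zero] at h1 h2
      exact Q.u0 t (hvt t h1) h2
    · intro t h1 h2
      simp only [hc, Matrix.cons_val_zero, Matrix.cons_val_one, Matrix.cons_val, zero_mul,
        sub_zero] at h1 h2
      exact Q.u1 t (hvt t h1) h2
  -- the diagonal points
  have g1 := key1
  have g2 := key2
  have g3 := key3
  have c0 := Q.cdf
  have c1 := Q.adf
  have c2 := Q.bcf
  rw [det3_hc] at g1 g2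
  unfold det3 hc at g3
  simp only [Matrix.cons_val_zero, Matrix.cons_val_one, Matrix.cons_val] at g3
  unfold ar at g1 g2 c0 c1 c2
  rw [Q.f0y] at c0 g3
  rw [Q.ha] at g1 c1
  rw [Q.hb] at g2 c2
  simp only [] at g1 g2 c1 c2
  have hfin := diag_identity (xc := (P c).1) (yc := (P c).2) (xd := (P d).1) (yd := (P d).2)
    (x0 := (P f₀).1) (x1 := (P f₁).1) (y1 := (P f₁).2) (xs := (P s).1) (ys := (P s).2)
    (by linear_combination c0) (by linear_combination c1) (by linear_combination c2)
    (by linear_combination g1) (by linear_combination g2) (by linear_combination -g3)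
  have hyc : (P c).2 ≠ 0 := by
    intro h
    have := congrArg Prod.snd Q.rc
    simp only [res, h, R.zero] at this
    exact absurd this (by decide)
  have hyd : (P d).2 ≠ 0 := by
    intro h
    have := congrArg Prod.snd Q.rd
    simp only [res, h, R.zero] at this
    exact absurd this (by decide)
  have ia : In v P a := by unfold In; rw [Q.ha]; simp
  have ib : In v P b := by unfold In; rw [Q.hb]; simp
  have ra : res R P a = (0, 0) := by simp [res, Q.ha, R.zero]
  have rb : res R P b = (1, 0) := by simp [res, Q.hb, R.zero, R.one']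
  have n1 : ar (P a) (P c) (P d) ≠ 0 := by
    apply ar_in_ne ia Q.ic Q.id
    rw [ra, Q.rc, Q.rd]; decide
  have n2 : ar (P b) (P c) (P d) ≠ 0 := by
    apply ar_in_ne ib Q.ic Q.id
    rw [rb, Q.rc, Q.rd]; decide
  have m1 : (P c).1 * (P d).2 - (P d).1 * (P c).2 ≠ 0 := by
    intro h
    apply n1
    unfold ar
    rw [Q.ha]
    linear_combination h
  have m2 : ((P c).1 - 1) * (P d).2 - ((P d).1 - 1) * (P c).2 ≠ 0 := by
    intro h
    apply n2
    unfold ar
    rw [Q.hb]
    linear_combination h
  exact (mul_ne_zero (mul_ne_zero (mul_ne_zero (mul_ne_zero h2 hyc) hyd) m1) m2) hfin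

end core

end Run7.h321.Two
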