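import Mathlib

set_option autoImplicit false

namespace Run7.h321

section identities

variable {K : Type*} [CommRing K]

/-- Twice the signed area of the triangle with vertices `p`, `q`, `r`. -/
def ar (p q r : K × K) : K :=
  (q.1 - p.1) * (r.2 - p.2) - (q.2 - p.2) * (r.1 - p.1)

theorem ar_swap12 (p q r : K × K) : ar q p r = - ar p q r := by unfold ar; ring

theorem ar_swap23 (p q r : K × K) : ar p r q = - ar p q r := by unfold ar; ring

theorem ar_cycle (p q r : K × K) : ar q r p = ar p q r := by unfold ar; ring

/-- Two-by-two minors in barycentric coordinates, eliminating `C`. -/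
theorem bary_C (A B C P W : K × K) :
    ar P B C * ar A W C - ar A P C * ar W B C = ar A B C * ar C P W := by
  unfold ar; ring

theorem bary_A (A B C P R : K × K) :
    ar A P C * ar A B R - ar A B P * ar A R C = ar A B C * ar A P R := by
  unfold ar; ring

theorem bary_B (A B C W Q : K × K) :
    ar W B C * ar A B Q - ar A B W * ar Q B C = - (ar A B C * ar B W Q) := by
  unfold ar; ring

theorem bary_full (A B C D R Q : K × K) :
    ar D B C * (ar A R C * ar A B Q - ar A B R * ar A Q C)
      - ar A D C * (ar R B C * ar A B Q - ar A B R * ar Q B C)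
      + ar A B D * (ar R B C * ar A Q C - ar A R C * ar Q B C)
      = ar A B C ^ 2 * ar D R Q := by
  unfold ar; ring

end identities

/-- Eight points forming a Moebius-Kantor configuration force a root of `z ^ 2 - z + 1`. -/
theorem mk_root {K : Type*} [Field K] (A B C D P Q R W : K × K)
    (h1 : ar C P W = 0) (h2 : ar D R Q = 0) (h3 : ar A P R = 0) (h4 : ar B W Q = 0)
    (h5 : ar C R B = 0) (h6 : ar D A W = 0) (h7 : ar C A Q = 0) (h8 : ar D P B = 0)
    (n1 : ar A P C ≠ 0) (n2 : ar A W C ≠ 0) (n3 : ar A R C ≠ 0) (n4 : ar A B Q ≠ 0)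
    (n5 : ar D B C ≠ 0) : ∃ z : K, z ^ 2 - z + 1 = 0 := by
  have hR : ar R B C = 0 := by
    have : ar R B C = ar C R B := by unfold ar; ring
    rw [this, h5]
  have hQ : ar A Q C = 0 := by
    have : ar A Q C = ar C A Q := by unfold ar; ring
    rw [this, h7]
  have e1 := bary_C A B C P W
  have e3 := bary_A A B C P R
  have e4 := bary_B A B C W Q
  have e6 : ar A D C * ar A B W - ar A B D * ar A W C = ar A B C * ar A D W :=
    bary_A A B C D W
  have e6' : ar A D W = 0 := by
    have : ar A D W = - ar D A W := by unfold ar; ring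
    rw [this, h6, neg_zero]
  have e8 : ar D B C * ar A B P - ar A B D * ar P B C = - (ar A B C * ar B D P) :=
    bary_B A B C D P
  have e8' : ar B D P = 0 := by
    have : ar B D P = ar D P B := by unfold ar; ring
    rw [this, h8]
  have e2 := bary_full A B C D R Q
  rw [h1] at e1
  rw [h3] at e3
  rw [h4] at e4
  rw [e6'] at e6
  rw [e8'] at e8
  rw [h2, hR, hQ] at e2
  generalize ar P B C = PA at *
  generalize ar A P C = PB at *
  generalize ar A B P = PC at *
  generalize ar W B C = WA at *
  generalize ar A W C = WB at *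
  generalize ar A B W = WC at *
  generalize ar Q B C = QA at *
  generalize ar A B Q = QC at *
  generalize ar A R C = RB at *
  generalize ar A B R = RC at *
  generalize ar D B C = DA at *
  generalize ar A D C = DB at *
  generalize ar A B D = DC at *
  generalize ar A B C = T at *
  have key : (DB * RC * QC * DA - QA * DC ^ 2 * RB) * (PB * WB) = 0 := by
    linear_combination (DB * QC * DA * WB) * e3 + (DB * QC * WB * RB) * e8
      + (DB * QC * RB * DC) * e1 + (DB * RB * DC * PB) * e4 + (RB * DC * PB * QA) * e6
  have key2 : DB * RC * QC * DA - QA * DC ^ 2 * RB = 0 := by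
    rcases mul_eq_zero.mp key with h | h
    · exact h
    · rcases mul_eq_zero.mp h with h' | h'
      · exact absurd h' n1
      · exact absurd h' n2
  have key3 : RB * ((QA * DC) ^ 2 - (QA * DC) * (QC * DA) + (QC * DA) ^ 2) = 0 := by
    linear_combination (QC * DA) * e2 - QA * key2
  have key4 : (QA * DC) ^ 2 - (QA * DC) * (QC * DA) + (QC * DA) ^ 2 = 0 := by
    rcases mul_eq_zero.mp key3 with h | h
    · exact absurd h n3
    · exact h
  refine ⟨(QA * DC) / (QC * DA), ?_⟩
  have hne : QC * DA ≠ 0 := mul_ne_zero n4 n5
  field_simp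
  linear_combination key4

end Run7.h321
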