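import Pool.Agent.Run7.h321.Core3

set_option autoImplicit false

namespace Run7.h321

section

variable {K : Type*} [Field K] {Γ : Type*} [LinearOrderedCommGroupWithZero Γ]
  {v : Valuation K Γ}

/-- Affine form of the theorem, for points with distinct first coordinates. -/
theorem affine_sg (R : Red v) (hz : ∀ z : K, z ^ 2 - z + 1 ≠ 0) {ι : Type*} [Finite ι]
    (P : ι → K × K) (inj : ∀ i j, i ≠ j → (P i).1 ≠ (P j).1)
    (sg : ∀ i j, i ≠ j → ∃ k, k ≠ i ∧ k ≠ j ∧ ar (P i) (P j) (P k) = 0) :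
    ∀ i j k, ar (P i) (P j) (P k) = 0 := by
  by_contra hcon
  push Not at hcon
  obtain ⟨i0, j0, k0, h0⟩ := hcon
  let α := {x : ι × ι × ι // ar (P x.1) (P x.2.1) (P x.2.2) ≠ 0}
  have : Nonempty α := ⟨⟨(i0, j0, k0), h0⟩⟩
  have : Finite α := Subtype.finite
  let f : α → Lex (Γ × Γ) := fun x =>
    toLex (v (ar (P x.1.1) (P x.1.2.1) (P x.1.2.2)) / v ((P x.1.2.1).1 - (P x.1.2.2).1),
      v ((P x.1.2.1).1 - (P x.1.2.2).1))
  obtain ⟨⟨⟨p, a, b⟩, hpab⟩, hmin⟩ := Finite.exists_min f
  simp only at hpab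
  have hmin' : ∀ s t u, ar (P s) (P t) (P u) ≠ 0 →
      (v (ar (P p) (P a) (P b)) / v ((P a).1 - (P b).1)
        < v (ar (P s) (P t) (P u)) / v ((P t).1 - (P u).1)) ∨
      (v (ar (P p) (P a) (P b)) / v ((P a).1 - (P b).1)
        = v (ar (P s) (P t) (P u)) / v ((P t).1 - (P u).1) ∧
        v ((P a).1 - (P b).1) ≤ v ((P t).1 - (P u).1)) := by
    intro s t u h
    have := hmin ⟨(s, t, u), h⟩
    rw [Prod.Lex.le_iff] at this
    exact this
  have hab : a ≠ b := by
    rintro rfl
    apply hpab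
    unfold ar; ring
  have hΔ : (P b).1 - (P a).1 ≠ 0 := sub_ne_zero.mpr (inj b a hab.symm)
  set A := ar (P a) (P b) (P p) with hA
  have hAp : ar (P p) (P a) (P b) = A := by rw [hA]; unfold ar; ring
  have hA0 : A ≠ 0 := by rw [← hAp]; exact hpab
  rw [hAp] at hmin'
  have hvA : 0 < v A := by
    rw [zero_lt_iff]; exact (Valuation.ne_zero_iff v).mpr hA0
  have hvΔ : 0 < v ((P b).1 - (P a).1) := by
    rw [zero_lt_iff]; exact (Valuation.ne_zero_iff v).mpr hΔ
  rw [Valuation.map_sub_swap v (P a).1 (P b).1] at hmin'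
  set Δ := (P b).1 - (P a).1 with hΔdef
  let P' : ι → K × K := fun s => (((P s).1 - (P a).1) / Δ, ar (P a) (P b) (P s) / A)
  have har : ∀ s t u, ar (P' s) (P' t) (P' u) = ar (P s) (P t) (P u) / A := by
    intro s t u
    have h1 : ∀ s t, (P' t).1 - (P' s).1 = ((P t).1 - (P s).1) / Δ := by
      intro s t; simp only [P']; ring
    have h2 : ∀ s t, (P' t).2 - (P' s).2
        = (Δ * ((P t).2 - (P s).2) - ((P b).2 - (P a).2) * ((P t).1 - (P s).1)) / A := by
      intro s t
      simp only [P', ar]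
      rw [hΔdef]
      ring
    unfold ar
    rw [h1, h2, h1, h2]
    field_simp
    ring
  have hx : ∀ t u, (P' t).1 - (P' u).1 = ((P t).1 - (P u).1) / Δ := by
    intro t u; simp only [P']; ring
  have E : Ext v P' := by
    refine ⟨?_, ?_, ?_, ?_⟩
    · intro i j hij h
      have := hx i j
      rw [h, sub_self] at this
      have h' := (div_eq_zero_iff.mp this.symm).resolve_right hΔ
      exact inj i j hij (sub_eq_zero.mp h')
    · intro i j hij
      obtain ⟨k, h1, h2, h3⟩ := sg i j hij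
      exact ⟨k, h1, h2, by rw [har, h3, zero_div]⟩
    · intro s t u h
      rw [har] at h ⊢
      rw [hx]
      have h' : ar (P s) (P t) (P u) ≠ 0 := fun h0 => h (by rw [h0, zero_div])
      have htu : t ≠ u := by
        rintro rfl
        apply h'; unfold ar; ring
      have hvx : 0 < v ((P t).1 - (P u).1) := by
        rw [zero_lt_iff]
        exact (Valuation.ne_zero_iff v).mpr (sub_ne_zero.mpr (inj t u htu))
      rw [map_div₀, map_div₀]
      have hle : v A / v Δ ≤ v (ar (P s) (P t) (P u)) / v ((P t).1 - (P u).1) := by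
        rcases hmin' s t u h' with h1 | h1
        · exact h1.le
        · exact h1.1.le
      rw [div_le_div_iff₀ hvΔ hvx] at hle
      rw [div_le_div_iff₀ hvΔ hvA]
      rw [mul_comm (v ((P t).1 - (P u).1))]
      exact hle
    · intro s t u h hlt
      rw [har] at h hlt ⊢
      rw [hx]
      have h' : ar (P s) (P t) (P u) ≠ 0 := fun h0 => h (by rw [h0, zero_div])
      have htu : t ≠ u := by
        rintro rfl
        apply h'; unfold ar; ring
      have hvx : 0 < v ((P t).1 - (P u).1) := by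
        rw [zero_lt_iff]
        exact (Valuation.ne_zero_iff v).mpr (sub_ne_zero.mpr (inj t u htu))
      rw [map_div₀] at hlt ⊢
      rw [map_div₀]
      rcases hmin' s t u h' with h1 | ⟨h1, h2⟩
      · rw [div_lt_div_iff₀ hvΔ hvx] at h1
        rw [div_lt_div_iff₀ hvΔ hvA]
        rw [mul_comm (v ((P t).1 - (P u).1))]
        exact h1
      · exfalso
        rw [div_eq_div_iff hvΔ.ne' hvx.ne'] at h1
        rw [div_lt_one₀ hvA] at hlt
        have h3 : v A * v ((P t).1 - (P u).1) < v A * v Δ ∨ v A * v Δ ≤ v A * v ((P t).1 - (P u).1) :=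
          lt_or_ge _ _
        have h4 : v A * v Δ ≤ v A * v ((P t).1 - (P u).1) := mul_le_mul_right h2 _
        rw [h1] at h4
        have h5 : v (ar (P s) (P t) (P u)) * v Δ < v A * v Δ := mul_lt_mul_of_pos_right hlt hvΔ
        exact absurd h4 (not_le.mpr h5)
  have B : Base P' a b p := by
    refine ⟨?_, ?_, ?_⟩
    · refine Prod.ext ?_ ?_
      · simp only [P']; simp
      · simp only [P']
        have : ar (P a) (P b) (P a) = 0 := by unfold ar; ring
        rw [this, zero_div]
    · refine Prod.ext ?_ ?_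
      · simp only [P']
        exact div_self hΔ
      · simp only [P']
        have : ar (P a) (P b) (P b) = 0 := by unfold ar; ring
        rw [this, zero_div]
    · simp only [P']
      exact div_self hA0
  obtain ⟨z, hzz⟩ := core_root B E R
  exact hz z hzz

/-- The determinant of three vectors. -/
def det3 (a b c : Fin 3 → K) : K :=
  a 0 * (b 1 * c 2 - b 2 * c 1) - a 1 * (b 0 * c 2 - b 2 * c 0) + a 2 * (b 0 * c 1 - b 1 * c 0)

open Polynomial in
theorem poly_two (a b c : K) (h : C a + C b * X + C c * X ^ 2 = 0) :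
    a = 0 ∧ b = 0 ∧ c = 0 := by
  have h0 := congrArg (fun f => Polynomial.coeff f 0) h
  have h1 := congrArg (fun f => Polynomial.coeff f 1) h
  have h2 := congrArg (fun f => Polynomial.coeff f 2) h
  simp only [coeff_add, coeff_C_mul, coeff_X_pow, coeff_C, coeff_X, coeff_zero] at h0 h1 h2
  simp at h0 h1 h2
  exact ⟨h0, h1, h2⟩

open Polynomial in
theorem poly_one (a b : K) (h : C a + C b * X = 0) : a = 0 ∧ b = 0 := by
  have h0 := congrArg (fun f => Polynomial.coeff f 0) h
  have h1 := congrArg (fun f => Polynomial.coeff f 1) h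
  simp only [coeff_add, coeff_C_mul, coeff_C, coeff_X, coeff_zero] at h0 h1
  simp at h0 h1
  exact ⟨h0, h1⟩

/-- Finitely many nonzero polynomials have a common non-root. -/
theorem exists_avoid [Infinite K] {ι : Type*} [Finite ι] (f : ι → Polynomial K)
    (hf : ∀ i, f i ≠ 0) : ∃ s : K, ∀ i, (f i).eval s ≠ 0 := by
  classical
  have := Fintype.ofFinite ι
  have hprod : (∏ i, f i) ≠ 0 := Finset.prod_ne_zero_iff.mpr fun i _ => hf i
  obtain ⟨s, hs⟩ : ∃ s : K, (∏ i, f i).eval s ≠ 0 := by
    by_contra hcon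
    push Not at hcon
    apply hprod
    apply Polynomial.funext
    intro r
    rw [hcon r, Polynomial.eval_zero]
  refine ⟨s, fun i hi => hs ?_⟩
  rw [Polynomial.eval_prod]
  exact Finset.prod_eq_zero (Finset.mem_univ i) hi

/-- Projective form of the theorem. -/
theorem proj_sg [Infinite K] (R : Red v) (hz : ∀ z : K, z ^ 2 - z + 1 ≠ 0) {ι : Type*} [Finite ι]
    (c : ι → Fin 3 → K)
    (ind : ∀ i j, i ≠ j → ¬ (c i 1 * c j 2 - c i 2 * c j 1 = 0 ∧
      c i 2 * c j 0 - c i 0 * c j 2 = 0 ∧ c i 0 * c j 1 - c i 1 * c j 0 = 0))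
    (sg : ∀ i j, i ≠ j → ∃ k, k ≠ i ∧ k ≠ j ∧ det3 (c i) (c j) (c k) = 0) :
    ∀ i j k, det3 (c i) (c j) (c k) = 0 := by
  classical
  by_cases hsub : Subsingleton ι
  · intro i j k
    rw [Subsingleton.elim j i]
    unfold det3; ring
  rw [not_subsingleton_iff_nontrivial] at hsub
  open Polynomial in
  obtain ⟨s, hs⟩ := exists_avoid (ι := {x : ι × ι // x.1 ≠ x.2})
    (fun x => C (c x.1.1 1 * c x.1.2 2 - c x.1.1 2 * c x.1.2 1)
      + C (c x.1.1 2 * c x.1.2 0 - c x.1.1 0 * c x.1.2 2) * X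
      + C (c x.1.1 0 * c x.1.2 1 - c x.1.1 1 * c x.1.2 0) * X ^ 2) (by
      rintro ⟨⟨i, j⟩, hij⟩ h
      exact ind i j hij (poly_two _ _ _ h))
  have hs' : ∀ i j, i ≠ j → (c i 1 - s * c i 0) * (c j 2 - s ^ 2 * c j 0)
      - (c i 2 - s ^ 2 * c i 0) * (c j 1 - s * c j 0) ≠ 0 := by
    intro i j hij h
    apply hs ⟨(i, j), hij⟩
    simp only [Polynomial.eval_add, Polynomial.eval_mul, Polynomial.eval_C, Polynomial.eval_X,
      Polynomial.eval_pow]
    linear_combination h
  open Polynomial in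
  obtain ⟨t, ht⟩ := exists_avoid (ι := ι)
    (fun i => C (c i 1 - s * c i 0) + C (c i 2 - s ^ 2 * c i 0) * X) (by
      intro i h
      obtain ⟨j, hij⟩ := exists_ne i
      apply hs' i j hij.symm
      obtain ⟨h0, h1⟩ := poly_one _ _ h
      rw [h0, h1]; ring)
  have ht' : ∀ i, (c i 1 - s * c i 0) + t * (c i 2 - s ^ 2 * c i 0) ≠ 0 := by
    intro i h
    apply ht i
    simp only [Polynomial.eval_add, Polynomial.eval_mul, Polynomial.eval_C, Polynomial.eval_X]
    linear_combination h
  let lam : ι → K := fun i => (c i 1 - s * c i 0) + t * (c i 2 - s ^ 2 * c i 0)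
  have hlam : ∀ i, lam i ≠ 0 := ht'
  let P : ι → K × K := fun i => ((c i 2 - s ^ 2 * c i 0) / lam i, c i 0 / lam i)
  have hP : ∀ i j k, ar (P i) (P j) (P k) * (lam i * lam j * lam k)
      = det3 (c i) (c j) (c k) := by
    intro i j k
    have hi := hlam i
    have hj := hlam j
    have hk := hlam k
    have e1 : ar (P i) (P j) (P k) * (lam i * lam j * lam k) =
        lam i * ((c j 2 - s ^ 2 * c j 0) * c k 0 - c j 0 * (c k 2 - s ^ 2 * c k 0))
        - (c i 2 - s ^ 2 * c i 0) * (lam j * c k 0 - c j 0 * lam k)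
        + c i 0 * (lam j * (c k 2 - s ^ 2 * c k 0) - (c j 2 - s ^ 2 * c j 0) * lam k) := by
      simp only [ar, P]
      field_simp
      ring
    rw [e1]
    simp only [lam, det3]
    ring
  have key := affine_sg R hz P ?_ ?_
  · intro i j k
    rw [← hP, key, zero_mul]
  · intro i j hij h
    apply hs' i j hij
    simp only [P] at h
    rw [div_eq_div_iff (hlam i) (hlam j)] at h
    simp only [lam] at h
    linear_combination -h
  · intro i j hij
    obtain ⟨k, h1, h2, h3⟩ := sg i j hij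
    refine ⟨k, h1, h2, ?_⟩
    have := hP i j k
    rw [h3] at this
    exact (mul_eq_zero.mp this).resolve_right
      (mul_ne_zero (mul_ne_zero (hlam i) (hlam j)) (hlam k))

end

end Run7.h321
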