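import Pool.Agent.Run7.h321.Sqrt

set_option autoImplicit false

namespace Run7.h321

open Polynomial

/-- The value of the slope coordinate. -/
def fib (θ : ℂ) (b : ℂ × ℂ) : ℂ := b.2 - θ * b.1

/-- The linear factor attached to a point. -/
noncomputable def linf (b : ℂ × ℂ) : (ℂ[X])[X] := X - C (C b.2 - X * C b.1)

theorem linf_TD (b : ℂ × ℂ) : TD 1 (linf b) := by
  intro i
  unfold linf
  rw [coeff_sub, coeff_X, coeff_C]
  apply Submodule.sub_mem
  · split_ifs with h
    · rw [← h, mem_degreeLT, degree_one]; norm_num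
    · exact Submodule.zero_mem _
  · split_ifs with h
    · rw [h, mem_degreeLT]
      have h1 : (C b.2 - X * C b.1 : ℂ[X]).degree ≤ 1 := by
        apply (degree_sub_le _ _).trans
        apply max_le
        · exact (degree_C_le).trans (by norm_num)
        · rw [X_mul_C]
          exact (degree_C_mul_X_le _)
      exact lt_of_le_of_lt h1 (by norm_num)
    · exact Submodule.zero_mem _

theorem linf_monic (b : ℂ × ℂ) : (linf b).Monic := monic_X_sub_C _

theorem linf_natDegree (b : ℂ × ℂ) : (linf b).natDegree = 1 := natDegree_X_sub_C _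

theorem eval_TD_natDegree {n : ℕ} {S : (ℂ[X])[X]} (hT : TD n S) (b : ℂ × ℂ) :
    (S.eval (C b.2 - X * C b.1)).natDegree ≤ n := by
  rw [eval_eq_sum, sum_def]
  apply natDegree_sum_le_of_forall_le
  intro i hi
  have h1 := hT i
  rw [mem_support_iff] at hi
  rw [mem_degreeLT, degree_eq_natDegree hi] at h1
  have h1' : (S.coeff i).natDegree < n + 1 - i := by exact_mod_cast h1
  have h2 : (C b.2 - X * C b.1 : ℂ[X]).natDegree ≤ 1 := by
    apply (natDegree_sub_le _ _).trans
    apply max_le
    · simp
    · rw [X_mul_C]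
      apply (natDegree_C_mul_le _ _).trans
      exact natDegree_X.le
  have h3 : ((C b.2 - X * C b.1 : ℂ[X]) ^ i).natDegree ≤ i := by
    apply natDegree_pow_le.trans
    calc i * (C b.2 - X * C b.1 : ℂ[X]).natDegree ≤ i * 1 := Nat.mul_le_mul_left _ h2
      _ = i := mul_one _
  apply natDegree_mul_le.trans
  omega

theorem map_linf (x₀ : ℂ) (b : ℂ × ℂ) :
    (linf b).map (evalRingHom x₀) = X - C (fib x₀ b) := by
  unfold linf fib
  simp
  ring

theorem redei (B : Finset (ℂ × ℂ)) (Θ : Finset ℂ) (hB : B.card = 2 * Θ.card)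
    (hfib : ∀ θ ∈ Θ, ∀ b ∈ B, (B.filter fun b' => fib θ b' = fib θ b).card = 2) :
    ∃ c : ℂ × ℂ → ℂ,
      (∀ b ∈ B, ∀ b' ∈ B, ∀ x₀, x₀ ∉ Θ → fib x₀ b = fib x₀ b' → c b = c b') ∧
      (∀ v, (B.filter fun b => c b = v).card ≤ Θ.card) := by
  classical
  set n := Θ.card with hn
  set R : (ℂ[X])[X] := ∏ b ∈ B, linf b with hR
  have hRm : R.Monic := monic_prod_of_monic _ _ fun b _ => linf_monic b
  have hRd : R.natDegree = 2 * n := by
    rw [hR, natDegree_prod_of_monic _ _ fun b _ => linf_monic b]
    simp [linf_natDegree, hB]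
  have hRT : TD (2 * n) R := by
    rw [← hB]; exact TD.prod B _ fun b _ => linf_TD b
  have hRl : R.coeff (2 * n) = 1 := by
    have := hRm.coeff_natDegree
    rwa [hRd] at this
  obtain ⟨S, hSm, hSn, hST, hSz⟩ := exists_sqrt n R hRT hRl hRd.le n le_rfl
  have hmapR : ∀ x₀ : ℂ, R.map (evalRingHom x₀) = ∏ b ∈ B, (X - C (fib x₀ b)) := by
    intro x₀
    rw [hR, Polynomial.map_prod]
    exact Finset.prod_congr rfl fun b _ => map_linf x₀ b
  -- at a slope of `Θ` the specialised root is the true root
  have hroot : ∀ θ ∈ Θ, ∀ b ∈ B, (S.map (evalRingHom θ)).eval (fib θ b) = 0 := by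
    intro θ hθ b hb
    set ρ : ℂ[X] := ∏ v ∈ B.image (fib θ), (X - C v) with hρ
    have hfibc : ∀ v ∈ B.image (fib θ), (B.filter fun b' => fib θ b' = v).card = 2 := by
      intro v hv
      obtain ⟨b', hb', rfl⟩ := Finset.mem_image.mp hv
      exact hfib θ hθ b' hb'
    have hcard : (B.image (fib θ)).card = n := by
      have h1 := Finset.card_eq_sum_card_image (fib θ) B
      rw [Finset.sum_congr rfl hfibc, Finset.sum_const, smul_eq_mul, hB] at h1
      omega
    have hRρ : R.map (evalRingHom θ) = ρ ^ 2 := by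
      rw [hmapR, Finset.prod_comp (fun v => X - C v) (fib θ), hρ, ← Finset.prod_pow]
      apply Finset.prod_congr rfl
      intro v hv
      rw [hfibc v hv]
    have hρm : ρ.Monic := monic_prod_of_monic _ _ fun v _ => monic_X_sub_C v
    have hρd : ρ.natDegree = n := by
      rw [hρ, natDegree_prod_of_monic _ _ fun v _ => monic_X_sub_C v]
      simp [hcard]
    set σ := S.map (evalRingHom θ) with hσ
    have hσm : σ.Monic := hSm.map _
    have hσd : σ.natDegree = n := by rw [hσ, hSm.natDegree_map, hSn]
    have heq : ρ = σ := by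
      by_contra hne
      have hsub : ρ - σ ≠ 0 := sub_ne_zero.mpr hne
      have hadd : (ρ + σ).coeff n = 2 := by
        have h1 := hρm.coeff_natDegree
        have h2 := hσm.coeff_natDegree
        rw [hρd] at h1
        rw [hσd] at h2
        rw [coeff_add, h1, h2]; norm_num
      have hadd0 : ρ + σ ≠ 0 := by
        intro h0
        rw [h0, coeff_zero] at hadd
        norm_num at hadd
      have hge : n ≤ (ρ + σ).natDegree := le_natDegree_of_ne_zero (by rw [hadd]; norm_num)
      have hprod : (ρ - σ) * (ρ + σ) = (R - S * S).map (evalRingHom θ) := by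
        rw [Polynomial.map_sub, Polynomial.map_mul, hRρ]; ring
      have hnd : ((ρ - σ) * (ρ + σ)).natDegree = (ρ - σ).natDegree + (ρ + σ).natDegree :=
        natDegree_mul hsub hadd0
      have hc : ((ρ - σ) * (ρ + σ)).coeff ((ρ - σ) * (ρ + σ)).natDegree = 0 := by
        rw [hprod, coeff_map, hSz _ (by rw [← hprod, hnd]; omega), map_zero]
      have : (ρ - σ) * (ρ + σ) = 0 := by
        rw [← leadingCoeff_eq_zero]; exact hc
      exact (mul_ne_zero hsub hadd0) this
    rw [← heq, hρ, eval_prod]
    apply Finset.prod_eq_zero (Finset.mem_image_of_mem _ hb)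
    simp
  set PΘ : ℂ[X] := ∏ θ ∈ Θ, (X - C θ) with hP
  have hPm : PΘ.Monic := monic_prod_of_monic _ _ fun v _ => monic_X_sub_C v
  have hPd : PΘ.natDegree = n := by
    rw [hP, natDegree_prod_of_monic _ _ fun v _ => monic_X_sub_C v]; simp [hn]
  have hPev : ∀ x, x ∉ Θ → PΘ.eval x ≠ 0 := by
    intro x hx
    rw [hP, eval_prod, Finset.prod_ne_zero_iff]
    intro θ hθ h0
    rw [eval_sub, eval_X, eval_C, sub_eq_zero] at h0
    exact hx (h0 ▸ hθ)
  let g : ℂ × ℂ → ℂ[X] := fun b => S.eval (C b.2 - X * C b.1)
  have hgev : ∀ b x, (g b).eval x = (S.map (evalRingHom x)).eval (fib x b) := by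
    intro b x
    have h1 := Polynomial.eval₂_at_apply (p := S) (evalRingHom x) (C b.2 - X * C b.1)
    rw [eval_map]
    have h2 : (evalRingHom x) (C b.2 - X * C b.1) = fib x b := by
      unfold fib
      simp
      ring
    rw [h2] at h1
    rw [h1]
    rfl
  have hg : ∀ b ∈ B, g b = C ((g b).coeff n) * PΘ := by
    intro b hb
    by_contra hne
    have hsub : g b - C ((g b).coeff n) * PΘ ≠ 0 := sub_ne_zero.mpr hne
    have hdeg : (g b - C ((g b).coeff n) * PΘ).natDegree ≤ n := by
      apply (natDegree_sub_le _ _).trans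
      apply max_le (eval_TD_natDegree hST b)
      exact (natDegree_C_mul_le _ _).trans hPd.le
    have hcn : (g b - C ((g b).coeff n) * PΘ).coeff n = 0 := by
      have h1 := hPm.coeff_natDegree
      rw [hPd] at h1
      rw [coeff_sub, coeff_C_mul, h1]; ring
    have hdvd : PΘ ∣ (g b - C ((g b).coeff n) * PΘ) := by
      rw [hP]
      apply Finset.prod_dvd_of_coprime
      · intro θ _ θ' _ hne'
        exact pairwise_coprime_X_sub_C Function.injective_id hne'
      · intro θ hθ
        rw [dvd_iff_isRoot, IsRoot, eval_sub, eval_mul, hgev, hroot θ hθ b hb]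
        have : PΘ.eval θ = 0 := by
          rw [hP, eval_prod]
          apply Finset.prod_eq_zero hθ
          simp
        rw [this]; simp
    have hle := natDegree_le_of_dvd hdvd hsub
    rw [hPd] at hle
    have heq : (g b - C ((g b).coeff n) * PΘ).natDegree = n := le_antisymm hdeg hle
    have : (g b - C ((g b).coeff n) * PΘ).leadingCoeff = 0 := by
      rw [leadingCoeff, heq, hcn]
    exact hsub (leadingCoeff_eq_zero.mp this)
  refine ⟨fun b => (g b).coeff n, ?_, ?_⟩
  · intro b hb b' hb' x₀ hx₀ hf
    have h1 := hgev b x₀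
    have h2 := hgev b' x₀
    rw [← hf, ← h1, hg b hb, hg b' hb', eval_mul, eval_mul, eval_C, eval_C] at h2
    exact (mul_right_cancel₀ (hPev x₀ hx₀) h2).symm
  · intro v
    -- a slope at which all values are distinct
    obtain ⟨x, hx⟩ := Infinite.exists_notMem_finset
      ((B ×ˢ B).image fun q => (q.1.2 - q.2.2) / (q.1.1 - q.2.1))
    have hinj : ∀ b ∈ B, ∀ b' ∈ B, fib x b = fib x b' → b = b' := by
      intro b hb b' hb' he
      by_contra hne
      apply hx
      rw [Finset.mem_image]
      refine ⟨(b, b'), Finset.mem_product.mpr ⟨hb, hb'⟩, ?_⟩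
      unfold fib at he
      have h1 : b.1 - b'.1 ≠ 0 := by
        intro h0
        have h1 : b.1 = b'.1 := sub_eq_zero.mp h0
        rw [h1] at he
        exact hne (Prod.ext h1 (by linear_combination he))
      field_simp
      linear_combination he
    set σ : ℂ[X] := S.map (evalRingHom x) - C (v * PΘ.eval x) with hσ
    by_cases hn0 : n = 0
    · have : B.card = 0 := by rw [hB, hn0]
      rw [Finset.card_eq_zero] at this
      simp [this]
    have hSxm : (S.map (evalRingHom x)).Monic := hSm.map _
    have hSxd : (S.map (evalRingHom x)).natDegree = n := by rw [hSm.natDegree_map, hSn]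
    have hσd : σ.natDegree = n := by
      rw [hσ, natDegree_sub_C, hSxd]
    have hσ0 : σ ≠ 0 := by
      intro h0
      rw [h0, natDegree_zero] at hσd
      exact hn0 hσd.symm
    have hsub : (B.filter fun b => (g b).coeff n = v).image (fib x) ⊆ σ.roots.toFinset := by
      intro w hw
      obtain ⟨b, hb, rfl⟩ := Finset.mem_image.mp hw
      rw [Finset.mem_filter] at hb
      rw [Multiset.mem_toFinset, mem_roots hσ0, IsRoot, hσ, eval_sub, eval_C, ← hgev, hg b hb.1,
        eval_mul, eval_C, hb.2, sub_self]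
    have hcard := Finset.card_le_card hsub
    rw [Finset.card_image_of_injOn] at hcard
    · exact hcard.trans ((Multiset.toFinset_card_le _).trans
        ((card_roots' σ).trans hσd.le))
    · intro b hb b' hb' he
      exact hinj b (Finset.mem_filter.mp hb).1 b' (Finset.mem_filter.mp hb').1 he

end Run7.h321
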