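import Pool.Agent.Run7.h321.Proj

set_option autoImplicit false

namespace Run7.h321

/-- The reduction map of a valuation subring with residue field of order three. -/
theorem exists_red {K : Type*} [Field K] (O : ValuationSubring K)
    (hO : Nat.card (IsLocalRing.ResidueField O) = 3) : Nonempty (Red O.valuation) := by
  classical
  have hfin : Finite (IsLocalRing.ResidueField O) :=
    Nat.finite_of_card_ne_zero (by rw [hO]; decide)
  have hft : Fintype (IsLocalRing.ResidueField O) := Fintype.ofFinite _
  have hcard : Fintype.card (IsLocalRing.ResidueField O) = 3 := by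
    rw [← Nat.card_eq_fintype_card]; exact hO
  let e : IsLocalRing.ResidueField O ≃+* ZMod 3 :=
    (ZMod.ringEquivOfPrime _ Nat.prime_three hcard).symm
  let f : O →+* ZMod 3 := e.toRingHom.comp (IsLocalRing.residue O)
  have hf0 : ∀ x : O, f x = 0 ↔ O.valuation x < 1 := by
    intro x
    rw [← ValuationSubring.valuation_lt_one_iff, ← IsLocalRing.residue_eq_zero_iff]
    constructor
    · intro h
      exact (map_eq_zero_iff e e.injective).mp h
    · intro h
      change e (IsLocalRing.residue O x) = 0
      rw [h, map_zero]
  have mem : ∀ x : K, O.valuation x ≤ 1 → x ∈ O := fun x hx =>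
    (O.valuation_le_one_iff x).mp hx
  refine ⟨⟨fun x => if h : x ∈ O then f ⟨x, h⟩ else 0, ?_, ?_, ?_, ?_⟩⟩
  · intro x y hx hy
    have hx' := mem x hx
    have hy' := mem y hy
    rw [dif_pos hx', dif_pos hy', dif_pos (O.add_mem _ _ hx' hy'), ← map_add]
    rfl
  · intro x y hx hy
    have hx' := mem x hx
    have hy' := mem y hy
    rw [dif_pos hx', dif_pos hy', dif_pos (O.mul_mem _ _ hx' hy'), ← map_mul]
    rfl
  · rw [dif_pos O.one_mem]
    exact map_one f
  · intro x hx
    have hx' := mem x hx
    rw [dif_pos hx']
    exact hf0 ⟨x, hx'⟩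

end Run7.h321
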