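import Pool.Agent.Run7.h321.Redei

set_option autoImplicit false

namespace Run7.h321

open Finset

/-- The structure coming out of the equality case. -/
structure Net (Θ : Finset ℂ) (B₁ B₂ : Finset (ℂ × ℂ)) : Prop where
  card1 : B₁.card = Θ.card
  card2 : B₂.card = Θ.card
  cross : ∀ b ∈ B₁, ∀ b' ∈ B₂, ∃ θ ∈ Θ, fib θ b = fib θ b'
  in1 : ∀ b ∈ B₁, ∀ b' ∈ B₁, b ≠ b' → ∀ θ ∈ Θ, fib θ b ≠ fib θ b'
  in2 : ∀ b ∈ B₂, ∀ b' ∈ B₂, b ≠ b' → ∀ θ ∈ Θ, fib θ b ≠ fib θ b'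
  part1 : ∀ b ∈ B₁, ∀ θ ∈ Θ, ∃ b' ∈ B₂, fib θ b' = fib θ b
  part2 : ∀ b ∈ B₂, ∀ θ ∈ Θ, ∃ b' ∈ B₁, fib θ b' = fib θ b
  ne : ∀ b ∈ B₁, ∀ b' ∈ B₂, b ≠ b'

theorem Net.symm {Θ : Finset ℂ} {B₁ B₂ : Finset (ℂ × ℂ)} (N : Net Θ B₁ B₂) : Net Θ B₂ B₁ where
  card1 := N.card2
  card2 := N.card1
  cross := fun b hb b' hb' => by
    obtain ⟨θ, h1, h2⟩ := N.cross b' hb' b hb
    exact ⟨θ, h1, h2.symm⟩
  in1 := N.in2
  in2 := N.in1
  part1 := N.part2
  part2 := N.part1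
  ne := fun b hb b' hb' h => N.ne b' hb' b hb h.symm

theorem exists_net (B : Finset (ℂ × ℂ)) (Θ : Finset ℂ) (hΘ : 0 < Θ.card)
    (hB : B.card = 2 * Θ.card)
    (hfib : ∀ θ ∈ Θ, ∀ b ∈ B, (B.filter fun b' => fib θ b' = fib θ b).card = 2)
    (hx : ∀ b ∈ B, ∀ b' ∈ B, b.1 = b'.1 → b = b') :
    ∃ B₁ B₂ : Finset (ℂ × ℂ), (∀ b, b ∈ B ↔ b ∈ B₁ ∨ b ∈ B₂) ∧ Net Θ B₁ B₂ := by
  classical
  obtain ⟨c, hc1, hc2⟩ := redei B Θ hB hfib
  set n := Θ.card with hn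
  let N : ℂ × ℂ → Finset (ℂ × ℂ) := fun b =>
    B.filter fun b' => b' ≠ b ∧ ∃ θ ∈ Θ, fib θ b' = fib θ b
  let Cl : ℂ × ℂ → Finset (ℂ × ℂ) := fun b => B.filter fun b' => c b' = c b
  have hN : ∀ b ∈ B, (N b).card ≤ n := by
    intro b hb
    have hsub : N b ⊆ Θ.biUnion fun θ => (B.filter fun b' => fib θ b' = fib θ b).erase b := by
      intro b' hb'
      simp only [N, mem_filter] at hb'
      obtain ⟨h1, h2, θ, h3, h4⟩ := hb'
      rw [mem_biUnion]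
      exact ⟨θ, h3, mem_erase.mpr ⟨h2, mem_filter.mpr ⟨h1, h4⟩⟩⟩
    apply (card_le_card hsub).trans
    apply (card_biUnion_le).trans
    have : ∀ θ ∈ Θ, ((B.filter fun b' => fib θ b' = fib θ b).erase b).card = 1 := by
      intro θ hθ
      have hmem : b ∈ B.filter fun b' => fib θ b' = fib θ b := mem_filter.mpr ⟨hb, rfl⟩
      rw [card_erase_of_mem hmem, hfib θ hθ b hb]
    rw [sum_congr rfl this, sum_const, smul_eq_mul, mul_one]
  have hsubset : ∀ b ∈ B, B \ N b ⊆ Cl b := by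
    intro b hb b' hb'
    rw [mem_sdiff] at hb'
    obtain ⟨h1, h2⟩ := hb'
    simp only [Cl, mem_filter]
    refine ⟨h1, ?_⟩
    by_cases he : b' = b
    · rw [he]
    have hx' : b'.1 - b.1 ≠ 0 := fun h0 => he (hx b' h1 b hb (sub_eq_zero.mp h0))
    have hfe : fib ((b'.2 - b.2) / (b'.1 - b.1)) b' = fib ((b'.2 - b.2) / (b'.1 - b.1)) b := by
      unfold fib
      field_simp
      ring
    apply hc1 b' h1 b hb _ _ hfe
    intro hmem
    apply h2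
    simp only [N, mem_filter]
    exact ⟨h1, he, _, hmem, hfe⟩
  have hNB : ∀ b, N b ⊆ B := fun b => filter_subset _ _
  have hcl : ∀ b ∈ B, B \ N b = Cl b ∧ (Cl b).card = n := by
    intro b hb
    have h1 : (B \ N b).card = B.card - (N b).card := card_sdiff_of_subset (hNB b)
    have h2 := hN b hb
    have h3 := hc2 (c b)
    have h3' : (Cl b).card ≤ n := h3
    have h4 := card_le_card (hsubset b hb)
    have h5 : B \ N b = Cl b := eq_of_subset_of_card_le (hsubset b hb) (by omega)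
    exact ⟨h5, by omega⟩
  have hBne : B.Nonempty := by rw [← card_pos]; omega
  obtain ⟨b₀, hb₀⟩ := hBne
  have hClB : Cl b₀ ⊆ B := filter_subset _ _
  have hcard1 : (Cl b₀).card = n := (hcl b₀ hb₀).2
  have hcard2 : (B \ Cl b₀).card = n := by
    rw [card_sdiff_of_subset hClB]; omega
  -- second class
  have hsec : ∀ b ∈ B \ Cl b₀, ∀ b' ∈ B \ Cl b₀, c b' = c b := by
    intro b hb b' hb'
    have hbB := (mem_sdiff.mp hb).1
    have hne : c b ≠ c b₀ := by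
      intro h0
      apply (mem_sdiff.mp hb).2
      exact mem_filter.mpr ⟨hbB, h0⟩
    have hsub : Cl b ⊆ B \ Cl b₀ := by
      intro a ha
      have ha' := mem_filter.mp ha
      rw [mem_sdiff]
      refine ⟨ha'.1, fun h0 => hne ?_⟩
      rw [← ha'.2, (mem_filter.mp h0).2]
    have heq : Cl b = B \ Cl b₀ := eq_of_subset_of_card_le hsub (by
      rw [hcard2, (hcl b hbB).2])
    rw [← heq] at hb'
    exact (mem_filter.mp hb').2
  have hadj : ∀ b ∈ B, ∀ b' ∈ B, c b' ≠ c b → ∃ θ ∈ Θ, fib θ b = fib θ b' := by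
    intro b hb b' hb' hne
    have h1 : b' ∉ B \ N b := by
      rw [(hcl b hb).1]
      intro h0
      exact hne (mem_filter.mp h0).2
    have h2 : b' ∈ N b := by
      by_contra h0
      exact h1 (mem_sdiff.mpr ⟨hb', h0⟩)
    obtain ⟨_, _, θ, h3, h4⟩ := mem_filter.mp h2
    exact ⟨θ, h3, h4.symm⟩
  have hnadj : ∀ b ∈ B, ∀ b' ∈ B, c b' = c b → b ≠ b' → ∀ θ ∈ Θ, fib θ b ≠ fib θ b' := by
    intro b hb b' hb' he hne θ hθ hf
    have h1 : b' ∈ B \ N b := by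
      rw [(hcl b hb).1]
      exact mem_filter.mpr ⟨hb', he⟩
    apply (mem_sdiff.mp h1).2
    exact mem_filter.mpr ⟨hb', hne.symm, θ, hθ, hf.symm⟩
  have hpartner : ∀ b ∈ B, ∀ θ ∈ Θ, ∃ b' ∈ B, b' ≠ b ∧ fib θ b' = fib θ b := by
    intro b hb θ hθ
    have h1 : 1 < (B.filter fun b' => fib θ b' = fib θ b).card := by rw [hfib θ hθ b hb]; norm_num
    obtain ⟨b', h2, h3⟩ := exists_mem_ne h1 b
    exact ⟨b', (mem_filter.mp h2).1, h3, (mem_filter.mp h2).2⟩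
  have h1mem : ∀ b ∈ Cl b₀, b ∈ B ∧ c b = c b₀ := fun b hb => mem_filter.mp hb
  have h2mem : ∀ b ∈ B \ Cl b₀, b ∈ B ∧ c b ≠ c b₀ := fun b hb =>
    ⟨(mem_sdiff.mp hb).1, fun h0 => (mem_sdiff.mp hb).2 (mem_filter.mpr ⟨(mem_sdiff.mp hb).1, h0⟩)⟩
  refine ⟨Cl b₀, B \ Cl b₀, ?_, hcard1, hcard2, ?_, ?_, ?_, ?_, ?_, ?_⟩
  · intro b
    constructor
    · intro hb
      by_cases h : b ∈ Cl b₀
      · exact Or.inl h
      · exact Or.inr (mem_sdiff.mpr ⟨hb, h⟩)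
    · rintro (h | h)
      · exact (h1mem b h).1
      · exact (h2mem b h).1
  · intro b hb b' hb'
    apply hadj b (h1mem b hb).1 b' (h2mem b' hb').1
    rw [(h1mem b hb).2]
    exact (h2mem b' hb').2
  · intro b hb b' hb' hne
    apply hnadj b (h1mem b hb).1 b' (h1mem b' hb').1 _ hne
    rw [(h1mem b hb).2, (h1mem b' hb').2]
  · intro b hb b' hb' hne
    exact hnadj b (h2mem b hb).1 b' (h2mem b' hb').1 (hsec b hb b' hb') hne
  · intro b hb θ hθ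
    obtain ⟨b', h1, h2, h3⟩ := hpartner b (h1mem b hb).1 θ hθ
    refine ⟨b', ?_, h3⟩
    rw [mem_sdiff]
    refine ⟨h1, fun h0 => ?_⟩
    exact hnadj b (h1mem b hb).1 b' h1 (by rw [(h1mem b hb).2, (h1mem b' h0).2]) h2.symm θ hθ h3.symm
  · intro b hb θ hθ
    obtain ⟨b', h1, h2, h3⟩ := hpartner b (h2mem b hb).1 θ hθ
    refine ⟨b', ?_, h3⟩
    by_contra h0
    exact hnadj b (h2mem b hb).1 b' h1 (hsec b hb b' (mem_sdiff.mpr ⟨h1, h0⟩)) h2.symm θ hθ h3.symm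
  · intro b hb b' hb' he
    apply (h2mem b' hb').2
    rw [← he]
    exact (h1mem b hb).2

end Run7.h321
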