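import Mathlib

set_option autoImplicit false

namespace Run7.h321

open Polynomial

/-- Total degree at most `N` for a polynomial in `t` over `ℂ[X]`. -/
def TD (N : ℕ) (F : (ℂ[X])[X]) : Prop := ∀ i, F.coeff i ∈ degreeLT ℂ (N + 1 - i)

theorem TD.sub {N : ℕ} {F G : (ℂ[X])[X]} (hF : TD N F) (hG : TD N G) : TD N (F - G) := by
  intro i
  rw [coeff_sub]
  exact Submodule.sub_mem _ (hF i) (hG i)

theorem TD.add {N : ℕ} {F G : (ℂ[X])[X]} (hF : TD N F) (hG : TD N G) : TD N (F + G) := by
  intro i
  rw [coeff_add]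
  exact Submodule.add_mem _ (hF i) (hG i)

theorem TD.mul {N M : ℕ} {F G : (ℂ[X])[X]} (hF : TD N F) (hG : TD M G) :
    TD (N + M) (F * G) := by
  intro k
  rw [coeff_mul]
  apply Submodule.sum_mem
  rintro ⟨i, j⟩ hij
  rw [Finset.HasAntidiagonal.mem_antidiagonal] at hij
  simp only at hij ⊢
  have h1 := hF i
  have h2 := hG j
  rw [mem_degreeLT] at h1 h2 ⊢
  by_cases hf : F.coeff i = 0
  · rw [hf, zero_mul, degree_zero]
    exact WithBot.bot_lt_coe _
  by_cases hg : G.coeff j = 0
  · rw [hg, mul_zero, degree_zero]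
    exact WithBot.bot_lt_coe _
  rw [degree_eq_natDegree hf] at h1
  rw [degree_eq_natDegree hg] at h2
  rw [degree_mul, degree_eq_natDegree hf, degree_eq_natDegree hg]
  have h1' : (F.coeff i).natDegree < N + 1 - i := by exact_mod_cast h1
  have h2' : (G.coeff j).natDegree < M + 1 - j := by exact_mod_cast h2
  have : (F.coeff i).natDegree + (G.coeff j).natDegree < N + M + 1 - k := by omega
  exact_mod_cast this

theorem TD.prod {ι : Type} (s : Finset ι) (F : ι → (ℂ[X])[X]) (h : ∀ i ∈ s, TD 1 (F i)) :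
    TD s.card (∏ i ∈ s, F i) := by
  classical
  induction s using Finset.induction_on with
  | empty =>
    intro i
    simp only [Finset.card_empty, Finset.prod_empty]
    rw [mem_degreeLT, coeff_one]
    split_ifs with h0
    · subst h0; simp
    · rw [degree_zero]; exact WithBot.bot_lt_coe _
  | insert a s ha ih =>
    rw [Finset.prod_insert ha, Finset.card_insert_of_notMem ha, add_comm]
    exact (h a (Finset.mem_insert_self _ _)).mul
      (ih fun i hi => h i (Finset.mem_insert_of_mem hi))

theorem TD.C_mul_X {N k : ℕ} {a : ℂ[X]} (ha : a ∈ degreeLT ℂ (N + 1 - k)) :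
    TD N (C a * X ^ k) := by
  intro i
  rw [coeff_C_mul_X_pow]
  split_ifs with h
  · rw [h]; exact ha
  · exact Submodule.zero_mem _

/-- Square root at infinity. -/
theorem exists_sqrt (n : ℕ) (R : (ℂ[X])[X]) (hR : TD (2 * n) R) (hlead : R.coeff (2 * n) = 1)
    (hdeg : R.natDegree ≤ 2 * n) (k : ℕ) (hk : k ≤ n) :
    ∃ S : (ℂ[X])[X], S.Monic ∧ S.natDegree = n ∧ TD n S ∧
      ∀ i, 2 * n - k ≤ i → (R - S * S).coeff i = 0 := by
  induction k with
  | zero =>
    refine ⟨X ^ n, monic_X_pow n, natDegree_X_pow n, ?_, ?_⟩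
    · have : (X : (ℂ[X])[X]) ^ n = C 1 * X ^ n := by rw [C_1, one_mul]
      rw [this]
      apply TD.C_mul_X
      rw [mem_degreeLT]
      simp
    · intro i hi
      rw [← pow_add, coeff_sub, coeff_X_pow]
      split_ifs with h
      · rw [h, ← two_mul, hlead, sub_self]
      · rw [coeff_eq_zero_of_natDegree_lt (by omega), sub_zero]
  | succ k ih =>
    obtain ⟨S, hm, hn, hT, hz⟩ := ih (by omega)
    set a : ℂ[X] := C (1 / 2 : ℂ) * (R - S * S).coeff (2 * n - k - 1) with ha
    have h2a : 2 * a = (R - S * S).coeff (2 * n - k - 1) := by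
      rw [ha, ← mul_assoc]
      have : (2 : ℂ[X]) * C (1 / 2 : ℂ) = 1 := by
        have e2 : (2 : ℂ[X]) = C (2 : ℂ) := (map_ofNat C 2).symm
        rw [e2, ← C_mul]
        norm_num
      rw [this, one_mul]
    have hTD : TD (2 * n) (R - S * S) := by
      apply hR.sub
      have := hT.mul hT
      rwa [← two_mul] at this
    have haT : TD n (C a * X ^ (n - k - 1)) := by
      apply TD.C_mul_X
      have h1 := hTD (2 * n - k - 1)
      have e : 2 * n + 1 - (2 * n - k - 1) = n + 1 - (n - k - 1) := by omega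
      rw [e] at h1
      rw [ha, ← smul_eq_C_mul]
      exact Submodule.smul_mem _ _ h1
    have hdlt : (C a * X ^ (n - k - 1) : (ℂ[X])[X]).degree < (S.degree) := by
      rw [degree_eq_natDegree hm.ne_zero, hn]
      apply lt_of_le_of_lt (degree_C_mul_X_pow_le _ _)
      have : n - k - 1 < n := by omega
      exact_mod_cast this
    have hSm : (S + C a * X ^ (n - k - 1)).Monic := hm.add_of_left hdlt
    have hSn : (S + C a * X ^ (n - k - 1)).natDegree = n := by
      rw [natDegree_add_eq_left_of_degree_lt hdlt, hn]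
    refine ⟨S + C a * X ^ (n - k - 1), hSm, hSn, hT.add haT, ?_⟩
    intro i hi
    have e1 : R - (S + C a * X ^ (n - k - 1)) * (S + C a * X ^ (n - k - 1))
        = (R - S * S) - C (2 * a) * (S * X ^ (n - k - 1))
          - C (a * a) * X ^ (2 * (n - k - 1)) := by
      have e2 : (C (2 : ℂ[X]) : (ℂ[X])[X]) = 2 := map_ofNat C 2
      simp only [C_mul]
      rw [e2]
      ring
    rw [e1, coeff_sub, coeff_sub, coeff_C_mul, coeff_C_mul_X_pow, if_neg (by omega), sub_zero]
    have e3 : i = (i - (n - k - 1)) + (n - k - 1) := by omega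
    have e2 : (S * X ^ (n - k - 1)).coeff i = S.coeff (i - (n - k - 1)) := by
      conv_lhs => rw [e3]
      rw [coeff_mul_X_pow]
    rw [e2]
    rcases Nat.lt_or_ge i (2 * n - k) with hlt | hge
    · have hieq : i = 2 * n - k - 1 := by omega
      have : i - (n - k - 1) = n := by omega
      rw [this, hieq]
      have hl : S.coeff n = 1 := by
        have := hm.coeff_natDegree
        rwa [hn] at this
      rw [hl, mul_one, h2a, sub_self]
    · rw [hz i hge, coeff_eq_zero_of_natDegree_lt (by omega), mul_zero, sub_zero]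

end Run7.h321
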