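import Pool.Agent.Run7.h321.Leaf2

set_option autoImplicit false

namespace Run7.h321.Two

open Finset
open Run7.h321 (det3 ar)

section

variable {K : Type*} [Field K] {Γ : Type*} [LinearOrderedCommGroupWithZero Γ]
  {v : Valuation K Γ}

theorem Sys.third {ι : Type} [Fintype ι] [DecidableEq ι] [DecidableEq K] {X : ι → Fin 3 → K}
    (S : Sys X) {i j : ι} (hij : i ≠ j) : ∃ k, k ≠ i ∧ k ≠ j ∧ det3 (X i) (X j) (X k) = 0 := by
  by_contra hcon
  push Not at hcon
  have h := S.odd i j hij
  have e : (univ.filter fun k => det3 (X i) (X j) (X k) = 0) = {i, j} := by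
    ext k
    simp only [mem_filter, mem_univ, true_and, mem_insert, mem_singleton]
    constructor
    · intro hk
      by_contra h'
      rw [not_or] at h'
      exact hcon k h'.1 h'.2 hk
    · rintro (rfl | rfl)
      · unfold det3; ring
      · unfold det3; ring
  rw [e, card_pair hij] at h
  exact absurd h (by decide)

theorem affine_two (R : Red v) {w : K} (D : DV v w) (h2 : (2 : K) ≠ 0) {ι : Type} [Fintype ι]
    [DecidableEq ι] [DecidableEq K] (P : ι → K × K) (inj : ∀ i j, i ≠ j → (P i).1 ≠ (P j).1)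
    (S : Sys (hc P)) : ∀ i j k, ar (P i) (P j) (P k) = 0 := by
  have sg : ∀ i j, i ≠ j → ∃ k, k ≠ i ∧ k ≠ j ∧ ar (P i) (P j) (P k) = 0 := by
    intro i j hij
    obtain ⟨k, h1, h2, h3⟩ := S.third hij
    rw [det3_hc] at h3
    exact ⟨k, h1, h2, h3⟩
  by_contra hcon
  push Not at hcon
  obtain ⟨i0, j0, k0, h0⟩ := hcon
  let α := {x : ι × ι × ι // ar (P x.1) (P x.2.1) (P x.2.2) ≠ 0}
  have : Nonempty α := ⟨⟨(i0, j0, k0), h0⟩⟩
  have : Finite α := Subtype.finite
  let f : α → Lex (Γ × Γ) := fun x =>
    toLex (v (ar (P x.1.1) (P x.1.2.1) (P x.1.2.2)) / v ((P x.1.2.1).1 - (P x.1.2.2).1),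
      v ((P x.1.2.1).1 - (P x.1.2.2).1))
  obtain ⟨⟨⟨p, a, b⟩, hpab⟩, hmin⟩ := Finite.exists_min f
  simp only at hpab
  have hmin' : ∀ s t u, ar (P s) (P t) (P u) ≠ 0 →
      (v (ar (P p) (P a) (P b)) / v ((P a).1 - (P b).1)
        < v (ar (P s) (P t) (P u)) / v ((P t).1 - (P u).1)) ∨
      (v (ar (P p) (P a) (P b)) / v ((P a).1 - (P b).1)
        = v (ar (P s) (P t) (P u)) / v ((P t).1 - (P u).1) ∧
        v ((P a).1 - (P b).1) ≤ v ((P t).1 - (P u).1)) := by
    intro s t u h
    have := hmin ⟨(s, t, u), h⟩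
    rw [Prod.Lex.le_iff] at this
    exact this
  have hab : a ≠ b := by
    rintro rfl
    apply hpab
    unfold ar; ring
  have hΔ : (P b).1 - (P a).1 ≠ 0 := sub_ne_zero.mpr (inj b a hab.symm)
  set A := ar (P a) (P b) (P p) with hA
  have hAp : ar (P p) (P a) (P b) = A := by rw [hA]; unfold ar; ring
  have hA0 : A ≠ 0 := by rw [← hAp]; exact hpab
  rw [hAp] at hmin'
  have hvA : 0 < v A := by
    rw [zero_lt_iff]; exact (Valuation.ne_zero_iff v).mpr hA0
  have hvΔ : 0 < v ((P b).1 - (P a).1) := by
    rw [zero_lt_iff]; exact (Valuation.ne_zero_iff v).mpr hΔ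
  rw [Valuation.map_sub_swap v (P a).1 (P b).1] at hmin'
  set Δ := (P b).1 - (P a).1 with hΔdef
  let P' : ι → K × K := fun s => (((P s).1 - (P a).1) / Δ, ar (P a) (P b) (P s) / A)
  have har : ∀ s t u, ar (P' s) (P' t) (P' u) = ar (P s) (P t) (P u) / A := by
    intro s t u
    have h1 : ∀ s t, (P' t).1 - (P' s).1 = ((P t).1 - (P s).1) / Δ := by
      intro s t; simp only [P']; ring
    have h2 : ∀ s t, (P' t).2 - (P' s).2
        = (Δ * ((P t).2 - (P s).2) - ((P b).2 - (P a).2) * ((P t).1 - (P s).1)) / A := by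
      intro s t
      simp only [P', ar]
      rw [hΔdef]
      ring
    unfold ar
    rw [h1, h2, h1, h2]
    field_simp
    ring
  have hx : ∀ t u, (P' t).1 - (P' u).1 = ((P t).1 - (P u).1) / Δ := by
    intro t u; simp only [P']; ring
  have E : Ext v P' := by
    refine ⟨?_, ?_, ?_, ?_⟩
    · intro i j hij h
      have := hx i j
      rw [h, sub_self] at this
      have h' := (div_eq_zero_iff.mp this.symm).resolve_right hΔ
      exact inj i j hij (sub_eq_zero.mp h')
    · intro i j hij
      obtain ⟨k, h1, h2, h3⟩ := sg i j hij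
      exact ⟨k, h1, h2, by rw [har, h3, zero_div]⟩
    · intro s t u h
      rw [har] at h ⊢
      rw [hx]
      have h' : ar (P s) (P t) (P u) ≠ 0 := fun h0 => h (by rw [h0, zero_div])
      have htu : t ≠ u := by
        rintro rfl
        apply h'; unfold ar; ring
      have hvx : 0 < v ((P t).1 - (P u).1) := by
        rw [zero_lt_iff]
        exact (Valuation.ne_zero_iff v).mpr (sub_ne_zero.mpr (inj t u htu))
      rw [map_div₀, map_div₀]
      have hle : v A / v Δ ≤ v (ar (P s) (P t) (P u)) / v ((P t).1 - (P u).1) := by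
        rcases hmin' s t u h' with h1 | h1
        · exact h1.le
        · exact h1.1.le
      rw [div_le_div_iff₀ hvΔ hvx] at hle
      rw [div_le_div_iff₀ hvΔ hvA]
      rw [mul_comm (v ((P t).1 - (P u).1))]
      exact hle
    · intro s t u h hlt
      rw [har] at h hlt ⊢
      rw [hx]
      have h' : ar (P s) (P t) (P u) ≠ 0 := fun h0 => h (by rw [h0, zero_div])
      have htu : t ≠ u := by
        rintro rfl
        apply h'; unfold ar; ring
      have hvx : 0 < v ((P t).1 - (P u).1) := by
        rw [zero_lt_iff]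
        exact (Valuation.ne_zero_iff v).mpr (sub_ne_zero.mpr (inj t u htu))
      rw [map_div₀] at hlt ⊢
      rw [map_div₀]
      rcases hmin' s t u h' with h1 | ⟨h1, h2⟩
      · rw [div_lt_div_iff₀ hvΔ hvx] at h1
        rw [div_lt_div_iff₀ hvΔ hvA]
        rw [mul_comm (v ((P t).1 - (P u).1))]
        exact h1
      · exfalso
        rw [div_eq_div_iff hvΔ.ne' hvx.ne'] at h1
        rw [div_lt_one₀ hvA] at hlt
        have h4 : v A * v Δ ≤ v A * v ((P t).1 - (P u).1) := mul_le_mul_right h2 _
        rw [h1] at h4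
        have h5 : v (ar (P s) (P t) (P u)) * v Δ < v A * v Δ := mul_lt_mul_of_pos_right hlt hvΔ
        exact absurd h4 (not_le.mpr h5)
  have B : Base P' a b p := by
    refine ⟨?_, ?_, ?_⟩
    · refine Prod.ext ?_ ?_
      · simp only [P']; simp
      · simp only [P']
        have : ar (P a) (P b) (P a) = 0 := by unfold ar; ring
        rw [this, zero_div]
    · refine Prod.ext ?_ ?_
      · simp only [P']
        exact div_self hΔ
      · simp only [P']
        have : ar (P a) (P b) (P b) = 0 := by unfold ar; ring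
        rw [this, zero_div]
    · simp only [P']
      exact div_self hA0
  have S' : Sys (hc P') := by
    refine ⟨?_, ?_, ?_⟩
    · intro i
      exact ⟨0, one_ne_zero⟩
    · intro i j hij h
      have h3 := h.2.2
      simp only [hc, Matrix.cons_val_zero, Matrix.cons_val_one, Matrix.cons_val] at h3
      apply E.inj i j hij
      linear_combination -h3
    · intro i j hij
      have h := S.odd i j hij
      have e : (univ.filter fun k => det3 (hc P' i) (hc P' j) (hc P' k) = 0)
          = univ.filter fun k => det3 (hc P i) (hc P j) (hc P k) = 0 := by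
        ext k
        simp only [mem_filter, mem_univ, true_and]
        rw [det3_hc, det3_hc, har, div_eq_zero_iff]
        constructor
        · rintro (h | h)
          · exact h
          · exact absurd h hA0
        · intro h; exact Or.inl h
      rw [e]
      exact h
  obtain ⟨c, d, f₀, f₁, Q⟩ := exists_six (R := R) B E
  exact leaf_false D E S' h2 Q

/-- Projective form of the theorem. -/
theorem proj_two [Infinite K] (R : Red v) {w : K} (D : DV v w) (h2 : (2 : K) ≠ 0) {ι : Type}
    [Fintype ι] [DecidableEq ι] [DecidableEq K] (c : ι → Fin 3 → K) (S : Sys c) :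
    ∀ i j k, det3 (c i) (c j) (c k) = 0 := by
  have ind : ∀ i j, i ≠ j → ¬ (c i 1 * c j 2 - c i 2 * c j 1 = 0 ∧
      c i 2 * c j 0 - c i 0 * c j 2 = 0 ∧ c i 0 * c j 1 - c i 1 * c j 0 = 0) :=
    fun i j hij => S.nc i j hij
  by_cases hsub : Subsingleton ι
  · intro i j k
    rw [Subsingleton.elim j i]
    unfold det3; ring
  rw [not_subsingleton_iff_nontrivial] at hsub
  open Polynomial in
  obtain ⟨s, hs⟩ := exists_avoid (ι := {x : ι × ι // x.1 ≠ x.2})
    (fun x => C (c x.1.1 1 * c x.1.2 2 - c x.1.1 2 * c x.1.2 1)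
      + C (c x.1.1 2 * c x.1.2 0 - c x.1.1 0 * c x.1.2 2) * X
      + C (c x.1.1 0 * c x.1.2 1 - c x.1.1 1 * c x.1.2 0) * X ^ 2) (by
      rintro ⟨⟨i, j⟩, hij⟩ h
      exact ind i j hij (poly_two _ _ _ h))
  have hs' : ∀ i j, i ≠ j → (c i 1 - s * c i 0) * (c j 2 - s ^ 2 * c j 0)
      - (c i 2 - s ^ 2 * c i 0) * (c j 1 - s * c j 0) ≠ 0 := by
    intro i j hij h
    apply hs ⟨(i, j), hij⟩
    simp only [Polynomial.eval_add, Polynomial.eval_mul, Polynomial.eval_C, Polynomial.eval_X,
      Polynomial.eval_pow]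
    linear_combination h
  open Polynomial in
  obtain ⟨t, ht⟩ := exists_avoid (ι := ι)
    (fun i => C (c i 1 - s * c i 0) + C (c i 2 - s ^ 2 * c i 0) * X) (by
      intro i h
      obtain ⟨j, hij⟩ := exists_ne i
      apply hs' i j hij.symm
      obtain ⟨h0, h1⟩ := poly_one _ _ h
      rw [h0, h1]; ring)
  have ht' : ∀ i, (c i 1 - s * c i 0) + t * (c i 2 - s ^ 2 * c i 0) ≠ 0 := by
    intro i h
    apply ht i
    simp only [Polynomial.eval_add, Polynomial.eval_mul, Polynomial.eval_C, Polynomial.eval_X]
    linear_combination h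
  let lam : ι → K := fun i => (c i 1 - s * c i 0) + t * (c i 2 - s ^ 2 * c i 0)
  have hlam : ∀ i, lam i ≠ 0 := ht'
  let P : ι → K × K := fun i => ((c i 2 - s ^ 2 * c i 0) / lam i, c i 0 / lam i)
  have hP : ∀ i j k, ar (P i) (P j) (P k) * (lam i * lam j * lam k)
      = det3 (c i) (c j) (c k) := by
    intro i j k
    have hi := hlam i
    have hj := hlam j
    have hk := hlam k
    have e1 : ar (P i) (P j) (P k) * (lam i * lam j * lam k) =
        lam i * ((c j 2 - s ^ 2 * c j 0) * c k 0 - c j 0 * (c k 2 - s ^ 2 * c k 0))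
        - (c i 2 - s ^ 2 * c i 0) * (lam j * c k 0 - c j 0 * lam k)
        + c i 0 * (lam j * (c k 2 - s ^ 2 * c k 0) - (c j 2 - s ^ 2 * c j 0) * lam k) := by
      simp only [ar, P]
      field_simp
      ring
    rw [e1]
    simp only [lam, det3]
    ring
  have hinj : ∀ i j, i ≠ j → (P i).1 ≠ (P j).1 := by
    intro i j hij h
    apply hs' i j hij
    simp only [P] at h
    rw [div_eq_div_iff (hlam i) (hlam j)] at h
    simp only [lam] at h
    linear_combination -h
  have S' : Sys (hc P) := by
    refine ⟨?_, ?_, ?_⟩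
    · intro i
      exact ⟨0, one_ne_zero⟩
    · intro i j hij h
      have h3 := h.2.2
      simp only [hc, Matrix.cons_val_zero, Matrix.cons_val_one, Matrix.cons_val] at h3
      apply hinj i j hij
      linear_combination -h3
    · intro i j hij
      have h := S.odd i j hij
      have e : (univ.filter fun k => det3 (hc P i) (hc P j) (hc P k) = 0)
          = univ.filter fun k => det3 (c i) (c j) (c k) = 0 := by
        ext k
        simp only [mem_filter, mem_univ, true_and]
        rw [det3_hc, ← hP i j k, mul_eq_zero]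
        constructor
        · intro h; exact Or.inl h
        · rintro (h | h)
          · exact h
          · exact absurd h (mul_ne_zero (mul_ne_zero (hlam i) (hlam j)) (hlam k))
      rw [e]
      exact h
  have key := affine_two R D h2 P hinj S'
  intro i j k
  rw [← hP, key, zero_mul]

/-- The reduction map of a valuation subring with residue field of order two. -/
theorem exists_red {K : Type*} [Field K] (O : ValuationSubring K)
    (hO : Nat.card (IsLocalRing.ResidueField O) = 2) : Nonempty (Red O.valuation) := by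
  classical
  have hfin : Finite (IsLocalRing.ResidueField O) :=
    Nat.finite_of_card_ne_zero (by rw [hO]; decide)
  have hft : Fintype (IsLocalRing.ResidueField O) := Fintype.ofFinite _
  have hcard : Fintype.card (IsLocalRing.ResidueField O) = 2 := by
    rw [← Nat.card_eq_fintype_card]; exact hO
  let e : IsLocalRing.ResidueField O ≃+* ZMod 2 :=
    (ZMod.ringEquivOfPrime _ Nat.prime_two hcard).symm
  let f : O →+* ZMod 2 := e.toRingHom.comp (IsLocalRing.residue O)
  have hf0 : ∀ x : O, f x = 0 ↔ O.valuation x < 1 := by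
    intro x
    rw [← ValuationSubring.valuation_lt_one_iff, ← IsLocalRing.residue_eq_zero_iff]
    constructor
    · intro h
      exact (map_eq_zero_iff e e.injective).mp h
    · intro h
      change e (IsLocalRing.residue O x) = 0
      rw [h, map_zero]
  have mem : ∀ x : K, O.valuation x ≤ 1 → x ∈ O := fun x hx =>
    (O.valuation_le_one_iff x).mp hx
  refine ⟨⟨fun x => if h : x ∈ O then f ⟨x, h⟩ else 0, ?_, ?_, ?_, ?_⟩⟩
  · intro x y hx hy
    have hx' := mem x hx
    have hy' := mem y hy
    rw [dif_pos hx', dif_pos hy', dif_pos (O.add_mem _ _ hx' hy'), ← map_add]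
    rfl
  · intro x y hx hy
    have hx' := mem x hx
    have hy' := mem y hy
    rw [dif_pos hx', dif_pos hy', dif_pos (O.mul_mem _ _ hx' hy'), ← map_mul]
    rfl
  · rw [dif_pos O.one_mem]
    exact map_one f
  · intro x hx
    have hx' := mem x hx
    rw [dif_pos hx']
    exact hf0 ⟨x, hx'⟩

/-- The valuation of a discrete valuation subring with residue field of order two. -/
theorem exists_dv {K : Type*} [Field K] (O : ValuationSubring K) [IsDiscreteValuationRing O]
    (R : Red O.valuation) : ∃ w : K, DV O.valuation w := by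
  obtain ⟨ϖ, hϖ⟩ := IsDiscreteValuationRing.exists_irreducible O
  have hO : ∀ x : O, x ≠ 0 → ∃ n : ℕ, O.valuation (x : K) = O.valuation (ϖ : K) ^ n := by
    intro x hx
    obtain ⟨n, u, hu⟩ := IsDiscreteValuationRing.eq_unit_mul_pow_irreducible hx hϖ
    refine ⟨n, ?_⟩
    have h1 : (x : K) = ((u : O) : K) * (ϖ : K) ^ n := by
      rw [hu]; push_cast; ring
    rw [h1, map_mul, map_pow, ValuationSubring.valuation_unit, one_mul]
  refine ⟨(ϖ : K), ?_, ?_, ?_, ?_⟩
  · intro h
    exact hϖ.ne_zero (Subtype.ext h)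
  · rw [← ValuationSubring.valuation_lt_one_iff]
    exact (IsLocalRing.mem_maximalIdeal _).mpr hϖ.not_isUnit
  · intro x hx
    rcases O.mem_or_inv_mem x with h | h
    · obtain ⟨n, hn⟩ := hO ⟨x, h⟩ (fun h0 => hx (congrArg Subtype.val h0))
      exact ⟨n, by rw [zpow_natCast]; exact hn⟩
    · obtain ⟨n, hn⟩ := hO ⟨x⁻¹, h⟩ (fun h0 => inv_ne_zero hx (congrArg Subtype.val h0))
      refine ⟨-n, ?_⟩
      rw [zpow_neg, zpow_natCast, ← hn]
      simp only [map_inv₀, inv_inv]
  · intro x y hx hxy
    have hvx : 0 < O.valuation x := by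
      rw [zero_lt_iff]; exact (Valuation.ne_zero_iff _).mpr hx
    have hz : O.valuation (y / x) = 1 := by
      rw [map_div₀, ← hxy]; exact div_self hvx.ne'
    have h1 : O.valuation (1 + y / x) < 1 := by
      apply R.lt_of_zero (Valuation.map_add_le _ (by rw [map_one]) hz.le)
      rw [R.add' _ _ (by rw [map_one]) hz.le, R.one', rd_unit hz]
      decide
    have e : x + y = x * (1 + y / x) := by field_simp
    rw [e, map_mul]
    calc O.valuation x * O.valuation (1 + y / x) < O.valuation x * 1 :=
          mul_lt_mul_of_pos_left h1 hvx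
      _ = O.valuation x := mul_one _

end

end Run7.h321.Two
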